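import Mathlib

set_option autoImplicit false

/-!
# MP_56168e_lc : small-bias densities and DNFs.  Common definitions (FIXED, do not change).

`Cube n` = points, `PA n` = partial assignments (terms of a DNF, restrictions).
`ex g` = uniform mean, `pe φ g` = mean of `g` under the density `φ`,
`chi S` = character, `fc g S` = Fourier coefficient, `nrm g` = sum of |Fourier coefficients|,
`nrg t g` = sum of t^|S| * (fc g S)^2.
`Sat T x` = the term T is satisfied by x, `ti T` = its 0/1 indicator, `ow T x` = x overwritten by T,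
`fi L` = 0/1 indicator of the DNF given by the list L of terms, `zc L x` = number of satisfied terms.
-/

namespace Pool.Agent.Work.MP_56168e_lc

open Finset

abbrev Cube (n : ℕ) := Fin n → Bool
abbrev PA (n : ℕ) := Fin n → Option Bool

variable {n : ℕ}

noncomputable def ex (g : Cube n → ℝ) : ℝ := (∑ x, g x) / 2 ^ n

noncomputable def chi (S : Finset (Fin n)) (x : Cube n) : ℝ :=
  ∏ i ∈ S, (if x i = true then (-1 : ℝ) else 1)

noncomputable def fc (g : Cube n → ℝ) (S : Finset (Fin n)) : ℝ := ex (fun x => g x * chi S x)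

noncomputable def nrm (g : Cube n → ℝ) : ℝ := ∑ S : Finset (Fin n), |fc g S|

noncomputable def nrg (t : ℝ) (g : Cube n → ℝ) : ℝ :=
  ∑ S : Finset (Fin n), t ^ S.card * (fc g S) ^ 2

/-- truncation to Fourier degree `< k` -/
noncomputable def tr (k : ℕ) (g : Cube n → ℝ) (x : Cube n) : ℝ :=
  ∑ S ∈ (univ : Finset (Finset (Fin n))).filter (fun S => S.card < k), fc g S * chi S x

noncomputable def pe (φ g : Cube n → ℝ) : ℝ := ex (fun x => φ x * g x)

structure Dens (ε : ℝ) (φ : Cube n → ℝ) : Prop where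
  nonneg : ∀ x, 0 ≤ φ x
  mean : ex φ = 1
  bias : ∀ S : Finset (Fin n), S.Nonempty → |fc φ S| ≤ ε

def dom (T : PA n) : Finset (Fin n) := univ.filter (fun i => T i ≠ none)

/-- probability of a term -/
noncomputable def pw (T : PA n) : ℝ := (1 / 2) ^ (dom T).card

def Sat (T : PA n) (x : Cube n) : Prop := ∀ i b, T i = some b → x i = b

def ow (T : PA n) (x : Cube n) : Cube n := fun i => (T i).getD (x i)

open Classical in
noncomputable def ti (T : PA n) (x : Cube n) : ℝ := if Sat T x then 1 else 0

def Ev (L : List (PA n)) (x : Cube n) : Prop := ∃ T ∈ L, Sat T x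

open Classical in
noncomputable def fi (L : List (PA n)) (x : Cube n) : ℝ := if Ev L x then 1 else 0

noncomputable def zc (L : List (PA n)) (x : Cube n) : ℝ := (L.map (fun T => ti T x)).sum

/-- restriction of a function -/
def res (ρ : PA n) (g : Cube n → ℝ) : Cube n → ℝ := fun x => g (ow ρ x)

/-- `g` does not depend on the variables in `U` -/
def Indep (U : Finset (Fin n)) (g : Cube n → ℝ) : Prop :=
  ∀ x y : Cube n, (∀ i, i ∉ U → x i = y i) → g x = g y

/-- remove the variables of `ρ` from the term `T` -/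
def rt (ρ T : PA n) : PA n := fun i => if ρ i = none then T i else none

/-- `T` contradicts `ρ` -/
def Fal (T ρ : PA n) : Prop := ∃ i b b', T i = some b ∧ ρ i = some b' ∧ b ≠ b'

open Classical in
/-- the list `L` restricted by `ρ` -/
noncomputable def rl (ρ : PA n) (L : List (PA n)) : List (PA n) :=
  (L.filter (fun T => ¬ Fal T ρ)).map (rt ρ)

/-- weight of a restriction: every variable is free with probability `p` -/
noncomputable def wt (p : ℝ) (ρ : PA n) : ℝ := ∏ i, (if ρ i = none then p else (1 - p) / 2)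

/-! ## elementary facts about `ex` -/

lemma ex_add (g h : Cube n → ℝ) : ex (fun x => g x + h x) = ex g + ex h := by
  simp [ex, sum_add_distrib, add_div]

lemma ex_sub (g h : Cube n → ℝ) : ex (fun x => g x - h x) = ex g - ex h := by
  simp [ex, sum_sub_distrib, sub_div]

lemma ex_smul (c : ℝ) (g : Cube n → ℝ) : ex (fun x => c * g x) = c * ex g := by
  simp [ex, ← mul_sum, mul_div_assoc]

lemma ex_const (c : ℝ) : ex (fun _ : Cube n => c) = c := by
  simp [ex]

lemma ex_mono {g h : Cube n → ℝ} (H : ∀ x, g x ≤ h x) : ex g ≤ ex h := by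
  unfold ex
  have : (0 : ℝ) < 2 ^ n := by positivity
  gcongr with x
  exact H x

lemma ex_nonneg {g : Cube n → ℝ} (H : ∀ x, 0 ≤ g x) : 0 ≤ ex g := by
  unfold ex
  exact div_nonneg (sum_nonneg fun x _ => H x) (by positivity)

lemma ex_sum {ι : Type*} (s : Finset ι) (g : ι → Cube n → ℝ) :
    ex (fun x => ∑ i ∈ s, g i x) = ∑ i ∈ s, ex (g i) := by
  simp only [ex]
  rw [sum_comm, sum_div]

lemma ex_congr {g h : Cube n → ℝ} (H : ∀ x, g x = h x) : ex g = ex h := by
  congr 1
  exact funext H

lemma pe_add (φ g h : Cube n → ℝ) : pe φ (fun x => g x + h x) = pe φ g + pe φ h := by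
  unfold pe
  rw [← ex_add]
  exact ex_congr fun x => by ring

lemma pe_sub (φ g h : Cube n → ℝ) : pe φ (fun x => g x - h x) = pe φ g - pe φ h := by
  unfold pe
  rw [← ex_sub]
  exact ex_congr fun x => by ring

lemma pe_smul (φ : Cube n → ℝ) (c : ℝ) (g : Cube n → ℝ) :
    pe φ (fun x => c * g x) = c * pe φ g := by
  unfold pe
  rw [← ex_smul]
  exact ex_congr fun x => by ring

lemma pe_sum {ι : Type*} (φ : Cube n → ℝ) (s : Finset ι) (g : ι → Cube n → ℝ) :
    pe φ (fun x => ∑ i ∈ s, g i x) = ∑ i ∈ s, pe φ (g i) := by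
  unfold pe
  rw [← ex_sum]
  exact ex_congr fun x => by rw [mul_sum]

lemma pe_mono {ε : ℝ} {φ g h : Cube n → ℝ} (hφ : Dens ε φ) (H : ∀ x, g x ≤ h x) :
    pe φ g ≤ pe φ h :=
  ex_mono fun x => mul_le_mul_of_nonneg_left (H x) (hφ.nonneg x)

lemma pe_nonneg {ε : ℝ} {φ g : Cube n → ℝ} (hφ : Dens ε φ) (H : ∀ x, 0 ≤ g x) :
    0 ≤ pe φ g :=
  ex_nonneg fun x => mul_nonneg (hφ.nonneg x) (H x)

lemma pe_const {ε : ℝ} {φ : Cube n → ℝ} (hφ : Dens ε φ) (c : ℝ) :
    pe φ (fun _ => c) = c := by
  have : pe φ (fun _ => c) = c * ex φ := by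
    unfold pe
    rw [← ex_smul]
    exact ex_congr fun x => by ring
  rw [this, hφ.mean, mul_one]

lemma pe_one (g : Cube n → ℝ) : pe (fun _ => 1) g = ex g := by
  unfold pe
  exact ex_congr fun x => by ring

lemma ti_nonneg (T : PA n) (x : Cube n) : 0 ≤ ti T x := by
  unfold ti; split_ifs <;> norm_num

lemma ti_le_one (T : PA n) (x : Cube n) : ti T x ≤ 1 := by
  unfold ti; split_ifs <;> norm_num

lemma fi_nonneg (L : List (PA n)) (x : Cube n) : 0 ≤ fi L x := by
  unfold fi; split_ifs <;> norm_num

lemma fi_le_one (L : List (PA n)) (x : Cube n) : fi L x ≤ 1 := by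
  unfold fi; split_ifs <;> norm_num

lemma ti_sq (T : PA n) (x : Cube n) : ti T x * ti T x = ti T x := by
  unfold ti; split_ifs <;> norm_num

lemma zc_nil (x : Cube n) : zc ([] : List (PA n)) x = 0 := by simp [zc]

lemma zc_cons (T : PA n) (L : List (PA n)) (x : Cube n) : zc (T :: L) x = ti T x + zc L x := by
  simp [zc]

lemma zc_nonneg (L : List (PA n)) (x : Cube n) : 0 ≤ zc L x := by
  induction L with
  | nil => simp [zc_nil]
  | cons T L ih => rw [zc_cons]; have := ti_nonneg T x; linarith

lemma zc_le (L : List (PA n)) (x : Cube n) : zc L x ≤ L.length := by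
  induction L with
  | nil => simp [zc_nil]
  | cons T L ih => rw [zc_cons]; have := ti_le_one T x; push_cast [List.length_cons]; linarith

lemma fi_nil (x : Cube n) : fi ([] : List (PA n)) x = 0 := by simp [fi, Ev]

/-- the first-satisfied-term recursion -/
lemma fi_cons (T : PA n) (L : List (PA n)) (x : Cube n) :
    fi (T :: L) x = fi L x + ti T x * (1 - fi L x) := by
  unfold fi ti Ev
  by_cases h1 : Sat T x <;> by_cases h2 : ∃ T ∈ L, Sat T x <;> simp [h1, h2]

lemma fi_le_zc (L : List (PA n)) (x : Cube n) : fi L x ≤ zc L x := by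
  induction L with
  | nil => simp [fi_nil, zc_nil]
  | cons T L ih =>
    rw [fi_cons, zc_cons]
    have h1 := ti_nonneg T x
    have h2 := fi_nonneg L x
    nlinarith

lemma zc_eq_zero_of_fi (L : List (PA n)) (x : Cube n) (h : fi L x = 0) : zc L x = 0 := by
  induction L with
  | nil => simp [zc_nil]
  | cons T L ih =>
    rw [fi_cons] at h
    have h1 := ti_nonneg T x
    have h2 := fi_nonneg L x
    have h3 := fi_le_one L x
    have h4 : 0 ≤ ti T x * (1 - fi L x) := mul_nonneg h1 (by linarith)
    have h5 : fi L x = 0 := by linarith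
    rw [h5] at h
    rw [zc_cons, ih h5]
    linarith

lemma pw_pos (T : PA n) : 0 < pw T := by unfold pw; positivity

lemma pw_le_one (T : PA n) : pw T ≤ 1 := by
  unfold pw
  exact pow_le_one₀ (by norm_num) (by norm_num)

lemma mem_dom (T : PA n) (i : Fin n) : i ∈ dom T ↔ T i ≠ none := by simp [dom]

lemma ow_ow (T : PA n) (x : Cube n) : ow T (ow T x) = ow T x := by
  funext i
  unfold ow
  cases h : T i <;> simp [h]

lemma sat_ow (T : PA n) (x : Cube n) : Sat T (ow T x) := by
  intro i b h
  simp [ow, h]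

lemma ow_eq_of_sat {T : PA n} {x : Cube n} (h : Sat T x) : ow T x = x := by
  funext i
  unfold ow
  cases h1 : T i with
  | none => rfl
  | some b => simp [h i b h1]

end Pool.Agent.Work.MP_56168e_lc
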