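import Mathlib
import Pool.Agent.Work.MP_56168e_lc.Defs

set_option autoImplicit false

/-!
# Families of terms, leaders (FIXED definitions)

`T : Fin s → PA n` a family of terms, `A : Finset (Fin s)`.
`Dp T i j` : the terms i ≠ j share a variable.  `nb T A i` : the j in A dependent on i.
`nz T A x` = 1 if no term in A is satisfied, else 0.
`lead T A i x` = 1 if term i is satisfied and no dependent term j < i of A is satisfied.
`cnt T A x` = number of leaders.   `clo T A i j` : i and j are close.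
`DF m η ε` : every density of bias ≤ ε fools every DNF with at most m terms with error ≤ η.
-/

namespace Pool.Agent.Work.MP_56168e_lc

open Finset

variable {n s : ℕ}

def Dp (T : Fin s → PA n) (i j : Fin s) : Prop := i ≠ j ∧ ¬ Disjoint (dom (T i)) (dom (T j))

open Classical in
noncomputable def nb (T : Fin s → PA n) (A : Finset (Fin s)) (i : Fin s) : Finset (Fin s) :=
  A.filter (fun j => Dp T i j)

open Classical in
noncomputable def nz (T : Fin s → PA n) (A : Finset (Fin s)) (x : Cube n) : ℝ :=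
  if ∃ i ∈ A, Sat (T i) x then 0 else 1

/-- `i` is satisfied and no dependent `j < i` in `A` is satisfied -/
def Lead (T : Fin s → PA n) (A : Finset (Fin s)) (i : Fin s) (x : Cube n) : Prop :=
  Sat (T i) x ∧ ∀ j ∈ A, j < i → Dp T i j → ¬ Sat (T j) x

open Classical in
noncomputable def lead (T : Fin s → PA n) (A : Finset (Fin s)) (i : Fin s) (x : Cube n) : ℝ :=
  if Lead T A i x then 1 else 0

open Classical in
noncomputable def cnt (T : Fin s → PA n) (A : Finset (Fin s)) (x : Cube n) : ℕ :=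
  (A.filter (fun i => Lead T A i x)).card

/-- expected number of leaders -/
noncomputable def nu (T : Fin s → PA n) (A : Finset (Fin s)) : ℝ := ∑ i ∈ A, ex (lead T A i)

def clo (T : Fin s → PA n) (A : Finset (Fin s)) (i j : Fin s) : Prop :=
  ∃ a ∈ A, ∃ b ∈ A, (a = i ∨ Dp T i a) ∧ (b = j ∨ Dp T j b) ∧ (a = b ∨ Dp T a b)

open Classical in
noncomputable def clos (T : Fin s → PA n) (A : Finset (Fin s)) (i : Fin s) : Finset (Fin s) :=
  A.filter (fun j => clo T A i j)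

/-- the variables on which the leader event of `i` depends -/
noncomputable def UU (T : Fin s → PA n) (A : Finset (Fin s)) (i : Fin s) : Finset (Fin n) :=
  dom (T i) ∪ (nb T A i).biUnion (fun j => dom (T j))

open Classical in
/-- the terms of `A` sharing with `i` a variable outside `H` -/
noncomputable def nbH (T : Fin s → PA n) (H : Finset (Fin n)) (A : Finset (Fin s)) (i : Fin s) :
    Finset (Fin s) :=
  A.filter (fun j => i ≠ j ∧ ¬ Disjoint (dom (T i) \ H) (dom (T j) \ H))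

def DF (m : ℕ) (η ε : ℝ) : Prop :=
  ∀ (n : ℕ) (L : List (PA n)) (φ : Cube n → ℝ), L.length ≤ m → Dens ε φ →
    |pe φ (fi L) - ex (fi L)| ≤ η

/-- the parameters of the low dependency theorem for widths ≤ W -/
def Par (s D W : ℕ) (δ ε : ℝ) : Prop :=
  ∃ (R Lw m0 : ℕ) (ν0 μ0 q η1 ε1 : ℝ), 1 ≤ R ∧ 0 ≤ ν0 ∧ Real.exp (-ν0) ≤ δ / 16 ∧
    (ν0 + 1) ^ R / R.factorial ≤ δ / 64 ∧ 1 ≤ μ0 ∧ 16 * (D + 1) / δ ≤ μ0 ∧
    (1 / 2) ^ Lw ≤ q ∧ (R + 1) * ((D + 1) ^ 3 * q * μ0 ^ R) ≤ δ / 64 ∧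
    16 * 2 ^ Lw / δ ≤ m0 ∧ DF (m0 * (D + 1) + R * D) η1 ε1 ∧ 0 ≤ η1 ∧ ε1 ≤ 1 ∧
    (R + 1) * (η1 * μ0 ^ R) ≤ δ / 64 ∧ (R + 1) * ((s : ℝ) ^ R * ε) ≤ δ / 64 ∧
    2 * ε * 2 ^ (R * W) ≤ ε1 ∧ 4 * ε * (s : ℝ) ^ 2 ≤ δ / 16 ∧ 4 * ε * (m0 : ℝ) ^ 2 ≤ δ / 16

lemma Dens.mono {ε ε' : ℝ} {φ : Cube n → ℝ} (h : Dens ε φ) (hε : ε ≤ ε') : Dens ε' φ :=
  ⟨h.nonneg, h.mean, fun S hS => (h.bias S hS).trans hε⟩

lemma DF.mono {m m' : ℕ} {η ε : ℝ} (h : DF m η ε) (hm : m' ≤ m) : DF m' η ε :=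
  fun n L φ hL hφ => h n L φ (hL.trans hm) hφ

lemma Dp_symm {T : Fin s → PA n} {i j : Fin s} (h : Dp T i j) : Dp T j i :=
  ⟨h.1.symm, fun h' => h.2 h'.symm⟩

lemma nz_nonneg (T : Fin s → PA n) (A : Finset (Fin s)) (x : Cube n) : 0 ≤ nz T A x := by
  unfold nz; split_ifs <;> norm_num

lemma nz_le_one (T : Fin s → PA n) (A : Finset (Fin s)) (x : Cube n) : nz T A x ≤ 1 := by
  unfold nz; split_ifs <;> norm_num

lemma lead_nonneg (T : Fin s → PA n) (A : Finset (Fin s)) (i : Fin s) (x : Cube n) :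
    0 ≤ lead T A i x := by
  unfold lead; split_ifs <;> norm_num

lemma lead_le_one (T : Fin s → PA n) (A : Finset (Fin s)) (i : Fin s) (x : Cube n) :
    lead T A i x ≤ 1 := by
  unfold lead; split_ifs <;> norm_num

lemma lead_le_ti (T : Fin s → PA n) (A : Finset (Fin s)) (i : Fin s) (x : Cube n) :
    lead T A i x ≤ ti (T i) x := by
  unfold lead ti Lead
  by_cases h : Sat (T i) x
  · simp only [h, true_and, if_true]
    split_ifs <;> norm_num
  · simp [h]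

lemma nz_anti {T : Fin s → PA n} {A B : Finset (Fin s)} (h : A ⊆ B) (x : Cube n) :
    nz T B x ≤ nz T A x := by
  unfold nz
  by_cases h1 : ∃ i ∈ A, Sat (T i) x
  · obtain ⟨i, hi, hs⟩ := h1
    have h2 : ∃ i ∈ B, Sat (T i) x := ⟨i, h hi, hs⟩
    have h3 : ∃ i ∈ A, Sat (T i) x := ⟨i, hi, hs⟩
    simp [h2, h3]
  · simp only [h1, if_false]
    split_ifs <;> norm_num

lemma nz_union (T : Fin s → PA n) (A B : Finset (Fin s)) (x : Cube n) :
    nz T (A ∪ B) x = nz T A x * nz T B x := by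
  unfold nz
  by_cases h1 : ∃ i ∈ A, Sat (T i) x
  · obtain ⟨i, hi, hs⟩ := h1
    have h2 : ∃ i ∈ A ∪ B, Sat (T i) x := ⟨i, mem_union_left _ hi, hs⟩
    have h3 : ∃ i ∈ A, Sat (T i) x := ⟨i, hi, hs⟩
    rw [if_pos h2, if_pos h3, zero_mul]
  · by_cases h2 : ∃ i ∈ B, Sat (T i) x
    · obtain ⟨i, hi, hs⟩ := h2
      have h3 : ∃ i ∈ A ∪ B, Sat (T i) x := ⟨i, mem_union_right _ hi, hs⟩
      have h4 : ∃ i ∈ B, Sat (T i) x := ⟨i, hi, hs⟩
      rw [if_pos h3, if_pos h4, mul_zero]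
    · have h3 : ¬ ∃ i ∈ A ∪ B, Sat (T i) x := by
        rintro ⟨i, hi, hs⟩
        rcases mem_union.mp hi with hi | hi
        · exact h1 ⟨i, hi, hs⟩
        · exact h2 ⟨i, hi, hs⟩
      rw [if_neg h1, if_neg h2, if_neg h3, one_mul]

end Pool.Agent.Work.MP_56168e_lc
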