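import Mathlib
import Pool.Agent.Work.MP_56168e_lc.Defs

set_option autoImplicit false

/-!
Restricting a DNF.  `rl ρ L` = the terms of L not contradicting ρ, with the variables of ρ removed.
Everything is a direct check from the definitions (Sat, ow, rt, Fal, rl, dom).
-/

namespace Pool.Agent.Work.MP_56168e_lc

open Finset

variable {n : ℕ}

lemma sat_ow_iff (ρ T : PA n) (x : Cube n) : Sat T (ow ρ x) ↔ (¬ Fal T ρ ∧ Sat (rt ρ T) x) := by
  unfold Sat ow rt Fal
  constructor
  · intro h
    refine ⟨?_, ?_⟩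
    · rintro ⟨i, b, b', h1, h2, h3⟩
      have := h i b h1
      rw [h2] at this
      exact h3 this.symm
    · intro i b hb
      by_cases hi : ρ i = none
      · rw [if_pos hi] at hb
        have := h i b hb
        rw [hi] at this
        exact this
      · rw [if_neg hi] at hb
        exact absurd hb (by simp)
  · rintro ⟨h1, h2⟩ i b hb
    cases hi : ρ i with
    | none =>
      have := h2 i b (by rw [if_pos hi]; exact hb)
      simpa using this
    | some c =>
      by_contra hc
      refine h1 ⟨i, b, c, hb, hi, fun hbc => hc ?_⟩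
      simp [hbc]

lemma fi_rl (ρ : PA n) (L : List (PA n)) (x : Cube n) : fi (rl ρ L) x = fi L (ow ρ x) := by
  classical
  have key : Ev (rl ρ L) x ↔ Ev L (ow ρ x) := by
    unfold Ev rl
    constructor
    · rintro ⟨S, hS, h⟩
      rw [List.mem_map] at hS
      obtain ⟨T, hT, rfl⟩ := hS
      rw [List.mem_filter] at hT
      exact ⟨T, hT.1, (sat_ow_iff ρ T x).mpr ⟨by simpa using hT.2, h⟩⟩
    · rintro ⟨T, hT, h⟩
      rw [sat_ow_iff] at h
      exact ⟨rt ρ T, List.mem_map.mpr ⟨T, List.mem_filter.mpr ⟨hT, by simpa using h.1⟩, rfl⟩, h.2⟩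
  unfold fi
  by_cases h : Ev L (ow ρ x)
  · rw [if_pos h, if_pos (key.mpr h)]
  · rw [if_neg h, if_neg fun h' => h (key.mp h')]

lemma zc_rl (ρ : PA n) (L : List (PA n)) (x : Cube n) : zc (rl ρ L) x = zc L (ow ρ x) := by
  classical
  induction L with
  | nil => simp [rl, zc]
  | cons T L ih =>
    rw [zc_cons]
    by_cases hF : Fal T ρ
    · have e1 : rl ρ (T :: L) = rl ρ L := by
        unfold rl
        rw [List.filter_cons_of_neg (by simpa using hF)]
      have e2 : ti T (ow ρ x) = 0 := by
        unfold ti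
        rw [if_neg fun h => ((sat_ow_iff ρ T x).mp h).1 hF]
      rw [e1, ih, e2, zero_add]
    · have e1 : rl ρ (T :: L) = rt ρ T :: rl ρ L := by
        unfold rl
        rw [List.filter_cons_of_pos (by simpa using hF), List.map_cons]
      have e2 : ti T (ow ρ x) = ti (rt ρ T) x := by
        unfold ti
        by_cases h : Sat T (ow ρ x)
        · rw [if_pos h, if_pos ((sat_ow_iff ρ T x).mp h).2]
        · rw [if_neg h, if_neg fun h' => h ((sat_ow_iff ρ T x).mpr ⟨hF, h'⟩)]
      rw [e1, zc_cons, ih, e2]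

lemma rl_length (ρ : PA n) (L : List (PA n)) : (rl ρ L).length ≤ L.length := by
  classical
  unfold rl
  rw [List.length_map]
  exact List.length_filter_le _ _

lemma dom_rt (ρ T : PA n) : dom (rt ρ T) = dom T \ dom ρ := by
  ext i
  rw [mem_sdiff, mem_dom, mem_dom, mem_dom]
  unfold rt
  by_cases h : ρ i = none
  · simp [h]
  · simp [h]

lemma rl_width (ρ : PA n) (L : List (PA n)) {w : ℕ} (h : ∀ T ∈ L, (dom T).card ≤ w) :
    ∀ T ∈ rl ρ L, (dom T).card ≤ w := by
  classical
  intro S hS
  unfold rl at hS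
  rw [List.mem_map] at hS
  obtain ⟨T, hT, rfl⟩ := hS
  rw [dom_rt]
  exact (card_le_card sdiff_subset).trans (h T (List.mem_filter.mp hT).1)

lemma ti_mul_fi (T : PA n) (L : List (PA n)) (x : Cube n) :
    ti T x * fi L x = ti T x * fi (rl T L) x := by
  by_cases h : Sat T x
  · rw [fi_rl, ow_eq_of_sat h]
  · have : ti T x = 0 := by
      unfold ti
      rw [if_neg h]
    rw [this, zero_mul, zero_mul]

private lemma ow_congr (ρ : PA n) {x y : Cube n} (h : ∀ i, i ∉ dom ρ → x i = y i) :
    ow ρ x = ow ρ y := by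
  funext i
  unfold ow
  cases hi : ρ i with
  | none =>
    have : i ∉ dom ρ := by
      rw [mem_dom, hi]
      simp
    simpa using h i this
  | some b => simp

/-- the restricted DNF does not depend on the restricted variables -/
lemma indep_fi_rl (ρ : PA n) (L : List (PA n)) : Indep (dom ρ) (fi (rl ρ L)) := by
  intro x y h
  rw [fi_rl, fi_rl, ow_congr ρ h]

lemma indep_res (ρ : PA n) (g : Cube n → ℝ) : Indep (dom ρ) (res ρ g) := by
  intro x y h
  unfold res
  rw [ow_congr ρ h]

end Pool.Agent.Work.MP_56168e_lc
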