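import Mathlib
import Pool.Agent.Work.MP_56168e_lc.Defs

set_option autoImplicit false

/-!
# The canonical decision process of a DNF under a restriction (FIXED definitions)

`fnf L ρ` = first term of L that is not falsified by ρ.  `fr T ρ` = variables of T left free by ρ.
`blk L ρ` = variables asked in the next block (empty = the process has ended).
`ask ρ V y` = ρ with the variables of V answered by y.   `run L y k ρ` = state after k blocks.
`qn L y k ρ` = number of variables asked in the first k blocks.
`Alive L y k ρ` = the first k blocks are nonempty.  `lv L m ρ` = mean over y of 2^(qn L y m ρ)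
(for m ≥ number of free variables this is the number of leaves of the canonical decision tree).
`Ek L p k` = weighted sum over all ρ of the mean of 2^qn over the runs with k nonempty blocks.
-/

namespace Pool.Agent.Work.MP_56168e_lc

open Finset

variable {n : ℕ}

open Classical in
noncomputable def fnf (L : List (PA n)) (ρ : PA n) : Option (PA n) :=
  L.find? (fun T => decide (¬ Fal T ρ))

def fr (T ρ : PA n) : Finset (Fin n) := univ.filter (fun i => T i ≠ none ∧ ρ i = none)

noncomputable def blk (L : List (PA n)) (ρ : PA n) : Finset (Fin n) :=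
  match fnf L ρ with
  | none => ∅
  | some T => fr T ρ

def ask (ρ : PA n) (V : Finset (Fin n)) (y : Cube n) : PA n :=
  fun i => if i ∈ V then some (y i) else ρ i

noncomputable def st (L : List (PA n)) (y : Cube n) (ρ : PA n) : PA n := ask ρ (blk L ρ) y

noncomputable def run (L : List (PA n)) (y : Cube n) (k : ℕ) (ρ : PA n) : PA n :=
  (st L y)^[k] ρ

noncomputable def qn (L : List (PA n)) (y : Cube n) (k : ℕ) (ρ : PA n) : ℕ :=
  ∑ j ∈ range k, (blk L (run L y j ρ)).card

def Alive (L : List (PA n)) (y : Cube n) (k : ℕ) (ρ : PA n) : Prop :=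
  ∀ j < k, (blk L (run L y j ρ)).Nonempty

noncomputable def lv (L : List (PA n)) (m : ℕ) (ρ : PA n) : ℝ :=
  ex (fun y => (2 : ℝ) ^ (qn L y m ρ))

open Classical in
noncomputable def Ek (L : List (PA n)) (p : ℝ) (k : ℕ) : ℝ :=
  ∑ ρ : PA n, wt p ρ * ex (fun y => if Alive L y k ρ then (2 : ℝ) ^ (qn L y k ρ) else 0)

lemma fnf_none {L : List (PA n)} {ρ : PA n} (h : fnf L ρ = none) : ∀ T ∈ L, Fal T ρ := by
  intro T hT
  have := List.find?_eq_none.mp h T hT
  simpa using this

lemma fnf_some {L : List (PA n)} {ρ T : PA n} (h : fnf L ρ = some T) : T ∈ L ∧ ¬ Fal T ρ := by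
  refine ⟨List.mem_of_find?_eq_some h, ?_⟩
  have := List.find?_some h
  simpa using this

/-- if every term before the first non-falsified term stays falsified and that term stays
non-falsified then the first non-falsified term does not change -/
lemma fnf_mono {L : List (PA n)} {ρ ρ' T : PA n} (h : fnf L ρ = some T)
    (h1 : ∀ T', Fal T' ρ → Fal T' ρ') (h2 : ¬ Fal T ρ') : fnf L ρ' = some T := by
  classical
  unfold fnf at *
  induction L with
  | nil => simp at h
  | cons T0 L ih =>
    by_cases h3 : Fal T0 ρ
    · have h4 := h1 _ h3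
      rw [List.find?_cons_of_neg (by simpa using h3)] at h
      rw [List.find?_cons_of_neg (by simpa using h4)]
      exact ih h
    · rw [List.find?_cons_of_pos (by simpa using h3)] at h
      obtain rfl : T0 = T := by simpa using h
      rw [List.find?_cons_of_pos (by simpa using h2)]

lemma run_zero (L : List (PA n)) (y : Cube n) (ρ : PA n) : run L y 0 ρ = ρ := rfl

lemma run_succ (L : List (PA n)) (y : Cube n) (k : ℕ) (ρ : PA n) :
    run L y (k + 1) ρ = st L y (run L y k ρ) := by
  unfold run
  rw [Function.iterate_succ_apply']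

lemma run_succ' (L : List (PA n)) (y : Cube n) (k : ℕ) (ρ : PA n) :
    run L y (k + 1) ρ = run L y k (st L y ρ) := by
  unfold run
  rw [Function.iterate_succ_apply]

lemma qn_succ (L : List (PA n)) (y : Cube n) (k : ℕ) (ρ : PA n) :
    qn L y (k + 1) ρ = qn L y k ρ + (blk L (run L y k ρ)).card := by
  unfold qn
  rw [sum_range_succ]

lemma qn_succ' (L : List (PA n)) (y : Cube n) (k : ℕ) (ρ : PA n) :
    qn L y (k + 1) ρ = (blk L ρ).card + qn L y k (st L y ρ) := by
  unfold qn
  rw [sum_range_succ', add_comm]
  simp only [run_succ', run_zero]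

lemma blk_free (L : List (PA n)) (ρ : PA n) {i : Fin n} (h : i ∈ blk L ρ) : ρ i = none := by
  unfold blk at h
  split at h
  · simp at h
  · simp only [fr, mem_filter] at h
    exact h.2.2

end Pool.Agent.Work.MP_56168e_lc
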