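import Mathlib
import Pool.Agent.Work.MP_56168e_lc.Proc

set_option autoImplicit false

/-!
The key combinatorial step of the switching lemma.  `fill ρ V T` = ρ with the variables of V set
to the values of T.  Let the first k + 1 blocks of the run of (ρ, y) be nonempty, T the first
non-falsified term of the state after k blocks, V = its free variables (the (k+1)-st block).  Then
the run of the filled restriction ρ' = fill ρ V T has the same first k blocks, its states are the
filled states, and T is the first non-falsified term after k blocks.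
PROOF.  Induction on j ≤ k: run L y j ρ' = fill (run L y j ρ) V T.  The variables of V are free in
run L y k ρ, hence free in all earlier states and not in the earlier blocks.  At stage j < k let
T_j be the first non-falsified term of ρ_j = run L y j ρ, V_j = fr T_j ρ_j.  All variables of T_j
are in V_j or fixed by ρ_j, so T_j does not contain a variable of V; therefore T_j is not falsified
by the filled state and has the same free variables; earlier terms stay falsified (more variables
are fixed): use fnf_mono.  At stage k: T is not falsified by ρ_k and agrees with the filled values.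
-/

namespace Pool.Agent.Work.MP_56168e_lc

open Finset

variable {n : ℕ}

def fill (ρ : PA n) (V : Finset (Fin n)) (T : PA n) : PA n := fun i => if i ∈ V then T i else ρ i

private lemma Fill_mem {T ρ : PA n} {i : Fin n} : i ∈ fr T ρ ↔ T i ≠ none ∧ ρ i = none := by
  simp only [fr, mem_filter, mem_univ, true_and]

private lemma Fill_in {ρ T : PA n} {V : Finset (Fin n)} {i : Fin n} (h : i ∈ V) :
    fill ρ V T i = T i := if_pos h

private lemma Fill_out {ρ T : PA n} {V : Finset (Fin n)} {i : Fin n} (h : i ∉ V) :
    fill ρ V T i = ρ i := if_neg h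

private lemma Fill_succ_none (L : List (PA n)) (y : Cube n) (k : ℕ) (ρ : PA n) {i : Fin n}
    (hi : run L y (k + 1) ρ i = none) :
    run L y k ρ i = none ∧ i ∉ blk L (run L y k ρ) := by
  rw [run_succ] at hi
  unfold st ask at hi
  by_cases h : i ∈ blk L (run L y k ρ)
  · simp [h] at hi
  · rw [if_neg h] at hi
    exact ⟨hi, h⟩

/-- the blocks are free in all earlier states -/
lemma run_free_of_le (L : List (PA n)) (y : Cube n) (ρ : PA n) {j k : ℕ} (hjk : j ≤ k)
    {i : Fin n} (hi : run L y k ρ i = none) : run L y j ρ i = none := by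
  induction k, hjk using Nat.le_induction with
  | base => exact hi
  | succ k _ ih => exact ih (Fill_succ_none L y k ρ hi).1

private lemma Fill_some (L : List (PA n)) (y : Cube n) (ρ : PA n) {j k : ℕ} (hjk : j ≤ k)
    {i : Fin n} {b : Bool} (hi : run L y j ρ i = some b) : run L y k ρ i = some b := by
  induction k, hjk using Nat.le_induction with
  | base => exact hi
  | succ k _ ih =>
    rw [run_succ]
    unfold st ask
    have h1 : i ∉ blk L (run L y k ρ) := fun h' => by
      have h2 := blk_free L _ h'
      rw [ih] at h2
      cases h2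
    rw [if_neg h1]
    exact ih

/-- falsified terms stay falsified when free variables are filled -/
private lemma Fill_fal {ρ T T' : PA n} {V : Finset (Fin n)} (hV : ∀ i ∈ V, ρ i = none)
    (h : Fal T' ρ) : Fal T' (fill ρ V T) := by
  obtain ⟨i, b, b', h1, h2, h3⟩ := h
  refine ⟨i, b, b', h1, ?_, h3⟩
  unfold fill
  rw [if_neg]
  · exact h2
  · intro hi
    rw [hV i hi] at h2
    cases h2

private lemma Fill_blk (L : List (PA n)) (y : Cube n) (ρ T : PA n) (k : ℕ)
    (hT : fnf L (run L y k ρ) = some T) (j : ℕ) (hj : j < k) :
    blk L (fill (run L y j ρ) (fr T (run L y k ρ)) T) = blk L (run L y j ρ) := by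
  have hVk : ∀ i ∈ fr T (run L y k ρ), run L y k ρ i = none := by
    intro i hi
    simp only [fr, mem_filter] at hi
    exact hi.2.2
  have hVj : ∀ i ∈ fr T (run L y k ρ), run L y j ρ i = none := fun i hi =>
    run_free_of_le L y ρ hj.le (hVk i hi)
  cases hf : fnf L (run L y j ρ) with
  | none =>
    exfalso
    obtain ⟨i, b, b', h1, h2, h3⟩ := fnf_none hf T (fnf_some hT).1
    exact (fnf_some hT).2 ⟨i, b, b', h1, Fill_some L y ρ hj.le h2, h3⟩
  | some T₁ =>
    have hblk : blk L (run L y j ρ) = fr T₁ (run L y j ρ) := by
      unfold blk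
      rw [hf]
    -- the term `T₁` contains no variable of `V`
    have hno : ∀ i ∈ fr T (run L y k ρ), T₁ i = none := by
      intro i hi
      by_contra hne
      have h1 : i ∈ blk L (run L y j ρ) := by
        rw [hblk]
        simp only [fr, mem_filter, mem_univ, true_and]
        exact ⟨hne, hVj i hi⟩
      have h2 : run L y (j + 1) ρ i = none := run_free_of_le L y ρ hj (hVk i hi)
      exact (Fill_succ_none L y j ρ h2).2 h1
    have hfn : fnf L (fill (run L y j ρ) (fr T (run L y k ρ)) T) = some T₁ := by
      refine fnf_mono hf (fun T' h => Fill_fal hVj h) ?_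
      rintro ⟨i, b, b', h1, h2, h3⟩
      have hi : i ∉ fr T (run L y k ρ) := fun h => by
        rw [hno i h] at h1
        cases h1
      unfold fill at h2
      rw [if_neg hi] at h2
      exact (fnf_some hf).2 ⟨i, b, b', h1, h2, h3⟩
    unfold blk
    rw [hf, hfn]
    show fr T₁ (fill (run L y j ρ) (fr T (run L y k ρ)) T) = fr T₁ (run L y j ρ)
    ext i
    rw [Fill_mem, Fill_mem]
    constructor
    · rintro ⟨h1, h2⟩
      rw [Fill_out fun h => h1 (hno i h)] at h2
      exact ⟨h1, h2⟩
    · rintro ⟨h1, h2⟩
      rw [Fill_out fun h => h1 (hno i h)]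
      exact ⟨h1, h2⟩

theorem run_fill (L : List (PA n)) (y : Cube n) (ρ T : PA n) (k : ℕ)
    (hT : fnf L (run L y k ρ) = some T) :
    ∀ j ≤ k, run L y j (fill ρ (fr T (run L y k ρ)) T)
      = fill (run L y j ρ) (fr T (run L y k ρ)) T := by
  intro j
  induction j with
  | zero => intro _; rfl
  | succ j ih =>
    intro hj
    have h1 := ih (by omega)
    rw [run_succ, run_succ, h1]
    unfold st
    rw [Fill_blk L y ρ T k hT j (by omega)]
    funext i
    by_cases hi : i ∈ blk L (run L y j ρ)
    · have hi' : i ∉ fr T (run L y k ρ) := by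
        intro h
        have h2 : run L y (j + 1) ρ i = none := run_free_of_le L y ρ hj (Fill_mem.1 h).2
        exact (Fill_succ_none L y j ρ h2).2 hi
      rw [Fill_out hi']
      unfold ask
      rw [if_pos hi, if_pos hi]
    · unfold ask
      rw [if_neg hi]
      by_cases hi' : i ∈ fr T (run L y k ρ)
      · rw [Fill_in hi', Fill_in hi']
      · rw [Fill_out hi', Fill_out hi', if_neg hi]

theorem blk_fill (L : List (PA n)) (y : Cube n) (ρ T : PA n) (k : ℕ)
    (hT : fnf L (run L y k ρ) = some T) :
    ∀ j < k, blk L (run L y j (fill ρ (fr T (run L y k ρ)) T)) = blk L (run L y j ρ) := by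
  intro j hj
  rw [run_fill L y ρ T k hT j hj.le, Fill_blk L y ρ T k hT j hj]

theorem fnf_fill (L : List (PA n)) (y : Cube n) (ρ T : PA n) (k : ℕ)
    (hT : fnf L (run L y k ρ) = some T) :
    fnf L (run L y k (fill ρ (fr T (run L y k ρ)) T)) = some T := by
  rw [run_fill L y ρ T k hT k le_rfl]
  have hVk : ∀ i ∈ fr T (run L y k ρ), run L y k ρ i = none := by
    intro i hi
    simp only [fr, mem_filter] at hi
    exact hi.2.2
  refine fnf_mono hT (fun T' h => Fill_fal hVk h) ?_
  rintro ⟨i, b, b', h1, h2, h3⟩
  unfold fill at h2
  by_cases hi : i ∈ fr T (run L y k ρ)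
  · rw [if_pos hi, h1] at h2
    exact h3 (Option.some.inj h2)
  · rw [if_neg hi] at h2
    exact (fnf_some hT).2 ⟨i, b, b', h1, h2, h3⟩

end Pool.Agent.Work.MP_56168e_lc
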