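import Mathlib
import Pool.Agent.Work.MP_56168e_lc.Defs

set_option autoImplicit false

/-!
Fourier analysis on the cube.  PROOFS.  chi_mul: product over i, (±1)^2 = 1 on the intersection
(e.g. write chi S x = prod over all i of (if i ∈ S then e_i else 1)).  ex_chi: if i ∈ S then the
involution flipping coordinate i changes the sign of chi S.  inversion: sum_S chi S x * chi S y =
prod_i (1 + e_i(x) e_i(y)) = 2^n if x = y else 0 (`Finset.prod_one_add` / `Finset.prod_add`);
insert the definition of fc and exchange the sums.  parseval: insert inversion for g.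
-/

namespace Pool.Agent.Work.MP_56168e_lc

open Finset

variable {n : ℕ}

/-- sum over the cube of a product -/
lemma sum_prod_cube {β : Type*} [Fintype β] [DecidableEq β] (f : Fin n → β → ℝ) :
    ∑ x : Fin n → β, ∏ i, f i (x i) = ∏ i, ∑ b, f i b := by
  rw [Finset.prod_univ_sum, Fintype.piFinset_univ]

lemma abs_chi (S : Finset (Fin n)) (x : Cube n) : |chi S x| = 1 := by
  unfold chi
  rw [Finset.abs_prod]
  apply Finset.prod_eq_one
  intro i _
  split_ifs <;> simp

lemma chi_mul_self (S : Finset (Fin n)) (x : Cube n) : chi S x * chi S x = 1 := by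
  unfold chi
  rw [← Finset.prod_mul_distrib]
  apply Finset.prod_eq_one
  intro i _
  split_ifs <;> norm_num

/-- the character as a product over all coordinates -/
lemma chi_eq_univ (S : Finset (Fin n)) (x : Cube n) :
    chi S x = ∏ i, (if i ∈ S then (if x i = true then (-1 : ℝ) else 1) else 1) := by
  unfold chi
  rw [Finset.prod_ite_mem, Finset.univ_inter]

lemma chi_mul (S S' : Finset (Fin n)) (x : Cube n) :
    chi S x * chi S' x = chi (symmDiff S S') x := by
  rw [chi_eq_univ, chi_eq_univ, chi_eq_univ, ← Finset.prod_mul_distrib]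
  apply Finset.prod_congr rfl
  intro i _
  by_cases h1 : i ∈ S <;> by_cases h2 : i ∈ S' <;> simp only [h1, h2, Finset.mem_symmDiff,
    if_true, if_false, not_true, not_false_iff, and_true, and_false, or_false, false_or,
    mul_one, one_mul, or_self]
  split_ifs <;> norm_num

lemma ex_chi (S : Finset (Fin n)) : ex (chi S) = if S = ∅ then 1 else 0 := by
  have h1 : ∑ x : Cube n, chi S x
      = ∏ i, ∑ b : Bool, (if i ∈ S then (if b = true then (-1 : ℝ) else 1) else 1) := by
    rw [← sum_prod_cube]
    exact Finset.sum_congr rfl fun x _ => chi_eq_univ S x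
  unfold ex
  rw [h1]
  split_ifs with h
  · subst h
    simp
  · obtain ⟨i, hi⟩ := Finset.nonempty_iff_ne_empty.mpr h
    rw [Finset.prod_eq_zero (Finset.mem_univ i), zero_div]
    simp [hi]

lemma fc_chi (S S' : Finset (Fin n)) : fc (chi S) S' = if S = S' then 1 else 0 := by
  unfold fc
  rw [ex_congr (chi_mul S S'), ex_chi]
  simp only [← Finset.bot_eq_empty, symmDiff_eq_bot]

lemma fc_empty (g : Cube n → ℝ) : fc g ∅ = ex g := by
  unfold fc
  exact ex_congr fun x => by simp [chi]

private lemma chi_kernel (x y : Cube n) :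
    ∑ S : Finset (Fin n), chi S y * chi S x = if y = x then (2 : ℝ) ^ n else 0 := by
  have h1 : ∑ S : Finset (Fin n), chi S y * chi S x
      = ∏ i : Fin n, (1 + (if y i = true then (-1 : ℝ) else 1) * (if x i = true then (-1) else 1)) := by
    rw [Finset.prod_one_add, Finset.powerset_univ]
    refine Finset.sum_congr rfl fun S _ => ?_
    unfold chi
    rw [← Finset.prod_mul_distrib]
  rw [h1]
  split_ifs with h
  · subst h
    have : ∀ i : Fin n, (1 + (if y i = true then (-1 : ℝ) else 1) *
        (if y i = true then (-1) else 1)) = 2 := by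
      intro i
      split_ifs <;> norm_num
    rw [Finset.prod_congr rfl fun i _ => this i]
    simp
  · obtain ⟨i, hi⟩ := Function.ne_iff.mp h
    apply Finset.prod_eq_zero (Finset.mem_univ i)
    cases hy : y i <;> cases hx : x i <;> simp_all

theorem inversion (g : Cube n → ℝ) (x : Cube n) : g x = ∑ S, fc g S * chi S x := by
  have h1 : ∀ S : Finset (Fin n), fc g S * chi S x
      = ∑ y, (g y * (chi S y * chi S x)) / 2 ^ n := by
    intro S
    unfold fc ex
    rw [div_mul_eq_mul_div, Finset.sum_mul, Finset.sum_div]
    refine Finset.sum_congr rfl fun y _ => ?_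
    ring
  rw [Finset.sum_congr rfl fun S _ => h1 S, Finset.sum_comm]
  have h2 : ∀ y : Cube n, ∑ S : Finset (Fin n), (g y * (chi S y * chi S x)) / 2 ^ n
      = if y = x then g y else 0 := by
    intro y
    rw [← Finset.sum_div, ← Finset.mul_sum, chi_kernel]
    split_ifs with h
    · field_simp
    · simp
  rw [Finset.sum_congr rfl fun y _ => h2 y]
  simp

theorem parseval (g h : Cube n → ℝ) : ex (fun x => g x * h x) = ∑ S, fc g S * fc h S := by
  have h1 : ex (fun x => g x * h x) = ex (fun x => ∑ S, fc g S * (h x * chi S x)) := by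
    refine ex_congr fun x => ?_
    conv_lhs => rw [inversion g x]
    rw [Finset.sum_mul]
    refine Finset.sum_congr rfl fun S _ => ?_
    ring
  rw [h1, ex_sum]
  refine Finset.sum_congr rfl fun S _ => ?_
  rw [ex_smul]
  rfl

end Pool.Agent.Work.MP_56168e_lc
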