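import Mathlib
import Pool.Agent.Work.MP_56168e_lc.Four

set_option autoImplicit false

/-!
Mean Fourier coefficient of a random restriction.  sum_wt: product of sums over Option Bool
(`Finset.prod_univ_sum`), p + 2 (1-p)/2 = 1.  sum_fc_res: exchange the sums over ρ and Q in
fc (res ρ g) S = ∑_Q fc g Q ex (chi Q (ow ρ x) chi S x) and see the header of ResE.lean for the
product formula; the factor of i is p [a = 1] if i ∈ S and [a = 0] if i ∉ S, so only Q = S
survives with p^|S|.
-/

namespace Pool.Agent.Work.MP_56168e_lc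

open Finset

variable {n : ℕ}

lemma wt_nonneg {p : ℝ} (h0 : 0 ≤ p) (h1 : p ≤ 1) (ρ : PA n) : 0 ≤ wt p ρ := by
  unfold wt
  refine Finset.prod_nonneg fun i _ => ?_
  split_ifs
  · exact h0
  · linarith

lemma sum_wt (p : ℝ) : ∑ ρ : PA n, wt p ρ = 1 := by
  unfold wt
  rw [sum_prod_cube (fun (_ : Fin n) (o : Option Bool) => if o = none then p else (1 - p) / 2)]
  apply Finset.prod_eq_one
  intro i _
  rw [Fintype.sum_option]
  simp
  ring

private lemma resn_chi (p : ℝ) (Q S : Finset (Fin n)) :
    ∑ ρ : PA n, wt p ρ * ex (fun x => chi Q (ow ρ x) * chi S x)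
      = if Q = S then p ^ S.card else 0 := by
  have h1 : ∀ ρ : PA n, wt p ρ * ex (fun x => chi Q (ow ρ x) * chi S x)
      = ∏ i, ((if ρ i = none then p else (1 - p) / 2) *
        ((∑ b : Bool, (if i ∈ Q then (if (ρ i).getD b = true then (-1 : ℝ) else 1) else 1) *
          (if i ∈ S then (if b = true then (-1 : ℝ) else 1) else 1)) / 2)) := by
    intro ρ
    have h2 : ∑ x : Cube n, chi Q (ow ρ x) * chi S x = ∏ i,
        ∑ b : Bool, (if i ∈ Q then (if (ρ i).getD b = true then (-1 : ℝ) else 1) else 1) *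
          (if i ∈ S then (if b = true then (-1 : ℝ) else 1) else 1) := by
      rw [← sum_prod_cube]
      refine Finset.sum_congr rfl fun x _ => ?_
      rw [chi_eq_univ, chi_eq_univ, ← Finset.prod_mul_distrib]
      rfl
    unfold ex
    rw [h2, Finset.prod_mul_distrib, Finset.prod_div_distrib]
    unfold wt
    simp
  rw [Finset.sum_congr rfl fun ρ _ => h1 ρ]
  rw [sum_prod_cube (fun (i : Fin n) (o : Option Bool) => (if o = none then p else (1 - p) / 2) *
        ((∑ b : Bool, (if i ∈ Q then (if o.getD b = true then (-1 : ℝ) else 1) else 1) *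
          (if i ∈ S then (if b = true then (-1 : ℝ) else 1) else 1)) / 2))]
  have h3 : ∀ i : Fin n, ∑ o : Option Bool, (if o = none then p else (1 - p) / 2) *
        ((∑ b : Bool, (if i ∈ Q then (if o.getD b = true then (-1 : ℝ) else 1) else 1) *
          (if i ∈ S then (if b = true then (-1 : ℝ) else 1) else 1)) / 2)
      = if i ∈ Q then (if i ∈ S then p else 0) else (if i ∈ S then 0 else 1) := by
    intro i
    rw [Fintype.sum_option]
    by_cases hQ : i ∈ Q <;> by_cases hS : i ∈ S <;> simp [hQ, hS] <;> ring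
  rw [Finset.prod_congr rfl fun i _ => h3 i]
  split_ifs with h
  · subst h
    have h4 : ∀ i : Fin n, (if i ∈ Q then (if i ∈ Q then p else 0) else (if i ∈ Q then 0 else 1))
        = if i ∈ Q then p else 1 := by
      intro i
      split_ifs <;> rfl
    rw [Finset.prod_congr rfl fun i _ => h4 i, Finset.prod_ite_mem, Finset.univ_inter,
      Finset.prod_const]
  · have : ∃ i, ¬ (i ∈ Q ↔ i ∈ S) := by
      by_contra hc
      apply h
      ext i
      by_contra hi
      exact hc ⟨i, hi⟩
    obtain ⟨i, hi⟩ := this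
    apply Finset.prod_eq_zero (Finset.mem_univ i)
    by_cases hQ : i ∈ Q <;> by_cases hS : i ∈ S <;> simp_all

theorem sum_fc_res (p : ℝ) (g : Cube n → ℝ) (S : Finset (Fin n)) :
    ∑ ρ : PA n, wt p ρ * fc (res ρ g) S = p ^ S.card * fc g S := by
  have h1 : ∀ ρ : PA n, wt p ρ * fc (res ρ g) S
      = ∑ Q, fc g Q * (wt p ρ * ex (fun x => chi Q (ow ρ x) * chi S x)) := by
    intro ρ
    have h2 : fc (res ρ g) S = ex (fun x => ∑ Q, fc g Q * (chi Q (ow ρ x) * chi S x)) := by
      unfold fc
      refine ex_congr fun x => ?_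
      unfold res
      conv_lhs => rw [inversion g (ow ρ x)]
      rw [Finset.sum_mul]
      refine Finset.sum_congr rfl fun Q _ => ?_
      unfold fc
      ring
    rw [h2, ex_sum, Finset.mul_sum]
    refine Finset.sum_congr rfl fun Q _ => ?_
    rw [ex_smul]
    ring
  rw [Finset.sum_congr rfl fun ρ _ => h1 ρ, Finset.sum_comm]
  have h3 : ∀ Q : Finset (Fin n), ∑ ρ : PA n,
      fc g Q * (wt p ρ * ex (fun x => chi Q (ow ρ x) * chi S x))
      = if Q = S then p ^ S.card * fc g S else 0 := by
    intro Q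
    rw [← Finset.mul_sum, resn_chi]
    split_ifs with h
    · subst h; ring
    · ring
  rw [Finset.sum_congr rfl fun Q _ => h3 Q]
  simp

end Pool.Agent.Work.MP_56168e_lc
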