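import Mathlib
import Pool.Agent.Work.MP_56168e_lc.Fill
import Pool.Agent.Work.MP_56168e_lc.ResN

set_option autoImplicit false

/-!
One step of the switching lemma.  PROOF.  For a pair (ρ, y) with k+1 nonempty blocks let T, V be
as in Fill.lean and ρ' = fill ρ V T.  The map (ρ, y) ↦ (ρ', y, V) is injective: y is kept, V is
kept and ρ is ρ' with the variables of V made free (they are free in ρ).  By Fill.lean
qn L y k ρ' = qn L y k ρ, (ρ', y) has k nonempty blocks, and V is a nonempty subset of dom T where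
T = the first non-falsified term of run L y k ρ', which is determined by (ρ', y).
Weights: wt p ρ = wt p ρ' (p / ((1-p)/2))^|V| (V free in ρ, fixed in ρ'), and
2^(qn L y (k+1) ρ) = 2^(qn L y k ρ') 2^|V|.  So
Ek (k+1) ≤ ∑_{ρ'} ∑_y wt p ρ' 2^(-n) 2^(qn L y k ρ') [Alive k] ∑_{∅≠V⊆dom T} (4p/(1-p))^|V|
and the inner sum is (1+4p/(1-p))^|dom T| - 1 ≤ (1+4p/(1-p))^w - 1 (`Finset.sum_pow_mul_eq_add_pow`
or `Finset.prod_one_add`).  If the first non-falsified term does not exist the inner sum is empty.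
-/

namespace Pool.Agent.Work.MP_56168e_lc

open Finset

variable {n : ℕ}

/-- the first non-falsified term after `k` blocks (or the empty term) -/
private noncomputable def stT (L : List (PA n)) (y : Cube n) (k : ℕ) (ρ : PA n) : PA n :=
  (fnf L (run L y k ρ)).getD (fun _ => none)

private lemma StepS_wt {p : ℝ} (h1 : p < 1) (ρ T : PA n) (V : Finset (Fin n))
    (hV : ∀ i ∈ V, ρ i = none ∧ T i ≠ none) :
    wt p ρ = wt p (fill ρ V T) * (2 * p / (1 - p)) ^ V.card := by
  have hc : ∏ i : Fin n, (if i ∈ V then (2 * p / (1 - p)) else (1 : ℝ)) =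
      (2 * p / (1 - p)) ^ V.card := by
    rw [prod_ite_mem, univ_inter, prod_const]
  rw [← hc]
  unfold wt
  rw [← prod_mul_distrib]
  refine prod_congr rfl fun i _ => ?_
  have h2 : (1 - p) ≠ 0 := by linarith
  unfold fill
  by_cases hi : i ∈ V
  · rw [if_pos hi, if_pos hi, if_pos (hV i hi).1, if_neg (hV i hi).2]
    field_simp
  · rw [if_neg hi, if_neg hi, mul_one]

private lemma StepS_sum (q : ℝ) (D : Finset (Fin n)) :
    ∑ V ∈ D.powerset.erase ∅, q ^ V.card = (1 + q) ^ D.card - 1 := by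
  have h1 := sum_pow_mul_eq_add_pow q 1 D
  simp only [one_pow, mul_one] at h1
  rw [← add_sum_erase _ _ (empty_mem_powerset D), card_empty, pow_zero, add_comm q 1] at h1
  linarith

open Classical in
private lemma StepS_y (L : List (PA n)) (w : ℕ) (hL : ∀ T ∈ L, (dom T).card ≤ w) {p : ℝ}
    (h0 : 0 < p) (h1 : p < 1) (k : ℕ) (y : Cube n) :
    ∑ ρ : PA n, wt p ρ * (if Alive L y (k + 1) ρ then (2 : ℝ) ^ (qn L y (k + 1) ρ) else 0) ≤
      ((1 + 4 * p / (1 - p)) ^ w - 1) *
        ∑ ρ : PA n, wt p ρ * (if Alive L y k ρ then (2 : ℝ) ^ (qn L y k ρ) else 0) := by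
  set q : ℝ := 4 * p / (1 - p) with hq
  have hq0 : 0 ≤ q := by
    rw [hq]
    exact div_nonneg (by linarith) (by linarith)
  have hw0 : ∀ ρ : PA n, 0 ≤ wt p ρ := fun ρ => wt_nonneg h0.le h1.le ρ
  let G : PA n × Finset (Fin n) → ℝ := fun b => wt p b.1 * 2 ^ (qn L y k b.1) * q ^ b.2.card
  let Φ : PA n → PA n × Finset (Fin n) := fun ρ =>
    (fill ρ (blk L (run L y k ρ)) (stT L y k ρ), blk L (run L y k ρ))
  let A : Finset (PA n) := univ.filter (fun ρ => Alive L y (k + 1) ρ)
  let B : Finset (PA n × Finset (Fin n)) :=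
    univ.filter (fun b => Alive L y k b.1 ∧ b.2 ∈ (dom (stT L y k b.1)).powerset.erase ∅)
  -- facts on an element of `A`
  have hA : ∀ ρ ∈ A, ∃ T, fnf L (run L y k ρ) = some T ∧ stT L y k ρ = T ∧
      blk L (run L y k ρ) = fr T (run L y k ρ) ∧ (blk L (run L y k ρ)).Nonempty := by
    intro ρ hρ
    have h2 : Alive L y (k + 1) ρ := (mem_filter.1 hρ).2
    have h3 := h2 k (Nat.lt_succ_self k)
    cases hf : fnf L (run L y k ρ) with
    | none =>
      exfalso
      unfold blk at h3
      rw [hf] at h3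
      exact not_nonempty_empty h3
    | some T =>
      refine ⟨T, rfl, ?_, ?_, h3⟩
      · unfold stT
        rw [hf]
        rfl
      · unfold blk
        rw [hf]
  have hG0 : ∀ b, 0 ≤ G b := fun b =>
    mul_nonneg (mul_nonneg (hw0 _) (by positivity)) (pow_nonneg hq0 _)
  have hfree : ∀ ρ : PA n, ∀ i ∈ blk L (run L y k ρ), ρ i = none := fun ρ i hi =>
    run_free_of_le L y ρ (Nat.zero_le k) (blk_free L _ hi)
  have hinj : Set.InjOn Φ A := by
    intro ρ _ ρ₂ _ h
    have e1 : fill ρ (blk L (run L y k ρ)) (stT L y k ρ) =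
        fill ρ₂ (blk L (run L y k ρ₂)) (stT L y k ρ₂) := congrArg Prod.fst h
    have e2 : blk L (run L y k ρ) = blk L (run L y k ρ₂) := congrArg Prod.snd h
    funext i
    by_cases hi : i ∈ blk L (run L y k ρ)
    · rw [hfree ρ i hi, hfree ρ₂ i (e2 ▸ hi)]
    · have h3 := congrFun e1 i
      unfold fill at h3
      rw [if_neg hi, if_neg (e2 ▸ hi)] at h3
      exact h3
  have hmaps : ∀ ρ ∈ A, Φ ρ ∈ B := by
    intro ρ hρ
    obtain ⟨T, hf, hT, hb, hne⟩ := hA ρ hρ
    have h2 : Alive L y (k + 1) ρ := (mem_filter.1 hρ).2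
    have h4 := fnf_fill L y ρ T k hf
    refine mem_filter.2 ⟨mem_univ _, ?_, ?_⟩
    · intro j hj
      show (blk L (run L y j (fill ρ (blk L (run L y k ρ)) (stT L y k ρ)))).Nonempty
      rw [hT, hb, blk_fill L y ρ T k hf j hj]
      exact h2 j (by omega)
    · show blk L (run L y k ρ) ∈ (dom (stT L y k (fill ρ (blk L (run L y k ρ))
        (stT L y k ρ)))).powerset.erase ∅
      rw [mem_erase, mem_powerset]
      refine ⟨hne.ne_empty, ?_⟩
      have h5 : stT L y k (fill ρ (blk L (run L y k ρ)) (stT L y k ρ)) = T := by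
        rw [hT, hb]
        unfold stT
        rw [h4]
        rfl
      rw [h5, hb]
      intro i hi
      simp only [fr, mem_filter] at hi
      rw [mem_dom]
      exact hi.2.1
  have hval : ∀ ρ ∈ A, wt p ρ * (2 : ℝ) ^ (qn L y (k + 1) ρ) = G (Φ ρ) := by
    intro ρ hρ
    obtain ⟨T, hf, hT, hb, hne⟩ := hA ρ hρ
    show _ = wt p (fill ρ (blk L (run L y k ρ)) (stT L y k ρ)) *
      2 ^ (qn L y k (fill ρ (blk L (run L y k ρ)) (stT L y k ρ))) *
      q ^ (blk L (run L y k ρ)).card
    have h5 : qn L y k (fill ρ (blk L (run L y k ρ)) (stT L y k ρ)) = qn L y k ρ := by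
      unfold qn
      refine sum_congr rfl fun j hj => ?_
      rw [hT, hb, blk_fill L y ρ T k hf j (mem_range.1 hj)]
    rw [h5, qn_succ, pow_add]
    have h6 := StepS_wt h1 ρ (stT L y k ρ) (blk L (run L y k ρ)) (fun i hi => by
      refine ⟨hfree ρ i hi, ?_⟩
      rw [hT]
      rw [hb] at hi
      simp only [fr, mem_filter] at hi
      exact hi.2.1)
    rw [h6]
    have h7 : q = 2 * p / (1 - p) * 2 := by
      rw [hq]
      ring
    rw [h7, mul_pow]
    ring
  calc ∑ ρ : PA n, wt p ρ * (if Alive L y (k + 1) ρ then (2 : ℝ) ^ (qn L y (k + 1) ρ) else 0)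
      = ∑ ρ ∈ A, wt p ρ * (2 : ℝ) ^ (qn L y (k + 1) ρ) := by
        rw [sum_filter]
        refine sum_congr rfl fun ρ _ => ?_
        split_ifs <;> simp
    _ = ∑ ρ ∈ A, G (Φ ρ) := sum_congr rfl hval
    _ = ∑ b ∈ A.image Φ, G b := (sum_image hinj).symm
    _ ≤ ∑ b ∈ B, G b := by
        refine sum_le_sum_of_subset_of_nonneg ?_ fun b _ _ => hG0 b
        intro b hb
        obtain ⟨ρ, hρ, rfl⟩ := mem_image.1 hb
        exact hmaps ρ hρ
    _ = ∑ ρ : PA n, ∑ V : Finset (Fin n),
          (if Alive L y k ρ ∧ V ∈ (dom (stT L y k ρ)).powerset.erase ∅ then G (ρ, V) else 0) := by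
        rw [sum_filter, Fintype.sum_prod_type]
    _ ≤ ∑ ρ : PA n, ((1 + q) ^ w - 1) *
          (wt p ρ * (if Alive L y k ρ then (2 : ℝ) ^ (qn L y k ρ) else 0)) := by
        refine sum_le_sum fun ρ _ => ?_
        by_cases ha : Alive L y k ρ
        · rw [if_pos ha]
          have h8 : ∑ V : Finset (Fin n), (if Alive L y k ρ ∧
              V ∈ (dom (stT L y k ρ)).powerset.erase ∅ then G (ρ, V) else 0) =
              wt p ρ * 2 ^ (qn L y k ρ) * ∑ V ∈ (dom (stT L y k ρ)).powerset.erase ∅,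
                q ^ V.card := by
            rw [← sum_filter, mul_sum]
            refine sum_congr ?_ fun V _ => rfl
            ext V
            simp [ha]
          rw [h8, StepS_sum, mul_comm]
          refine mul_le_mul_of_nonneg_right ?_ (mul_nonneg (hw0 ρ) (by positivity))
          refine sub_le_sub_right (pow_le_pow_right₀ (by linarith) ?_) 1
          unfold stT
          cases hf : fnf L (run L y k ρ) with
          | none =>
            have : dom ((none : Option (PA n)).getD (fun _ => none)) = ∅ := by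
              ext i
              rw [mem_dom]
              simp
            rw [this, card_empty]
            exact Nat.zero_le w
          | some T => exact hL T (fnf_some hf).1
        · rw [if_neg ha, mul_zero, mul_zero]
          refine (sum_eq_zero fun V _ => ?_).le
          rw [if_neg fun h => ha h.1]
    _ = _ := by rw [← mul_sum]

theorem Ek_step (L : List (PA n)) (w : ℕ) (hL : ∀ T ∈ L, (dom T).card ≤ w) {p : ℝ}
    (h0 : 0 < p) (h1 : p < 1) (k : ℕ) :
    Ek L p (k + 1) ≤ ((1 + 4 * p / (1 - p)) ^ w - 1) * Ek L p k := by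
  classical
  have key : ∀ m : ℕ, Ek L p m = ex (fun y : Cube n => ∑ ρ : PA n, wt p ρ *
      (if Alive L y m ρ then (2 : ℝ) ^ (qn L y m ρ) else 0)) := by
    intro m
    unfold Ek
    rw [ex_sum]
    refine sum_congr rfl fun ρ _ => ?_
    rw [← ex_smul]
  rw [key, key, ← ex_smul]
  exact ex_mono fun y => StepS_y L w hL h0 h1 k y

end Pool.Agent.Work.MP_56168e_lc
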