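import Mathlib
import Pool.Agent.Work.MP_56168e_lc.StepS

set_option autoImplicit false

/-!
PROOF.  With p = 1/(13 w): 4p/(1-p) = 4/(13w-1) ≤ 1/(3w), (1+1/(3w))^w ≤ exp(1/3) ≤ 3/2.
So Ek (k+1) ≤ Ek k / 2; Ek 0 = ∑ wt = 1; Ek k ≤ 2^(-k).
lv: for every y, ρ let K ≤ n be maximal with Alive L y K ρ, K ≤ n.  If K < n then block K (0-based)
is empty, so the process has ended: st L y ρ_K = ρ_K and all later blocks are empty, and
qn L y n ρ = qn L y K ρ.  If K = n this is trivial.  Hence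
2^(qn L y n ρ) ≤ ∑_{k ≤ n} [Alive L y k ρ] 2^(qn L y k ρ), and summing,
∑ wt * lv ≤ ∑_{k ≤ n} Ek k ≤ ∑ 2^(-k) ≤ 2.
-/

namespace Pool.Agent.Work.MP_56168e_lc

open Finset

variable {n : ℕ}

lemma Ek_zero (L : List (PA n)) (p : ℝ) : Ek L p 0 = 1 := by
  classical
  unfold Ek
  rw [← sum_wt (n := n) p]
  refine sum_congr rfl fun ρ _ => ?_
  have h1 : ex (fun y : Cube n => if Alive L y 0 ρ then (2 : ℝ) ^ (qn L y 0 ρ) else 0) = 1 := by
    rw [← ex_const (n := n) 1]
    refine ex_congr fun y => ?_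
    have ha : Alive L y 0 ρ := fun j hj => absurd hj (Nat.not_lt_zero j)
    rw [if_pos ha]
    simp [qn]
  rw [h1, mul_one]

private lemma EkSum_p {w : ℕ} (hw : 1 ≤ w) : 0 < (1 / (13 * w) : ℝ) ∧ (1 / (13 * w) : ℝ) < 1 := by
  have h1 : (1 : ℝ) ≤ w := by exact_mod_cast hw
  refine ⟨by positivity, ?_⟩
  rw [div_lt_one (by positivity)]
  linarith

private lemma Ek_nonneg (L : List (PA n)) {p : ℝ} (h0 : 0 ≤ p) (h1 : p ≤ 1) (k : ℕ) :
    0 ≤ Ek L p k := by
  unfold Ek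
  refine sum_nonneg fun ρ _ => mul_nonneg (wt_nonneg h0 h1 ρ) (ex_nonneg fun y => ?_)
  split_ifs
  · positivity
  · exact le_rfl

private lemma EkSum_num {w : ℕ} (hw : 1 ≤ w) :
    (1 + 4 * (1 / (13 * w) : ℝ) / (1 - 1 / (13 * w))) ^ w - 1 ≤ 1 / 2 := by
  have h1 : (1 : ℝ) ≤ w := by exact_mod_cast hw
  have hw0 : (0 : ℝ) < w := by linarith
  have e : 4 * (1 / (13 * w) : ℝ) / (1 - 1 / (13 * w)) = 4 / (13 * w - 1) := by
    have h2 : (13 * w - 1 : ℝ) ≠ 0 := by linarith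
    have h3 : (1 - 1 / (13 * w) : ℝ) = (13 * w - 1) / (13 * w) := by
      field_simp
    rw [h3]
    field_simp
  have h2 : 4 / (13 * w - 1 : ℝ) ≤ 1 / (3 * w) := by
    rw [div_le_div_iff₀ (by linarith) (by positivity)]
    linarith
  have h3 : (1 + 4 * (1 / (13 * w) : ℝ) / (1 - 1 / (13 * w))) ^ w ≤ Real.exp (1 / 3) := by
    rw [e]
    calc (1 + 4 / (13 * w - 1 : ℝ)) ^ w ≤ (Real.exp (1 / (3 * w))) ^ w := by
          refine pow_le_pow_left₀ ?_ ?_ w
          · have : 0 ≤ 4 / (13 * w - 1 : ℝ) := div_nonneg (by norm_num) (by linarith)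
            linarith
          · have := Real.add_one_le_exp (1 / (3 * w) : ℝ)
            linarith
      _ = Real.exp (1 / 3) := by
          rw [← Real.exp_nat_mul]
          congr 1
          field_simp
  have h4 : Real.exp (1 / 3) < 3 / 2 := by
    have h5 : Real.exp (1 / 3) ^ 3 < (3 / 2 : ℝ) ^ 3 := by
      rw [← Real.exp_nat_mul]
      have h6 := Real.exp_one_lt_d9
      norm_num
      linarith
    exact lt_of_pow_lt_pow_left₀ 3 (by norm_num) h5
  linarith

lemma Ek_le (L : List (PA n)) (w : ℕ) (hw : 1 ≤ w) (hL : ∀ T ∈ L, (dom T).card ≤ w) (k : ℕ) :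
    Ek L (1 / (13 * w)) k ≤ (1 / 2) ^ k := by
  obtain ⟨h0, h1⟩ := EkSum_p hw
  induction k with
  | zero => rw [Ek_zero, pow_zero]
  | succ k ih =>
    have h2 := Ek_step L w hL h0 h1 k
    have h3 := Ek_nonneg L h0.le h1.le k
    have h4 := EkSum_num hw
    calc Ek L (1 / (13 * w)) (k + 1) ≤ _ := h2
      _ ≤ 1 / 2 * Ek L (1 / (13 * w)) k := mul_le_mul_of_nonneg_right h4 h3
      _ ≤ 1 / 2 * (1 / 2) ^ k := by linarith
      _ = (1 / 2) ^ (k + 1) := by ring

private lemma EkSum_stop (L : List (PA n)) (y : Cube n) (ρ : PA n) {j m : ℕ} (hjm : j ≤ m)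
    (h : blk L (run L y j ρ) = ∅) : blk L (run L y m ρ) = ∅ := by
  induction m, hjm using Nat.le_induction with
  | base => exact h
  | succ m _ ih =>
    have h1 : run L y (m + 1) ρ = run L y m ρ := by
      rw [run_succ]
      unfold st
      rw [ih]
      funext i
      simp [ask]
    rw [h1]
    exact ih

open Classical in
private lemma EkSum_pt (L : List (PA n)) (y : Cube n) (ρ : PA n) (m : ℕ) :
    (2 : ℝ) ^ (qn L y m ρ) ≤ ∑ k ∈ range (m + 1),
      (if Alive L y k ρ then (2 : ℝ) ^ (qn L y k ρ) else 0) := by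
  have hpos : ∀ k, (0 : ℝ) ≤ (if Alive L y k ρ then (2 : ℝ) ^ (qn L y k ρ) else 0) := by
    intro k
    split_ifs
    · positivity
    · exact le_rfl
  induction m with
  | zero =>
    have ha : Alive L y 0 ρ := fun j hj => absurd hj (Nat.not_lt_zero j)
    rw [sum_range_one, if_pos ha]
  | succ m ih =>
    rw [sum_range_succ]
    by_cases ha : Alive L y (m + 1) ρ
    · rw [if_pos ha]
      have := sum_nonneg fun k (_ : k ∈ range (m + 1)) => hpos k
      linarith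
    · have h1 : ∃ j < m + 1, ¬ (blk L (run L y j ρ)).Nonempty := by
        unfold Alive at ha
        push Not at ha
        obtain ⟨j, hj, h2⟩ := ha
        exact ⟨j, hj, by rw [h2]; exact not_nonempty_empty⟩
      obtain ⟨j, hj, h2⟩ := h1
      have h3 := EkSum_stop L y ρ (Nat.lt_succ_iff.1 hj) (not_nonempty_iff_eq_empty.1 h2)
      have h5 : qn L y (m + 1) ρ = qn L y m ρ := by rw [qn_succ, h3, card_empty, add_zero]
      have h6 := hpos (m + 1)
      calc (2 : ℝ) ^ (qn L y (m + 1) ρ) = 2 ^ (qn L y m ρ) := by rw [h5]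
        _ ≤ _ := ih
        _ ≤ _ := le_add_of_nonneg_right h6

theorem sum_lv (L : List (PA n)) (w : ℕ) (hw : 1 ≤ w) (hL : ∀ T ∈ L, (dom T).card ≤ w) :
    ∑ ρ : PA n, wt (1 / (13 * w)) ρ * lv L n ρ ≤ 2 := by
  classical
  obtain ⟨h0, h1⟩ := EkSum_p hw
  calc ∑ ρ : PA n, wt (1 / (13 * w)) ρ * lv L n ρ
      ≤ ∑ ρ : PA n, wt (1 / (13 * w)) ρ * ∑ k ∈ range (n + 1),
          ex (fun y => if Alive L y k ρ then (2 : ℝ) ^ (qn L y k ρ) else 0) := by
        refine sum_le_sum fun ρ _ => mul_le_mul_of_nonneg_left ?_ (wt_nonneg h0.le h1.le ρ)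
        rw [← ex_sum]
        exact ex_mono fun y => EkSum_pt L y ρ n
    _ = ∑ k ∈ range (n + 1), Ek L (1 / (13 * w)) k := by
        unfold Ek
        rw [sum_comm]
        refine sum_congr rfl fun ρ _ => ?_
        rw [mul_sum]
    _ ≤ ∑ k ∈ range (n + 1), (1 / 2 : ℝ) ^ k := sum_le_sum fun k _ => Ek_le L w hw hL k
    _ ≤ 2 := by
        rw [geom_sum_eq (by norm_num)]
        have : (0 : ℝ) < (1 / 2) ^ (n + 1) := by positivity
        rw [div_le_iff_of_neg (by norm_num)]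
        linarith

end Pool.Agent.Work.MP_56168e_lc
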