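import Mathlib
import Pool.Agent.Work.MP_56168e_lc.Four

set_option autoImplicit false

/-!
The spectral norm.  PROOFS.  fc is linear in g.  nrm_mul_le: write g, h by inversion, then
g*h = sum_{S,S'} fc g S fc h S' chi(S Δ S'), use nrm_sum_le, nrm_smul and nrm (chi S) = 1.
abs_le_nrm: inversion and |chi| = 1.  fool: pe φ g = ∑ fc φ S * fc g S (parseval), the term S = ∅
is ex φ * ex g = ex g, the others are at most ε |fc g S|.
-/

namespace Pool.Agent.Work.MP_56168e_lc

open Finset

variable {n : ℕ}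

lemma fc_add (g h : Cube n → ℝ) (S : Finset (Fin n)) :
    fc (fun x => g x + h x) S = fc g S + fc h S := by
  unfold fc
  rw [← ex_add]
  exact ex_congr fun x => by ring

lemma fc_smul (c : ℝ) (g : Cube n → ℝ) (S : Finset (Fin n)) :
    fc (fun x => c * g x) S = c * fc g S := by
  unfold fc
  rw [← ex_smul]
  exact ex_congr fun x => by ring

private lemma nrm_fc_sub (g h : Cube n → ℝ) (S : Finset (Fin n)) :
    fc (fun x => g x - h x) S = fc g S - fc h S := by
  unfold fc
  rw [← ex_sub]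
  exact ex_congr fun x => by ring

/-- Fourier coefficients of a finite sum -/
lemma fc_sum {ι : Type*} (s : Finset ι) (g : ι → Cube n → ℝ) (S : Finset (Fin n)) :
    fc (fun x => ∑ i ∈ s, g i x) S = ∑ i ∈ s, fc (g i) S := by
  unfold fc
  rw [← ex_sum]
  exact ex_congr fun x => by rw [Finset.sum_mul]

lemma nrm_nonneg (g : Cube n → ℝ) : 0 ≤ nrm g :=
  Finset.sum_nonneg fun _ _ => abs_nonneg _

lemma nrm_add_le (g h : Cube n → ℝ) : nrm (fun x => g x + h x) ≤ nrm g + nrm h := by
  unfold nrm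
  rw [← Finset.sum_add_distrib]
  refine Finset.sum_le_sum fun S _ => ?_
  rw [fc_add]
  exact abs_add_le _ _

lemma nrm_sub_le (g h : Cube n → ℝ) : nrm (fun x => g x - h x) ≤ nrm g + nrm h := by
  unfold nrm
  rw [← Finset.sum_add_distrib]
  refine Finset.sum_le_sum fun S _ => ?_
  rw [nrm_fc_sub]
  exact abs_sub _ _

lemma nrm_smul (c : ℝ) (g : Cube n → ℝ) : nrm (fun x => c * g x) = |c| * nrm g := by
  unfold nrm
  rw [Finset.mul_sum]
  refine Finset.sum_congr rfl fun S _ => ?_
  rw [fc_smul, abs_mul]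

private lemma nrm_chi (S : Finset (Fin n)) : nrm (chi S) = 1 := by
  unfold nrm
  rw [Finset.sum_eq_single S]
  · rw [fc_chi]; simp
  · intro S' _ h
    rw [fc_chi, if_neg (Ne.symm h), abs_zero]
  · intro h
    exact absurd (Finset.mem_univ S) h

lemma nrm_const (c : ℝ) : nrm (fun _ : Cube n => c) = |c| := by
  have h : (fun _ : Cube n => c) = fun x => c * chi ∅ x := by
    funext x
    simp [chi]
  rw [h, nrm_smul, nrm_chi, mul_one]

lemma nrm_sum_le {ι : Type*} (s : Finset ι) (g : ι → Cube n → ℝ) :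
    nrm (fun x => ∑ i ∈ s, g i x) ≤ ∑ i ∈ s, nrm (g i) := by
  unfold nrm
  rw [Finset.sum_comm]
  refine Finset.sum_le_sum fun S _ => ?_
  rw [fc_sum]
  exact Finset.abs_sum_le_sum_abs _ _

private lemma nrm_chi_mul_le (S : Finset (Fin n)) (h : Cube n → ℝ) :
    nrm (fun x => chi S x * h x) ≤ nrm h := by
  have h1 : (fun x => chi S x * h x) = fun x => ∑ Q, fc h Q * chi (symmDiff S Q) x := by
    funext x
    conv_lhs => rw [inversion h x]
    rw [Finset.mul_sum]
    refine Finset.sum_congr rfl fun Q _ => ?_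
    rw [← chi_mul]
    ring
  rw [h1]
  refine (nrm_sum_le _ _).trans ?_
  unfold nrm
  refine Finset.sum_le_sum fun Q _ => ?_
  have := nrm_smul (fc h Q) (chi (symmDiff S Q))
  rw [nrm_chi, mul_one] at this
  exact this.le

lemma nrm_mul_le (g h : Cube n → ℝ) : nrm (fun x => g x * h x) ≤ nrm g * nrm h := by
  have h1 : (fun x => g x * h x) = fun x => ∑ S, fc g S * (chi S x * h x) := by
    funext x
    conv_lhs => rw [inversion g x]
    rw [Finset.sum_mul]
    refine Finset.sum_congr rfl fun Q _ => ?_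
    ring
  rw [h1]
  refine (nrm_sum_le _ _).trans ?_
  conv_rhs => unfold nrm
  rw [Finset.sum_mul]
  refine Finset.sum_le_sum fun S _ => ?_
  rw [nrm_smul]
  exact mul_le_mul_of_nonneg_left (nrm_chi_mul_le S h) (abs_nonneg _)

lemma nrm_sq_le (g : Cube n → ℝ) : nrm (fun x => g x ^ 2) ≤ nrm g ^ 2 := by
  have := nrm_mul_le g g
  simpa only [pow_two] using this

lemma abs_le_nrm (g : Cube n → ℝ) (x : Cube n) : |g x| ≤ nrm g := by
  rw [inversion g x]
  refine (Finset.abs_sum_le_sum_abs _ _).trans ?_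
  unfold nrm
  refine Finset.sum_le_sum fun S _ => ?_
  rw [abs_mul, abs_chi, mul_one]

theorem fool {ε : ℝ} {φ : Cube n → ℝ} (hφ : Dens ε φ) (hε : 0 ≤ ε) (g : Cube n → ℝ) :
    |pe φ g - ex g| ≤ ε * nrm g := by
  unfold pe
  rw [parseval]
  have h1 : ∑ S, fc φ S * fc g S
      = fc φ ∅ * fc g ∅ + ∑ S ∈ Finset.univ.erase (∅ : Finset (Fin n)), fc φ S * fc g S :=
    (Finset.add_sum_erase _ _ (Finset.mem_univ _)).symm
  rw [h1, fc_empty, fc_empty, hφ.mean, one_mul, add_sub_cancel_left]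
  refine (Finset.abs_sum_le_sum_abs _ _).trans ?_
  have h2 : ∑ S ∈ Finset.univ.erase (∅ : Finset (Fin n)), |fc φ S * fc g S|
      ≤ ∑ S ∈ Finset.univ.erase (∅ : Finset (Fin n)), ε * |fc g S| := by
    refine Finset.sum_le_sum fun S hS => ?_
    rw [abs_mul]
    refine mul_le_mul_of_nonneg_right (hφ.bias S ?_) (abs_nonneg _)
    exact Finset.nonempty_iff_ne_empty.mpr (Finset.ne_of_mem_erase hS)
  refine h2.trans ?_
  unfold nrm
  rw [Finset.mul_sum]
  refine Finset.sum_le_sum_of_subset_of_nonneg (Finset.erase_subset _ _) fun S _ _ => ?_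
  exact mul_nonneg hε (abs_nonneg _)

end Pool.Agent.Work.MP_56168e_lc
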