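import Mathlib
import Pool.Agent.Work.MP_56168e_lc.Nrm

set_option autoImplicit false

/-!
Indicators of terms.  PROOFS.  ti T x = ∏ i ∈ dom T, (1 + c_i e_i(x)) / 2 with e_i(x) = ±1 and
c_i = ±1 the sign of the required value; expanding, fc (ti T) S = (1/2)^|dom T| * (±1) if S ⊆ dom T
and 0 otherwise, so nrm (ti T) = 2^|dom T| * (1/2)^|dom T| = 1 (≤ 1 by nrm_mul_le and
nrm ((1 + c e_i)/2) ≤ 1, induction on dom T, is enough).
ex_ti_mul: averaging over the coordinates in dom T; e.g. the map x ↦ ow T x from the cube onto
{x : Sat T x} has all fibres of size 2^|dom T|: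
∑_x g (ow T x) = 2^|dom T| ∑_{x : Sat T x} g x.  ex_ti is the case g = 1.
-/

namespace Pool.Agent.Work.MP_56168e_lc

open Finset

variable {n : ℕ}

private lemma tif_ti_prod (T : PA n) (x : Cube n) :
    ti T x = ∏ i, (match T i with
      | none => (1 : ℝ)
      | some c => if x i = c then 1 else 0) := by
  unfold ti
  split_ifs with h
  · symm
    apply Finset.prod_eq_one
    intro i _
    cases hT : T i with
    | none => rfl
    | some c => simp [h i c hT]
  · symm
    have : ∃ i c, T i = some c ∧ x i ≠ c := by
      by_contra hc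
      apply h
      intro i b hb
      by_contra hne
      exact hc ⟨i, b, hb, hne⟩
    obtain ⟨i, c, hT, hx⟩ := this
    apply Finset.prod_eq_zero (Finset.mem_univ i)
    simp [hT, hx]

private lemma tif_pw (T : PA n) :
    pw T = ∏ i, (match T i with
      | none => (1 : ℝ)
      | some _ => 1 / 2) := by
  unfold pw
  rw [← Finset.prod_const]
  unfold dom
  rw [Finset.prod_filter]
  refine Finset.prod_congr rfl fun i _ => ?_
  cases hT : T i <;> simp

private lemma tif_chi (T : PA n) (S : Finset (Fin n)) :
    ex (fun x => ti T x * chi S x) = pw T * ex (fun x => chi S (ow T x)) := by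
  unfold ex
  have h1 : ∑ x : Cube n, ti T x * chi S x = ∏ i, ∑ b : Bool,
      (match T i with
        | none => (1 : ℝ)
        | some c => if b = c then 1 else 0) *
      (if i ∈ S then (if b = true then (-1 : ℝ) else 1) else 1) := by
    rw [← sum_prod_cube]
    refine Finset.sum_congr rfl fun x _ => ?_
    rw [tif_ti_prod, chi_eq_univ, ← Finset.prod_mul_distrib]
  have h2 : ∑ x : Cube n, chi S (ow T x) = ∏ i, ∑ b : Bool,
      (if i ∈ S then (if (T i).getD b = true then (-1 : ℝ) else 1) else 1) := by
    rw [← sum_prod_cube]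
    refine Finset.sum_congr rfl fun x _ => ?_
    rw [chi_eq_univ]
    rfl
  rw [h1, h2, tif_pw, ← mul_div_assoc, ← Finset.prod_mul_distrib]
  congr 1
  refine Finset.prod_congr rfl fun i _ => ?_
  cases hT : T i with
  | none => simp
  | some c => cases c <;> by_cases hi : i ∈ S <;> simp [hi]

theorem ex_ti_mul (T : PA n) (g : Cube n → ℝ) :
    ex (fun x => ti T x * g x) = pw T * ex (fun x => g (ow T x)) := by
  have h1 : ex (fun x => ti T x * g x) = ex (fun x => ∑ S, fc g S * (ti T x * chi S x)) := by
    refine ex_congr fun x => ?_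
    conv_lhs => rw [inversion g x]
    rw [Finset.mul_sum]
    refine Finset.sum_congr rfl fun S _ => ?_
    ring
  have h2 : ex (fun x => g (ow T x)) = ex (fun x => ∑ S, fc g S * chi S (ow T x)) :=
    ex_congr fun x => inversion g (ow T x)
  rw [h1, h2, ex_sum, ex_sum, Finset.mul_sum]
  refine Finset.sum_congr rfl fun S _ => ?_
  rw [ex_smul, ex_smul, tif_chi]
  ring

lemma ex_ti (T : PA n) : ex (ti T) = pw T := by
  have := ex_ti_mul T (fun _ => 1)
  simpa [ex_const] using this

private lemma tif_nrm_one (i : Fin n) (c : Bool) :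
    nrm (fun x : Cube n => if x i = c then (1 : ℝ) else 0) ≤ 1 := by
  have h : (fun x : Cube n => if x i = c then (1 : ℝ) else 0)
      = fun x => (1 / 2 : ℝ) + (if c then (-(1 / 2) : ℝ) else 1 / 2) * chi {i} x := by
    funext x
    unfold chi
    rw [Finset.prod_singleton]
    cases c <;> cases x i <;> norm_num
  rw [h]
  refine (nrm_add_le _ _).trans ?_
  rw [nrm_const, nrm_smul]
  have h2 : nrm (chi ({i} : Finset (Fin n))) ≤ 1 := by
    unfold nrm
    rw [Finset.sum_eq_single {i}]
    · rw [fc_chi]; simp
    · intro S' _ h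
      rw [fc_chi, if_neg (Ne.symm h), abs_zero]
    · intro h
      exact absurd (Finset.mem_univ _) h
  have h3 : |(if c then (-(1 / 2) : ℝ) else 1 / 2)| = 1 / 2 := by
    cases c
    · simp
    · simp [abs_neg]
  rw [h3]
  have h4 : |(1 / 2 : ℝ)| = 1 / 2 := abs_of_pos (by norm_num)
  rw [h4]
  linarith

private lemma tif_nrm_prod {ι : Type*} [DecidableEq ι] (s : Finset ι) (g : ι → Cube n → ℝ)
    (h : ∀ i ∈ s, nrm (g i) ≤ 1) : nrm (fun x => ∏ i ∈ s, g i x) ≤ 1 := by
  induction s using Finset.induction_on with
  | empty =>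
    have : (fun x : Cube n => ∏ i ∈ (∅ : Finset ι), g i x) = fun _ => 1 := by
      funext x; simp
    rw [this, nrm_const]
    simp
  | insert a s ha ih =>
    have : (fun x : Cube n => ∏ i ∈ insert a s, g i x)
        = fun x => g a x * ∏ i ∈ s, g i x := by
      funext x
      rw [Finset.prod_insert ha]
    rw [this]
    refine (nrm_mul_le _ _).trans ?_
    have h1 := h a (Finset.mem_insert_self _ _)
    have h2 := ih fun i hi => h i (Finset.mem_insert_of_mem hi)
    exact mul_le_one₀ h1 (nrm_nonneg _) h2

theorem nrm_ti (T : PA n) : nrm (ti T) ≤ 1 := by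
  have h : ti T = fun x => ∏ i, (match T i with
      | none => (1 : ℝ)
      | some c => if x i = c then 1 else 0) := funext (tif_ti_prod T)
  rw [h]
  apply tif_nrm_prod (Finset.univ : Finset (Fin n)) (fun i x => match T i with
      | none => (1 : ℝ)
      | some c => if x i = c then 1 else 0)
  intro i _
  cases hT : T i with
  | none =>
    simp only
    rw [nrm_const]
    simp
  | some c => exact tif_nrm_one i c

end Pool.Agent.Work.MP_56168e_lc
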