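import Mathlib
import Pool.Agent.Work.MP_56168e_lc.TiF
import Pool.Agent.Work.MP_56168e_lc.Proc

set_option autoImplicit false

/-!
Asking a set V of variables.  PROOF.  Induction on V (one variable i at a time; V may be assumed
free in ρ at the variable considered, otherwise asking i changes nothing in res because the
hypothesis V free is kept).  For h = res ρ g and a free variable i let h_b = res (ρ, i = b) g.
nrm: h = 1[x_i = 0] h_0 + 1[x_i = 1] h_1 and nrm 1[x_i = b] ≤ 1 (nrm_ti), so
nrm h ≤ nrm h_0 + nrm h_1 = 2 * mean_b nrm h_b.
nrg 2: for S not containing i, fc h S = (fc h_0 S + fc h_1 S)/2, fc h (S ∪ i) = (fc h_0 S -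
fc h_1 S)/2 (up to sign) and fc h_b (S ∪ i) = 0, so nrg 2 h ≤ nrg 2 h_0 + nrg 2 h_1.
The mean over y of F (ask ρ V y) for V = insert i V' is the mean over y of the mean over b.
-/

namespace Pool.Agent.Work.MP_56168e_lc

open Finset

variable {n : ℕ}

private lemma BlkN_flip (i : Fin n) :
    Function.Involutive (fun y : Cube n => Function.update y i (!(y i))) := by
  intro y
  funext j
  by_cases h : j = i
  · subst h
    simp
  · simp [h]

/-- averaging over one coordinate -/
private lemma BlkN_split (i : Fin n) (H : Cube n → Bool → ℝ)
    (hH : ∀ y b c, H (Function.update y i b) c = H y c) :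
    ex (fun y => H y false + H y true) = 2 * ex (fun y => H y (y i)) := by
  have h1 : ex (fun y : Cube n => H y (!(y i))) = ex (fun y => H y (y i)) := by
    unfold ex
    congr 1
    rw [← Equiv.sum_comp (Function.Involutive.toPerm _ (BlkN_flip i)) (fun y => H y (!(y i)))]
    refine sum_congr rfl fun y _ => ?_
    show H (Function.update y i (!(y i))) (!(Function.update y i (!(y i)) i)) = _
    rw [hH, Function.update_self, Bool.not_not]
  calc ex (fun y => H y false + H y true) = ex (fun y => H y (y i) + H y (!(y i))) := by
        refine ex_congr fun y => ?_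
        cases y i <;> simp [add_comm]
    _ = _ := by
        rw [ex_add, h1]
        ring

/-- the function `g` with the coordinate `i` set to `b` -/
private def rs (g : Cube n → ℝ) (i : Fin n) (b : Bool) : Cube n → ℝ :=
  fun x => g (Function.update x i b)

private lemma BlkN_ind (N : (Cube n → ℝ) → ℝ)
    (hN : ∀ (h : Cube n → ℝ) (i : Fin n), N h ≤ N (rs h i false) + N (rs h i true))
    (g : Cube n → ℝ) (ρ : PA n) (V : Finset (Fin n)) (hV : ∀ i ∈ V, ρ i = none) :
    N (res ρ g) ≤ 2 ^ V.card * ex (fun y => N (res (ask ρ V y) g)) := by
  classical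
  induction V using Finset.induction_on with
  | empty =>
    have h1 : ∀ y : Cube n, ask ρ ∅ y = ρ := fun y => by
      funext i
      simp [ask]
    simp only [h1, card_empty, pow_zero, one_mul, ex_const]
    exact le_rfl
  | insert i V hi ih =>
    have h1 := ih fun j hj => hV j (mem_insert_of_mem hj)
    have hρi := hV i (mem_insert_self i V)
    have h2 : ∀ (y : Cube n) (b : Bool), rs (res (ask ρ V y) g) i b =
        res (Function.update (ask ρ V y) i (some b)) g := by
      intro y b
      funext x
      unfold rs res
      congr 1
      funext j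
      unfold ow
      by_cases hj : j = i
      · subst hj
        simp [ask, hi, hρi]
      · simp [hj]
    have h3 : ∀ y : Cube n, Function.update (ask ρ V y) i (some (y i)) = ask ρ (insert i V) y := by
      intro y
      funext j
      by_cases hj : j = i
      · subst hj
        simp [ask]
      · simp [ask, hj]
    have h4 := BlkN_split i (fun y b => N (res (Function.update (ask ρ V y) i (some b)) g))
      (by
        intro y b c
        have : Function.update (ask ρ V (Function.update y i b)) i (some c) =
            Function.update (ask ρ V y) i (some c) := by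
          funext j
          by_cases hj : j = i
          · subst hj
            simp
          · simp [ask, hj]
        simp only [this])
    calc N (res ρ g) ≤ 2 ^ V.card * ex (fun y => N (res (ask ρ V y) g)) := h1
      _ ≤ 2 ^ V.card * ex (fun y => N (res (Function.update (ask ρ V y) i (some false)) g) +
            N (res (Function.update (ask ρ V y) i (some true)) g)) := by
          refine mul_le_mul_of_nonneg_left (ex_mono fun y => ?_) (by positivity)
          have h5 := hN (res (ask ρ V y) g) i
          rw [h2, h2] at h5
          exact h5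
      _ = 2 ^ (insert i V).card * ex (fun y => N (res (ask ρ (insert i V) y) g)) := by
          rw [h4, card_insert_of_notMem hi]
          simp only [h3]
          ring

/-- the term `x_i = b` -/
private def sg (i : Fin n) (b : Bool) : PA n := fun j => if j = i then some b else none

private lemma BlkN_sg (i : Fin n) (b : Bool) (x : Cube n) :
    ti (sg i b) x = if x i = b then 1 else 0 := by
  unfold ti
  have : Sat (sg i b) x ↔ x i = b := by
    unfold Sat sg
    constructor
    · intro h
      exact h i b (if_pos rfl)
    · intro h j c hj
      by_cases hji : j = i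
      · rw [if_pos hji] at hj
        rw [hji, h]
        exact Option.some.inj hj
      · rw [if_neg hji] at hj
        cases hj
  by_cases h : x i = b
  · rw [if_pos h, if_pos (this.2 h)]
  · rw [if_neg h, if_neg fun h' => h (this.1 h')]

private lemma BlkN_nrm (h : Cube n → ℝ) (i : Fin n) :
    nrm h ≤ nrm (rs h i false) + nrm (rs h i true) := by
  have e : h = fun x => ti (sg i false) x * rs h i false x + ti (sg i true) x * rs h i true x := by
    funext x
    rw [BlkN_sg, BlkN_sg]
    unfold rs
    cases hx : x i
    · have : Function.update x i false = x := by rw [← hx]; exact Function.update_eq_self i x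
      simp [this]
    · have : Function.update x i true = x := by rw [← hx]; exact Function.update_eq_self i x
      simp [this]
  calc nrm h = nrm (fun x => ti (sg i false) x * rs h i false x +
        ti (sg i true) x * rs h i true x) := congrArg nrm e
    _ ≤ nrm (fun x => ti (sg i false) x * rs h i false x) +
        nrm (fun x => ti (sg i true) x * rs h i true x) := nrm_add_le _ _
    _ ≤ nrm (ti (sg i false)) * nrm (rs h i false) + nrm (ti (sg i true)) * nrm (rs h i true) :=
        add_le_add (nrm_mul_le _ _) (nrm_mul_le _ _)
    _ ≤ 1 * nrm (rs h i false) + 1 * nrm (rs h i true) :=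
        add_le_add (mul_le_mul_of_nonneg_right (nrm_ti _) (nrm_nonneg _))
          (mul_le_mul_of_nonneg_right (nrm_ti _) (nrm_nonneg _))
    _ = _ := by ring

private lemma BlkN_half (i : Fin n) (G : Cube n → ℝ) :
    ex G = (ex (fun x => G (Function.update x i false)) +
      ex (fun x => G (Function.update x i true))) / 2 := by
  have h1 := BlkN_split i (fun y b => G (Function.update y i b)) (by
    intro y b c
    simp only [Function.update_idem])
  simp only [Function.update_eq_self] at h1
  rw [ex_add] at h1
  linarith

private lemma BlkN_chi {i : Fin n} {S : Finset (Fin n)} (hi : i ∉ S) (x : Cube n) (b : Bool) :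
    chi S (Function.update x i b) = chi S x := by
  unfold chi
  refine prod_congr rfl fun j hj => ?_
  rw [Function.update_of_ne]
  rintro rfl
  exact hi hj

private lemma BlkN_chi' {i : Fin n} {S : Finset (Fin n)} (hi : i ∉ S) (x : Cube n) (b : Bool) :
    chi (insert i S) (Function.update x i b) = (if b = true then -1 else 1) * chi S x := by
  rw [← BlkN_chi hi x b]
  unfold chi
  rw [prod_insert hi, Function.update_self]

private lemma BlkN_nrg (h : Cube n → ℝ) (i : Fin n) :
    nrg 2 h ≤ nrg 2 (rs h i false) + nrg 2 (rs h i true) := by
  classical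
  have hsum : ∀ F : Finset (Fin n) → ℝ, ∑ S, F S =
      ∑ S ∈ (univ.erase i).powerset, (F S + F (insert i S)) := by
    intro F
    have h1 := sum_powerset_insert (notMem_erase i (univ : Finset (Fin n))) F
    rw [insert_erase (mem_univ i), powerset_univ] at h1
    rw [h1, sum_add_distrib]
  unfold nrg
  rw [hsum, hsum, hsum, ← sum_add_distrib]
  refine sum_le_sum fun S hS => ?_
  have hi : i ∉ S := fun h => (notMem_erase i univ) (mem_powerset.1 hS h)
  have e0 : fc h S = (fc (rs h i false) S + fc (rs h i true) S) / 2 := by
    unfold fc
    rw [BlkN_half i]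
    simp only [BlkN_chi hi]
    rfl
  have h1 : ex (fun x => h (Function.update x i true) *
      chi (insert i S) (Function.update x i true)) = (-1) * fc (rs h i true) S := by
    unfold fc
    rw [← ex_smul]
    refine ex_congr fun x => ?_
    rw [BlkN_chi' hi, if_pos rfl]
    unfold rs
    ring
  have h2 : ex (fun x => h (Function.update x i false) *
      chi (insert i S) (Function.update x i false)) = fc (rs h i false) S := by
    unfold fc
    refine ex_congr fun x => ?_
    rw [BlkN_chi' hi, if_neg (by decide)]
    unfold rs
    ring
  have e1 : fc h (insert i S) = (fc (rs h i false) S - fc (rs h i true) S) / 2 := by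
    have h3 : fc h (insert i S) = ex (fun x => h x * chi (insert i S) x) := rfl
    rw [h3, BlkN_half i, h1, h2]
    ring
  rw [e0, e1, card_insert_of_notMem hi]
  set a := fc (rs h i false) S
  set b := fc (rs h i true) S
  have hp : (0 : ℝ) < 2 ^ S.card := by positivity
  have key : ((a + b) / 2) ^ 2 + 2 * ((a - b) / 2) ^ 2 ≤ a ^ 2 + b ^ 2 := by
    nlinarith [sq_nonneg (a + b)]
  have h3 : (0 : ℝ) ≤ 2 ^ (S.card + 1) * fc (rs h i false) (insert i S) ^ 2 := by positivity
  have h4 : (0 : ℝ) ≤ 2 ^ (S.card + 1) * fc (rs h i true) (insert i S) ^ 2 := by positivity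
  calc 2 ^ S.card * ((a + b) / 2) ^ 2 + 2 ^ (S.card + 1) * ((a - b) / 2) ^ 2
      = 2 ^ S.card * (((a + b) / 2) ^ 2 + 2 * ((a - b) / 2) ^ 2) := by ring
    _ ≤ 2 ^ S.card * (a ^ 2 + b ^ 2) := mul_le_mul_of_nonneg_left key hp.le
    _ ≤ _ := by linarith

theorem nrm_ask (g : Cube n → ℝ) (ρ : PA n) (V : Finset (Fin n)) (hV : ∀ i ∈ V, ρ i = none) :
    nrm (res ρ g) ≤ 2 ^ V.card * ex (fun y => nrm (res (ask ρ V y) g)) :=
  BlkN_ind nrm BlkN_nrm g ρ V hV

theorem nrg_ask (g : Cube n → ℝ) (ρ : PA n) (V : Finset (Fin n)) (hV : ∀ i ∈ V, ρ i = none) :
    nrg 2 (res ρ g) ≤ 2 ^ V.card * ex (fun y => nrg 2 (res (ask ρ V y) g)) :=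
  BlkN_ind (nrg 2) BlkN_nrg g ρ V hV

end Pool.Agent.Work.MP_56168e_lc
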