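import Mathlib
import Pool.Agent.Work.MP_56168e_lc.Proc

set_option autoImplicit false

/-!
Resampling.  The number of variables asked from the state `ask ρ V y` on depends on the later
answers y' only through the variables outside V (the variables of V are fixed), so the answers
y on V and y' outside V may be merged.
PROOF.  qn_congr: if y = y' at all variables free in ρ then qn L y k ρ = qn L y' k ρ (induction on k
with run L y j ρ = run L y' j ρ; blocks consist of free variables; free variables only decrease).
lv_ask: ex_y ex_{y'} F(y on V, y' off V) = ex_y F(y, y): the map (y, y') ↦ (merge, rest) is a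
bijection of Cube n × Cube n, or: for fixed z the number of (y, y') with merge = z is 2^n.
-/

namespace Pool.Agent.Work.MP_56168e_lc

open Finset

variable {n : ℕ}

private lemma Resm_free (L : List (PA n)) (y : Cube n) (ρ : PA n) (k : ℕ)
    {i : Fin n} (hi : run L y k ρ i = none) : ρ i = none := by
  induction k with
  | zero => exact hi
  | succ k ih =>
    apply ih
    rw [run_succ] at hi
    unfold st ask at hi
    by_cases h : i ∈ blk L (run L y k ρ)
    · simp [h] at hi
    · rw [if_neg h] at hi
      exact hi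

private lemma Resm_run (L : List (PA n)) (y y' : Cube n) (ρ : PA n)
    (h : ∀ i, ρ i = none → y i = y' i) (k : ℕ) : run L y k ρ = run L y' k ρ := by
  induction k with
  | zero => rfl
  | succ k ih =>
    rw [run_succ, run_succ, ← ih]
    unfold st ask
    funext i
    by_cases hi : i ∈ blk L (run L y k ρ)
    · rw [if_pos hi, if_pos hi, h i (Resm_free L y ρ k (blk_free L _ hi))]
    · rw [if_neg hi, if_neg hi]

lemma qn_congr (L : List (PA n)) (y y' : Cube n) (k : ℕ) (ρ : PA n)
    (h : ∀ i, ρ i = none → y i = y' i) : qn L y k ρ = qn L y' k ρ := by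
  unfold qn
  refine sum_congr rfl fun j _ => ?_
  rw [Resm_run L y y' ρ h j]

/-- `y` on `V` and `y'` off `V` -/
private def mrg (V : Finset (Fin n)) (y y' : Cube n) : Cube n := fun i => if i ∈ V then y i else y' i

private lemma ex_mrg (V : Finset (Fin n)) (F : Cube n → ℝ) :
    ex (fun y => ex (fun y' => F (mrg V y y'))) = ex F := by
  have hinv : Function.Involutive
      (fun p : Cube n × Cube n => (mrg V p.1 p.2, mrg V p.2 p.1)) := by
    rintro ⟨a, b⟩
    refine Prod.ext ?_ ?_
    · funext i
      by_cases hi : i ∈ V <;> simp [mrg, hi]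
    · funext i
      by_cases hi : i ∈ V <;> simp [mrg, hi]
  have h1 : ∑ p : Cube n × Cube n, F (mrg V p.1 p.2) = ∑ p : Cube n × Cube n, F p.1 := by
    have h2 := Equiv.sum_comp (Function.Involutive.toPerm _ hinv)
      (fun p : Cube n × Cube n => F p.1)
    rw [← h2]
    rfl
  rw [Fintype.sum_prod_type, Fintype.sum_prod_type] at h1
  simp only [sum_const, card_univ, Fintype.card_fun, Fintype.card_bool, Fintype.card_fin,
    nsmul_eq_mul] at h1
  unfold ex
  rw [← sum_div, h1, ← mul_sum, div_div]
  push_cast
  have h2 : (2 : ℝ) ^ n ≠ 0 := by positivity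
  field_simp

theorem lv_ask (L : List (PA n)) (m : ℕ) (ρ : PA n) (V : Finset (Fin n)) :
    ex (fun y => lv L m (ask ρ V y)) = ex (fun y => (2 : ℝ) ^ (qn L y m (ask ρ V y))) := by
  rw [← ex_mrg V (fun y => (2 : ℝ) ^ (qn L y m (ask ρ V y)))]
  refine ex_congr fun y => ?_
  unfold lv
  refine ex_congr fun y' => ?_
  have e : ask ρ V (mrg V y y') = ask ρ V y := by
    funext i
    unfold ask mrg
    by_cases hi : i ∈ V
    · simp [hi]
    · simp [hi]
  show _ = (2 : ℝ) ^ (qn L (mrg V y y') m (ask ρ V (mrg V y y')))
  rw [e]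
  congr 1
  refine qn_congr L _ _ m _ fun i hi => ?_
  unfold ask at hi
  by_cases h : i ∈ V
  · simp [h] at hi
  · unfold mrg
    rw [if_neg h]

lemma lv_succ (L : List (PA n)) (m : ℕ) (ρ : PA n) :
    lv L (m + 1) ρ = 2 ^ (blk L ρ).card * ex (fun y => lv L m (ask ρ (blk L ρ) y)) := by
  rw [lv_ask, ← ex_smul]
  unfold lv
  refine ex_congr fun y => ?_
  rw [qn_succ', pow_add]
  rfl

lemma one_le_lv (L : List (PA n)) (m : ℕ) (ρ : PA n) : 1 ≤ lv L m ρ := by
  unfold lv
  calc (1 : ℝ) = ex (fun _ : Cube n => (1 : ℝ)) := (ex_const 1).symm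
    _ ≤ _ := ex_mono fun y => one_le_pow₀ (by norm_num)

end Pool.Agent.Work.MP_56168e_lc
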