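import Mathlib
import Pool.Agent.Work.MP_56168e_lc.BlkN
import Pool.Agent.Work.MP_56168e_lc.Resm

set_option autoImplicit false

/-!
The number of leaves bounds the norm and the energy.  PROOF.  Induction on m: if at most m
variables are free in ρ then nrm (res ρ (fi L)) ≤ lv L m ρ and nrg 2 (res ρ (fi L)) ≤ lv L m ρ.
If blk L ρ = ∅: either all terms are falsified by ρ and res ρ (fi L) = 0, or the first
non-falsified term has no free variable and is satisfied by ow ρ x for all x, res ρ (fi L) = 1; in
both cases nrm, nrg ≤ 1 ≤ lv.  Otherwise V = blk L ρ is a nonempty set of free variables (so m ≥ 1),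
nrm_ask/nrg_ask, the induction hypothesis for ask ρ V y (fewer free variables) and lv_succ.
Apply with m = n.
-/

namespace Pool.Agent.Work.MP_56168e_lc

open Finset

variable {n : ℕ}

private lemma LeafN_const {L : List (PA n)} {ρ : PA n} (h : blk L ρ = ∅) :
    res ρ (fi L) = (fun _ => 0) ∨ res ρ (fi L) = (fun _ => 1) := by
  classical
  cases hf : fnf L ρ with
  | none =>
    left
    funext x
    unfold res fi
    rw [if_neg]
    rintro ⟨T, hT, hs⟩
    obtain ⟨i, b, b', h1, h2, h3⟩ := fnf_none hf T hT
    have h4 := hs i b h1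
    unfold ow at h4
    rw [h2] at h4
    exact h3 h4.symm
  | some T =>
    right
    have h0 : fr T ρ = ∅ := by
      unfold blk at h
      rw [hf] at h
      exact h
    funext x
    unfold res fi
    rw [if_pos]
    refine ⟨T, (fnf_some hf).1, fun i b hb => ?_⟩
    cases hρ : ρ i with
    | none =>
      exfalso
      have : i ∈ fr T ρ := by
        simp only [fr, mem_filter, mem_univ, true_and]
        exact ⟨by rw [hb]; simp, hρ⟩
      rw [h0] at this
      exact absurd this (notMem_empty i)
    | some b' =>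
      unfold ow
      rw [hρ]
      show b' = b
      by_contra hne
      exact (fnf_some hf).2 ⟨i, b, b', hb, hρ, fun h => hne h.symm⟩

private lemma LeafN_ind (N : (Cube n → ℝ) → ℝ) (L : List (PA n))
    (h0 : N (fun _ => 0) ≤ 1) (h1 : N (fun _ => 1) ≤ 1)
    (hN : ∀ (ρ : PA n) (V : Finset (Fin n)), (∀ i ∈ V, ρ i = none) →
      N (res ρ (fi L)) ≤ 2 ^ V.card * ex (fun y => N (res (ask ρ V y) (fi L)))) (m : ℕ) :
    ∀ ρ : PA n, (univ.filter (fun i => ρ i = none)).card ≤ m → N (res ρ (fi L)) ≤ lv L m ρ := by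
  classical
  have hempty : ∀ (m : ℕ) (ρ : PA n), blk L ρ = ∅ → N (res ρ (fi L)) ≤ lv L m ρ := by
    intro m ρ h
    refine le_trans ?_ (one_le_lv L m ρ)
    rcases LeafN_const h with h2 | h2
    · rw [h2]
      exact h0
    · rw [h2]
      exact h1
  induction m with
  | zero =>
    intro ρ hρ
    apply hempty
    rw [Nat.le_zero, card_eq_zero] at hρ
    rw [eq_empty_iff_forall_notMem]
    intro i hi
    have h2 := blk_free L ρ hi
    have h3 : i ∈ univ.filter (fun i => ρ i = none) := mem_filter.2 ⟨mem_univ i, h2⟩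
    rw [hρ] at h3
    exact absurd h3 (notMem_empty i)
  | succ m ih =>
    intro ρ hρ
    by_cases hb : blk L ρ = ∅
    · exact hempty _ ρ hb
    · rw [lv_succ]
      refine (hN ρ (blk L ρ) fun i hi => blk_free L ρ hi).trans ?_
      refine mul_le_mul_of_nonneg_left (ex_mono fun y => ih _ ?_) (by positivity)
      obtain ⟨i, hi⟩ := nonempty_iff_ne_empty.2 hb
      have h2 : (univ.filter (fun j => ask ρ (blk L ρ) y j = none)) ⊆
          (univ.filter (fun j => ρ j = none)).erase i := by
        intro j hj
        have h3 := (mem_filter.1 hj).2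
        unfold ask at h3
        by_cases h4 : j ∈ blk L ρ
        · simp [h4] at h3
        · rw [if_neg h4] at h3
          rw [mem_erase]
          exact ⟨fun h => h4 (h ▸ hi), mem_filter.2 ⟨mem_univ j, h3⟩⟩
      have h5 := card_le_card h2
      rw [card_erase_of_mem (mem_filter.2 ⟨mem_univ i, blk_free L ρ hi⟩)] at h5
      omega

private lemma LeafN_nrg (c : ℝ) (hc : c ^ 2 ≤ 1) : nrg 2 (fun _ : Cube n => c) ≤ 1 := by
  classical
  have h1 : ∀ S : Finset (Fin n), fc (fun _ : Cube n => c) S = if S = ∅ then c else 0 := by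
    intro S
    unfold fc
    rw [ex_smul]
    have h2 := ex_chi S
    rw [show ex (fun x => chi S x) = ex (chi S) from rfl, h2]
    split_ifs <;> simp
  unfold nrg
  rw [sum_eq_single ∅]
  · rw [h1, if_pos rfl, card_empty, pow_zero, one_mul]
    exact hc
  · intro S _ hS
    rw [h1, if_neg hS]
    ring
  · intro h
    exact absurd (mem_univ _) h

theorem nrm_le_lv (L : List (PA n)) (ρ : PA n) : nrm (res ρ (fi L)) ≤ lv L n ρ := by
  refine LeafN_ind nrm L ?_ ?_ (fun ρ V hV => nrm_ask (fi L) ρ V hV) n ρ ?_
  · rw [nrm_const, abs_zero]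
    norm_num
  · rw [nrm_const, abs_one]
  · exact (card_le_univ _).trans (by simp)

theorem nrg_le_lv (L : List (PA n)) (ρ : PA n) : nrg 2 (res ρ (fi L)) ≤ lv L n ρ := by
  refine LeafN_ind (nrg 2) L (LeafN_nrg 0 (by norm_num)) (LeafN_nrg 1 (by norm_num))
    (fun ρ V hV => nrg_ask (fi L) ρ V hV) n ρ ?_
  exact (card_le_univ _).trans (by simp)

end Pool.Agent.Work.MP_56168e_lc
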