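import Mathlib
import Pool.Agent.Work.MP_56168e_lc.Four

set_option autoImplicit false

/-!
Energy of a random restriction.  PROOF.  For a ∈ {0,1} (i ∈ Q or not) and b ∈ {0,1} (i ∈ S or not)
put κ(none, a, b) = [a = b], κ(some v, a, b) = (sign v)^a [b = 0] (sign true = -1, false = 1).  Then
ex (fun x => chi Q (ow ρ x) * chi S x) = ∏_i κ(ρ i, i ∈ Q, i ∈ S), so by inversion
fc (res ρ g) S = ∑_Q fc g Q ∏_i κ(ρ i, i∈Q, i∈S).  Insert this in the left side, exchange sums and
products (`Finset.prod_univ_sum`, subsets S ↔ functions Fin n → Bool): the factor of i in the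
coefficient of fc g Q * fc g Q' is ∑_{o ∈ Option Bool, b} w(o) 2^b κ(o,a,b) κ(o,a',b)
= [a = a'] (1 - p + p 2^a), w(none) = p, w(some _) = (1-p)/2.  So the sum is
∑_Q (fc g Q)^2 (1+p)^|Q|.
(Any other proof is welcome, e.g. for fixed set J of free variables: the mean over the fixed values
of fc (res ρ g) S ^2 is the sum of fc g Q ^2 over Q with Q ∩ J = S.)
-/

namespace Pool.Agent.Work.MP_56168e_lc

open Finset

variable {n : ℕ}

private noncomputable def sg (c : Bool) : ℝ := if c = true then -1 else 1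

/-- the local factor -/
private noncomputable def kap (o : Option Bool) (a b : Bool) : ℝ :=
  match o with
  | none => if a = b then 1 else 0
  | some v => if b = true then 0 else if a = true then sg v else 1

private lemma ResE_ex_prod (h : Fin n → Bool → ℝ) :
    ex (fun x => ∏ i, h i (x i)) = ∏ i, ((h i true + h i false) / 2) := by
  unfold ex
  have h1 : ∏ i : Fin n, ∑ c ∈ (univ : Finset Bool), h i c =
      ∑ x : Cube n, ∏ i, h i (x i) := by
    rw [prod_univ_sum, Fintype.piFinset_univ]
  rw [← h1]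
  have h2 : (2 : ℝ) ^ n = ∏ _i : Fin n, (2 : ℝ) := by simp
  rw [h2, ← prod_div_distrib]
  refine prod_congr rfl fun i _ => ?_
  rw [Fintype.sum_bool]

private lemma ResE_chi (S : Finset (Fin n)) (x : Cube n) :
    chi S x = ∏ i, (if decide (i ∈ S) = true then sg (x i) else 1) := by
  unfold chi
  rw [← prod_filter_mul_prod_filter_not univ (fun i => i ∈ S)]
  have h1 : ∏ i ∈ univ.filter (fun i => ¬ i ∈ S), (if decide (i ∈ S) = true then sg (x i) else 1) =
      1 := by
    refine prod_eq_one fun i hi => ?_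
    rw [if_neg]
    simpa using (mem_filter.1 hi).2
  rw [h1, mul_one]
  have h2 : univ.filter (fun i => i ∈ S) = S := by
    ext i
    simp
  rw [h2]
  refine prod_congr rfl fun i hi => ?_
  show sg (x i) = (if decide (i ∈ S) = true then sg (x i) else 1)
  rw [if_pos (show decide (i ∈ S) = true by simpa using hi)]

private lemma ResE_loc (ρ : PA n) (Q S : Finset (Fin n)) :
    ex (fun x => chi Q (ow ρ x) * chi S x) =
      ∏ i, kap (ρ i) (decide (i ∈ Q)) (decide (i ∈ S)) := by
  have h1 := ResE_ex_prod (n := n) (fun i c =>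
    (if decide (i ∈ Q) = true then sg ((ρ i).getD c) else 1) *
      (if decide (i ∈ S) = true then sg c else 1))
  have h2 : ex (fun x => chi Q (ow ρ x) * chi S x) = ex (fun x : Cube n => ∏ i,
      ((if decide (i ∈ Q) = true then sg ((ρ i).getD (x i)) else 1) *
      (if decide (i ∈ S) = true then sg (x i) else 1))) := by
    refine ex_congr fun x => ?_
    rw [ResE_chi, ResE_chi, ← prod_mul_distrib]
    rfl
  rw [h2, h1]
  refine prod_congr rfl fun i _ => ?_
  generalize decide (i ∈ Q) = a
  generalize decide (i ∈ S) = b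
  cases ρ i with
  | none => cases a <;> cases b <;> norm_num [kap, sg]
  | some v => cases v <;> cases a <;> cases b <;> norm_num [kap, sg]

private lemma ResE_fc (ρ : PA n) (g : Cube n → ℝ) (S : Finset (Fin n)) :
    fc (res ρ g) S = ∑ Q, fc g Q * ∏ i, kap (ρ i) (decide (i ∈ Q)) (decide (i ∈ S)) := by
  have h1 : fc (res ρ g) S = ex (fun x => ∑ Q, fc g Q * (chi Q (ow ρ x) * chi S x)) := by
    unfold fc res
    refine ex_congr fun x => ?_
    rw [inversion g (ow ρ x), sum_mul]
    refine sum_congr rfl fun Q _ => ?_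
    unfold fc
    ring
  rw [h1, ex_sum]
  refine sum_congr rfl fun Q _ => ?_
  rw [ex_smul, ResE_loc]

private lemma ResE_sumS (f : Fin n → Bool → ℝ) :
    ∑ S : Finset (Fin n), ∏ i, f i (decide (i ∈ S)) = ∏ i, (f i true + f i false) := by
  rw [prod_add, powerset_univ]
  refine sum_congr rfl fun S _ => ?_
  rw [← prod_sdiff (subset_univ S), mul_comm]
  congr 1
  · refine prod_congr rfl fun i hi => ?_
    rw [show decide (i ∈ S) = true by simpa using hi]
  · refine prod_congr rfl fun i hi => ?_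
    rw [show decide (i ∈ S) = false by simpa using hi]

private lemma ResE_sumR (f : Fin n → Option Bool → ℝ) :
    ∑ ρ : PA n, ∏ i, f i (ρ i) = ∏ i, (f i none + (f i (some true) + f i (some false))) := by
  have h1 : ∏ i : Fin n, ∑ c ∈ (univ : Finset (Option Bool)), f i c =
      ∑ x : PA n, ∏ i, f i (x i) := by
    rw [prod_univ_sum, Fintype.piFinset_univ]
  rw [← h1]
  refine prod_congr rfl fun i _ => ?_
  rw [Fintype.sum_option, Fintype.sum_bool]

private lemma ResE_core (p : ℝ) (Q Q' : Finset (Fin n)) :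
    ∑ ρ : PA n, ∑ S : Finset (Fin n), wt p ρ * (2 ^ S.card *
      ((∏ i, kap (ρ i) (decide (i ∈ Q)) (decide (i ∈ S))) *
        (∏ i, kap (ρ i) (decide (i ∈ Q')) (decide (i ∈ S))))) =
      if Q = Q' then (1 + p) ^ Q.card else 0 := by
  let F : Fin n → Option Bool → Bool → ℝ := fun i o b =>
    (if o = none then p else (1 - p) / 2) * ((if b = true then 2 else 1) *
      (kap o (decide (i ∈ Q)) b * kap o (decide (i ∈ Q')) b))
  have h2 : ∀ S : Finset (Fin n), (2 : ℝ) ^ S.card =
      ∏ i, (if decide (i ∈ S) = true then (2 : ℝ) else 1) := by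
    intro S
    have : ∏ i, (if decide (i ∈ S) = true then (2 : ℝ) else 1) =
        ∏ i : Fin n, (if i ∈ S then (2 : ℝ) else 1) :=
      prod_congr rfl fun i _ => by simp
    rw [this, prod_ite_mem, univ_inter, prod_const]
  have h1 : ∀ (ρ : PA n) (S : Finset (Fin n)), wt p ρ * (2 ^ S.card *
      ((∏ i, kap (ρ i) (decide (i ∈ Q)) (decide (i ∈ S))) *
        (∏ i, kap (ρ i) (decide (i ∈ Q')) (decide (i ∈ S))))) =
      ∏ i, F i (ρ i) (decide (i ∈ S)) := by
    intro ρ S
    rw [h2, ← prod_mul_distrib, ← prod_mul_distrib]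
    unfold wt
    rw [← prod_mul_distrib]
  simp only [h1]
  have h3 : ∀ ρ : PA n, ∑ S : Finset (Fin n), ∏ i, F i (ρ i) (decide (i ∈ S)) =
      ∏ i, (F i (ρ i) true + F i (ρ i) false) := fun ρ => ResE_sumS (fun i b => F i (ρ i) b)
  simp only [h3]
  rw [ResE_sumR (fun i o => F i o true + F i o false)]
  have h4 : ∀ i : Fin n, (F i none true + F i none false) +
      ((F i (some true) true + F i (some true) false) +
        (F i (some false) true + F i (some false) false)) =
      if decide (i ∈ Q) = decide (i ∈ Q') then (if i ∈ Q then 1 + p else 1) else 0 := by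
    intro i
    have w1 : (if (none : Option Bool) = none then p else (1 - p) / 2) = p := if_pos rfl
    have w2 : ∀ v : Bool, (if (some v : Option Bool) = none then p else (1 - p) / 2) =
        (1 - p) / 2 := fun v => if_neg (by simp)
    simp only [F, w1, w2]
    by_cases hq : i ∈ Q
    · by_cases hq' : i ∈ Q'
      · simp only [hq, hq', decide_true, kap, sg]
        norm_num
        ring
      · simp only [hq, hq', decide_true, decide_false, kap, sg]
        norm_num
    · by_cases hq' : i ∈ Q'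
      · simp only [hq, hq', decide_true, decide_false, kap, sg]
        norm_num
      · simp only [hq, hq', decide_false, kap, sg]
        norm_num
        try ring
  rw [prod_congr rfl fun i _ => h4 i]
  by_cases hQ : Q = Q'
  · subst hQ
    rw [if_pos rfl]
    have : ∏ i : Fin n, (if decide (i ∈ Q) = decide (i ∈ Q) then (if i ∈ Q then 1 + p else 1)
        else 0) = ∏ i : Fin n, (if i ∈ Q then 1 + p else 1) :=
      prod_congr rfl fun i _ => by simp
    rw [this, prod_ite_mem, univ_inter, prod_const]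
  · rw [if_neg hQ]
    obtain ⟨i, hi⟩ : ∃ i, ¬ (i ∈ Q ↔ i ∈ Q') := by
      by_contra hcon
      push Not at hcon
      exact hQ (Finset.ext hcon)
    refine prod_eq_zero (mem_univ i) ?_
    rw [if_neg]
    intro h
    apply hi
    by_cases h5 : i ∈ Q <;> by_cases h6 : i ∈ Q' <;> simp [h5, h6] at h ⊢

private lemma ResE_comm {α β : Type*} [Fintype α] [Fintype β] (X : α → β → β → β → ℝ) :
    ∑ ρ, ∑ S, ∑ Q, ∑ Q', X ρ S Q Q' = ∑ Q, ∑ Q', ∑ ρ, ∑ S, X ρ S Q Q' := by
  have h1 : ∀ ρ, ∑ S, ∑ Q, ∑ Q', X ρ S Q Q' = ∑ Q, ∑ Q', ∑ S, X ρ S Q Q' := by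
    intro ρ
    rw [sum_comm]
    refine sum_congr rfl fun Q _ => ?_
    rw [sum_comm]
  simp only [h1]
  rw [sum_comm]
  refine sum_congr rfl fun Q _ => ?_
  rw [sum_comm]

theorem sum_nrg_res (p : ℝ) (g : Cube n → ℝ) :
    ∑ ρ : PA n, wt p ρ * nrg 2 (res ρ g) = nrg (1 + p) g := by
  have h1 : ∀ ρ : PA n, wt p ρ * nrg 2 (res ρ g) = ∑ S : Finset (Fin n), ∑ Q : Finset (Fin n),
      ∑ Q' : Finset (Fin n), fc g Q * fc g Q' * (wt p ρ * (2 ^ S.card *
      ((∏ i, kap (ρ i) (decide (i ∈ Q)) (decide (i ∈ S))) *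
        (∏ i, kap (ρ i) (decide (i ∈ Q')) (decide (i ∈ S)))))) := by
    intro ρ
    unfold nrg
    rw [mul_sum]
    refine sum_congr rfl fun S _ => ?_
    rw [ResE_fc ρ g, sq, sum_mul_sum, mul_sum, mul_sum]
    refine sum_congr rfl fun Q _ => ?_
    rw [mul_sum, mul_sum]
    refine sum_congr rfl fun Q' _ => ?_
    ring
  simp only [h1]
  rw [ResE_comm]
  have h2 : ∀ Q Q' : Finset (Fin n), ∑ ρ : PA n, ∑ S : Finset (Fin n),
      fc g Q * fc g Q' * (wt p ρ * (2 ^ S.card *
      ((∏ i, kap (ρ i) (decide (i ∈ Q)) (decide (i ∈ S))) *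
        (∏ i, kap (ρ i) (decide (i ∈ Q')) (decide (i ∈ S)))))) =
      fc g Q * fc g Q' * (if Q = Q' then (1 + p) ^ Q.card else 0) := by
    intro Q Q'
    rw [← ResE_core, mul_sum]
    refine sum_congr rfl fun ρ _ => ?_
    rw [mul_sum]
  simp only [h2]
  unfold nrg
  refine sum_congr rfl fun Q _ => ?_
  rw [sum_eq_single Q]
  · rw [if_pos rfl]
    ring
  · intro Q' _ h
    rw [if_neg h.symm, mul_zero]
  · intro h
    exact absurd (mem_univ _) h

end Pool.Agent.Work.MP_56168e_lc
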