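import Mathlib
import Pool.Agent.Work.MP_56168e_lc.Nrm

set_option autoImplicit false

/-!
Truncation of the Fourier expansion.  fc_tr from fc_chi and linearity; the rest from parseval:
ex (g^2) = ∑ fc^2.  tr_err: ∑_{|S| ≥ k} fc^2 ≤ t^(-k) ∑ t^|S| fc^2 for t ≥ 1.
-/

namespace Pool.Agent.Work.MP_56168e_lc

open Finset

variable {n : ℕ}

lemma fc_tr (k : ℕ) (g : Cube n → ℝ) (S : Finset (Fin n)) :
    fc (tr k g) S = if S.card < k then fc g S else 0 := by
  have h1 : tr k g = fun x => ∑ Q ∈ (univ : Finset (Finset (Fin n))).filter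
      (fun S => S.card < k), (fun Q x => fc g Q * chi Q x) Q x := rfl
  rw [h1, fc_sum]
  have h2 : ∀ Q : Finset (Fin n), fc (fun x => fc g Q * chi Q x) S
      = if Q = S then fc g Q else 0 := by
    intro Q
    rw [fc_smul, fc_chi]
    split_ifs <;> simp
  rw [Finset.sum_congr rfl fun Q _ => h2 Q, Finset.sum_ite_eq']
  simp

private lemma trf_sq (g : Cube n → ℝ) : ex (fun x => g x ^ 2) = ∑ S, fc g S ^ 2 := by
  have := parseval g g
  simpa only [pow_two] using this

lemma tr_sq_le (k : ℕ) (g : Cube n → ℝ) :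
    ex (fun x => tr k g x ^ 2) ≤ ex (fun x => g x ^ 2) := by
  rw [trf_sq, trf_sq]
  refine Finset.sum_le_sum fun S _ => ?_
  rw [fc_tr]
  split_ifs
  · exact le_rfl
  · rw [zero_pow (by norm_num)]
    exact sq_nonneg _

theorem tr_err (k : ℕ) (g : Cube n → ℝ) {t : ℝ} (ht : 1 ≤ t) :
    ex (fun x => (g x - tr k g x) ^ 2) ≤ nrg t g / t ^ k := by
  have ht0 : 0 < t := by linarith
  rw [trf_sq (fun x => g x - tr k g x)]
  unfold nrg
  rw [Finset.sum_div]
  refine Finset.sum_le_sum fun S _ => ?_
  have h1 : fc (fun x => g x - tr k g x) S = fc g S - fc (tr k g) S := by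
    unfold fc
    rw [← ex_sub]
    exact ex_congr fun x => by ring
  rw [h1, fc_tr]
  split_ifs with h
  · rw [sub_self, zero_pow (by norm_num)]
    positivity
  · rw [sub_zero, le_div_iff₀ (by positivity), mul_comm]
    refine mul_le_mul_of_nonneg_right ?_ (sq_nonneg _)
    exact pow_le_pow_right₀ ht (by omega)

/-- if all level sums are at most `a^j` times 2 then the truncation has small norm -/
theorem nrm_tr_le (k : ℕ) (g : Cube n → ℝ) {a : ℝ} (ha : 3 ≤ a)
    (h : ∀ j : ℕ, ∑ S ∈ (univ : Finset (Finset (Fin n))).filter (fun S => S.card = j), |fc g S|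
      ≤ 2 * a ^ j) : nrm (tr k g) ≤ a ^ k := by
  have h1 : nrm (tr k g) = ∑ j ∈ Finset.range k,
      ∑ S ∈ (univ : Finset (Finset (Fin n))).filter (fun S => S.card = j), |fc g S| := by
    unfold nrm
    have h2 : ∀ S : Finset (Fin n), |fc (tr k g) S|
        = ∑ j ∈ Finset.range k, if S.card = j then |fc g S| else 0 := by
      intro S
      rw [fc_tr, Finset.sum_ite_eq]
      simp only [Finset.mem_range]
      split_ifs <;> simp
    rw [Finset.sum_congr rfl fun S _ => h2 S, Finset.sum_comm]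
    refine Finset.sum_congr rfl fun j _ => ?_
    rw [Finset.sum_filter]
  rw [h1]
  have h3 : ∀ m : ℕ, ∑ j ∈ Finset.range m, (2 : ℝ) * a ^ j ≤ a ^ m := by
    intro m
    induction m with
    | zero => simp
    | succ m ih =>
      rw [Finset.sum_range_succ, pow_succ]
      have : 0 < a ^ m := by positivity
      nlinarith
  exact (Finset.sum_le_sum fun j _ => h j).trans (h3 k)

end Pool.Agent.Work.MP_56168e_lc
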