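import Mathlib
import Pool.Agent.Work.MP_56168e_lc.ResE
import Pool.Agent.Work.MP_56168e_lc.EkSum
import Pool.Agent.Work.MP_56168e_lc.LeafN
import Pool.Agent.Work.MP_56168e_lc.TrF

set_option autoImplicit false

/-!
Fourier concentration and spectral norm of DNFs of width w (Hastad, Linial-Mansour-Nisan, Mansour).
PROOF.  p = 1/(13w).  nrg (1+p) f = ∑ wt nrg 2 (res ρ f) ≤ ∑ wt lv ≤ 2 (sum_nrg_res, nrg_le_lv,
sum_lv).  Level j: p^j ∑_{|S|=j} |fc f S| = ∑_{|S|=j} |∑_ρ wt fc (res ρ f) S| ≤ ∑_ρ wt nrm (res ρ f)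
≤ ∑ wt lv ≤ 2 (sum_fc_res, nrm_le_lv), so the level sum is ≤ 2 (13w)^j; then nrm_tr_le, tr_err.
-/

namespace Pool.Agent.Work.MP_56168e_lc

open Finset

variable {n : ℕ}

noncomputable def tau (w k : ℕ) : ℝ := 2 / (1 + 1 / (13 * w)) ^ k
noncomputable def Lam (w k : ℕ) : ℝ := (13 * w) ^ k

private lemma Conc_p {w : ℕ} (hw : 1 ≤ w) : 0 < (1 / (13 * w) : ℝ) ∧ (1 / (13 * w) : ℝ) ≤ 1 := by
  have h1 : (1 : ℝ) ≤ w := by exact_mod_cast hw
  refine ⟨by positivity, ?_⟩
  rw [div_le_one (by positivity)]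
  linarith

theorem conc_err (L : List (PA n)) (w k : ℕ) (hw : 1 ≤ w) (hL : ∀ T ∈ L, (dom T).card ≤ w) :
    ex (fun x => (fi L x - tr k (fi L) x) ^ 2) ≤ tau w k := by
  obtain ⟨h0, h1⟩ := Conc_p hw
  have h2 : nrg (1 + 1 / (13 * w)) (fi L) ≤ 2 := by
    rw [← sum_nrg_res]
    refine le_trans (sum_le_sum fun ρ _ => ?_) (sum_lv L w hw hL)
    exact mul_le_mul_of_nonneg_left (nrg_le_lv L ρ) (wt_nonneg h0.le h1 ρ)
  refine (tr_err k (fi L) (t := 1 + 1 / (13 * w)) (by linarith)).trans ?_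
  unfold tau
  exact div_le_div_of_nonneg_right h2 (pow_nonneg (by linarith) k)

theorem conc_nrm (L : List (PA n)) (w k : ℕ) (hw : 1 ≤ w) (hL : ∀ T ∈ L, (dom T).card ≤ w) :
    nrm (tr k (fi L)) ≤ Lam w k := by
  obtain ⟨h0, h1⟩ := Conc_p hw
  have hw1 : (1 : ℝ) ≤ w := by exact_mod_cast hw
  refine nrm_tr_le k (fi L) (by linarith) fun j => ?_
  have h2 : (1 / (13 * w) : ℝ) ^ j *
      ∑ S ∈ (univ : Finset (Finset (Fin n))).filter (fun S => S.card = j), |fc (fi L) S| ≤ 2 := by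
    calc (1 / (13 * w) : ℝ) ^ j *
        ∑ S ∈ (univ : Finset (Finset (Fin n))).filter (fun S => S.card = j), |fc (fi L) S|
        = ∑ S ∈ (univ : Finset (Finset (Fin n))).filter (fun S => S.card = j),
            |∑ ρ : PA n, wt (1 / (13 * w)) ρ * fc (res ρ (fi L)) S| := by
          rw [mul_sum]
          refine sum_congr rfl fun S hS => ?_
          rw [sum_fc_res, (mem_filter.1 hS).2, abs_mul, abs_of_nonneg (pow_nonneg h0.le j)]
      _ ≤ ∑ S ∈ (univ : Finset (Finset (Fin n))).filter (fun S => S.card = j),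
            ∑ ρ : PA n, wt (1 / (13 * w)) ρ * |fc (res ρ (fi L)) S| := by
          refine sum_le_sum fun S _ => (abs_sum_le_sum_abs _ _).trans (sum_le_sum fun ρ _ => ?_)
          rw [abs_mul, abs_of_nonneg (wt_nonneg h0.le h1 ρ)]
      _ = ∑ ρ : PA n, wt (1 / (13 * w)) ρ *
            ∑ S ∈ (univ : Finset (Finset (Fin n))).filter (fun S => S.card = j),
              |fc (res ρ (fi L)) S| := by
          rw [sum_comm]
          refine sum_congr rfl fun ρ _ => ?_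
          rw [mul_sum]
      _ ≤ ∑ ρ : PA n, wt (1 / (13 * w)) ρ * lv L n ρ := by
          refine sum_le_sum fun ρ _ => mul_le_mul_of_nonneg_left ?_ (wt_nonneg h0.le h1 ρ)
          refine le_trans ?_ (nrm_le_lv L ρ)
          unfold nrm
          exact sum_le_sum_of_subset_of_nonneg (filter_subset _ _) fun _ _ _ => abs_nonneg _
      _ ≤ 2 := sum_lv L w hw hL
  have h3 : (1 / (13 * w) : ℝ) ^ j * (13 * w) ^ j = 1 := by
    rw [← mul_pow, one_div, inv_mul_cancel₀ (by positivity), one_pow]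
  have h4 : (0 : ℝ) < (13 * w) ^ j := by positivity
  calc ∑ S ∈ (univ : Finset (Finset (Fin n))).filter (fun S => S.card = j), |fc (fi L) S|
      = ((1 / (13 * w) : ℝ) ^ j *
        ∑ S ∈ (univ : Finset (Finset (Fin n))).filter (fun S => S.card = j), |fc (fi L) S|) *
          (13 * w) ^ j := by
        rw [mul_comm ((1 / (13 * w) : ℝ) ^ j), mul_assoc, h3, mul_one]
    _ ≤ 2 * (13 * w) ^ j := mul_le_mul_of_nonneg_right h2 h4.le

lemma one_le_Lam (w k : ℕ) (hw : 1 ≤ w) : 1 ≤ Lam w k := by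
  have hw1 : (1 : ℝ) ≤ w := by exact_mod_cast hw
  unfold Lam
  exact one_le_pow₀ (by linarith)

lemma tau_pos (w k : ℕ) : 0 < tau w k := by
  unfold tau
  positivity

end Pool.Agent.Work.MP_56168e_lc
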