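import Mathlib
import Pool.Agent.Work.MP_56168e_lc.Four

set_option autoImplicit false

/-!
Independence.  `Indep U g`: g does not depend on the variables in U.
PROOFS.  indep_fc: if i ∈ S ∩ U, flip coordinate i.  indep_of_fc: inversion; chi S depends only on
the variables in S.  ex_mul_indep: parseval; fc g S * fc h S = 0 unless S is disjoint from U and
from Uᶜ, i.e. S = ∅.  ex_prod_indep: induction on the finset s with ex_mul_indep (the product of
the others does not depend on U i for the new index i).
-/

namespace Pool.Agent.Work.MP_56168e_lc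

open Finset

variable {n : ℕ}

private def indf_fl (i : Fin n) (x : Cube n) : Cube n := Function.update x i (!(x i))

private lemma indf_fl_inv (i : Fin n) : Function.Involutive (indf_fl i) := by
  intro x
  unfold indf_fl
  funext j
  by_cases h : j = i
  · subst h; simp
  · simp [h]

private lemma indf_chi_fl {S : Finset (Fin n)} {i : Fin n} (hi : i ∈ S) (x : Cube n) :
    chi S (indf_fl i x) = - chi S x := by
  unfold chi
  rw [← Finset.mul_prod_erase S _ hi, ← Finset.mul_prod_erase S _ hi, ← neg_mul]
  congr 1
  · unfold indf_fl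
    simp only [Function.update_self]
    cases x i <;> simp
  · refine Finset.prod_congr rfl fun j hj => ?_
    have : j ≠ i := Finset.ne_of_mem_erase hj
    unfold indf_fl
    rw [Function.update_of_ne this]

lemma indep_fc {U : Finset (Fin n)} {g : Cube n → ℝ} (h : Indep U g) {S : Finset (Fin n)}
    (hS : ¬ Disjoint S U) : fc g S = 0 := by
  obtain ⟨i, hiS, hiU⟩ := Finset.not_disjoint_iff.mp hS
  have h1 : ∑ x : Cube n, g x * chi S x = ∑ x : Cube n, g (indf_fl i x) * chi S (indf_fl i x) :=
    (Equiv.sum_comp (indf_fl_inv i).toPerm (fun x => g x * chi S x)).symm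
  have h2 : ∀ x : Cube n, g (indf_fl i x) = g x := by
    intro x
    apply h
    intro j hj
    have : j ≠ i := by
      rintro rfl
      exact hj hiU
    unfold indf_fl
    rw [Function.update_of_ne this]
  have h3 : ∑ x : Cube n, g x * chi S x = - ∑ x : Cube n, g x * chi S x := by
    conv_lhs => rw [h1]
    rw [← Finset.sum_neg_distrib]
    refine Finset.sum_congr rfl fun x _ => ?_
    rw [h2, indf_chi_fl hiS]
    ring
  have h4 : ∑ x : Cube n, g x * chi S x = 0 := by linarith
  unfold fc ex
  rw [h4, zero_div]

private lemma indf_chi_congr {U S : Finset (Fin n)} (h : Disjoint S U) {x y : Cube n}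
    (hxy : ∀ i, i ∉ U → x i = y i) : chi S x = chi S y := by
  unfold chi
  refine Finset.prod_congr rfl fun i hi => ?_
  rw [hxy i (Finset.disjoint_left.mp h hi)]

lemma indep_of_fc {U : Finset (Fin n)} {g : Cube n → ℝ}
    (h : ∀ S : Finset (Fin n), ¬ Disjoint S U → fc g S = 0) : Indep U g := by
  intro x y hxy
  rw [inversion g x, inversion g y]
  refine Finset.sum_congr rfl fun S _ => ?_
  by_cases hS : Disjoint S U
  · rw [indf_chi_congr hS hxy]
  · rw [h S hS, zero_mul, zero_mul]

lemma indep_tr {U : Finset (Fin n)} {g : Cube n → ℝ} (h : Indep U g) (k : ℕ) :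
    Indep U (tr k g) := by
  intro x y hxy
  unfold tr
  refine Finset.sum_congr rfl fun S _ => ?_
  by_cases hS : Disjoint S U
  · rw [indf_chi_congr hS hxy]
  · rw [indep_fc h hS, zero_mul, zero_mul]

lemma indep_ti (T : PA n) {U : Finset (Fin n)} (h : Disjoint (dom T) U) : Indep U (ti T) := by
  intro x y hxy
  have key : Sat T x ↔ Sat T y := by
    constructor
    · intro hs i b hb
      rw [← hxy i (Finset.disjoint_left.mp h ((mem_dom T i).mpr (by rw [hb]; simp)))]
      exact hs i b hb
    · intro hs i b hb
      rw [hxy i (Finset.disjoint_left.mp h ((mem_dom T i).mpr (by rw [hb]; simp)))]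
      exact hs i b hb
  unfold ti
  by_cases hs : Sat T x
  · rw [if_pos hs, if_pos (key.mp hs)]
  · rw [if_neg hs, if_neg (fun h' => hs (key.mpr h'))]

theorem ex_mul_indep (U : Finset (Fin n)) {g h : Cube n → ℝ} (hg : Indep U g)
    (hh : Indep Uᶜ h) : ex (fun x => g x * h x) = ex g * ex h := by
  rw [parseval, Finset.sum_eq_single ∅, fc_empty, fc_empty]
  · intro S _ hS
    obtain ⟨i, hi⟩ := Finset.nonempty_iff_ne_empty.mpr hS
    by_cases hU : i ∈ U
    · rw [indep_fc hg (Finset.not_disjoint_iff.mpr ⟨i, hi, hU⟩), zero_mul]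
    · rw [indep_fc hh (Finset.not_disjoint_iff.mpr ⟨i, hi, Finset.mem_compl.mpr hU⟩), mul_zero]
  · intro h
    exact absurd (Finset.mem_univ _) h

theorem ex_prod_indep {ι : Type*} [DecidableEq ι] (s : Finset ι) (g : ι → Cube n → ℝ)
    (U : ι → Finset (Fin n)) (hU : ∀ i ∈ s, Indep (U i)ᶜ (g i))
    (hd : ∀ i ∈ s, ∀ j ∈ s, i ≠ j → Disjoint (U i) (U j)) :
    ex (fun x => ∏ i ∈ s, g i x) = ∏ i ∈ s, ex (g i) := by
  induction s using Finset.induction_on with
  | empty => simp [ex_const]
  | insert a s ha ih =>
    rw [Finset.prod_insert ha]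
    have h1 : ex (fun x => ∏ i ∈ insert a s, g i x) = ex (fun x => (∏ i ∈ s, g i x) * g a x) :=
      ex_congr fun x => by rw [Finset.prod_insert ha, mul_comm]
    rw [h1, ex_mul_indep (U a), ih, mul_comm]
    · exact fun i hi => hU i (Finset.mem_insert_of_mem hi)
    · exact fun i hi j hj => hd i (Finset.mem_insert_of_mem hi) j (Finset.mem_insert_of_mem hj)
    · intro x y hxy
      refine Finset.prod_congr rfl fun i hi => ?_
      apply hU i (Finset.mem_insert_of_mem hi)
      intro j hj
      apply hxy
      intro hja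
      have hji : j ∈ U i := by
        by_contra hc
        exact hj (Finset.mem_compl.mpr hc)
      have hai : a ≠ i := by
        rintro rfl
        exact ha hi
      exact Finset.disjoint_left.mp (hd a (Finset.mem_insert_self _ _) i
        (Finset.mem_insert_of_mem hi) hai) hja hji
    · exact hU a (Finset.mem_insert_self _ _)

end Pool.Agent.Work.MP_56168e_lc
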