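import Mathlib
import Pool.Agent.Work.MP_56168e_lc.TiF
import Pool.Agent.Work.MP_56168e_lc.IndF

set_option autoImplicit false

/-!
Conditional densities.  PROOF.  φ' x = φ (ow T x) / Z, Z = ex (fun y => φ (ow T y)).  By ex_ti_mul
pe φ (ti T * g) = pw T * ex (φ(ow T x) g(ow T x)), in particular pe φ (ti T) = pw T * Z, and
pe φ (ti T) ≥ pw T - ε ≥ pw T / 2 (fool, nrm_ti, ex_ti), so Z > 0.  Bias: if S meets dom T then
fc φ' S = 0 (indep_fc; φ' does not depend on dom T).  Otherwise chi S (ow T x) = chi S x and
fc φ' S = pe φ (ti T * chi S) / (pw T * Z); |pe φ (ti T * chi S)| ≤ |ex (ti T * chi S)| + ε * 1 with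
ex (ti T * chi S) = pw T * ex (chi S) = 0, and pw T * Z ≥ pw T / 2.
-/

namespace Pool.Agent.Work.MP_56168e_lc

open Finset

variable {n : ℕ}

private lemma ow_congr' (ρ : PA n) {x y : Cube n} (h : ∀ i, i ∉ dom ρ → x i = y i) :
    ow ρ x = ow ρ y := by
  funext i
  unfold ow
  cases hi : ρ i with
  | none =>
    have : i ∉ dom ρ := by
      rw [mem_dom, hi]
      simp
    simpa using h i this
  | some b => simp

private lemma chi_ow (T : PA n) (S : Finset (Fin n)) (h : Disjoint S (dom T)) (x : Cube n) :
    chi S (ow T x) = chi S x := by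
  unfold chi
  refine prod_congr rfl fun i hi => ?_
  have h1 : T i = none := by
    by_contra hne
    exact (Finset.disjoint_left.mp h) hi ((mem_dom _ _).mpr hne)
  have h2 : ow T x i = x i := by
    unfold ow
    rw [h1]
    rfl
  rw [h2]

private lemma nrm_chi (S : Finset (Fin n)) : nrm (chi S) = 1 := by
  unfold nrm
  have h1 : ∀ S' : Finset (Fin n), |fc (chi S) S'| = if S = S' then (1 : ℝ) else 0 := by
    intro S'
    rw [fc_chi]
    split_ifs <;> simp
  simp only [h1]
  rw [sum_ite_eq]
  simp

theorem cond {ε : ℝ} {φ : Cube n → ℝ} (hφ : Dens ε φ) (hε : 0 ≤ ε) (T : PA n)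
    (h : 2 * ε ≤ pw T) :
    ∃ φ' : Cube n → ℝ, Dens (2 * ε * 2 ^ (dom T).card) φ' ∧
      ∀ g : Cube n → ℝ, pe φ (fun x => ti T x * g x)
        = pe φ (ti T) * pe φ' (fun x => g (ow T x)) := by
  classical
  set Z : ℝ := ex (fun y => φ (ow T y)) with hZ
  have hpw := pw_pos T
  have hpeT : pe φ (ti T) = pw T * Z := by
    have h1 := ex_ti_mul T φ
    rw [← hZ] at h1
    rw [← h1]
    unfold pe
    exact ex_congr fun x => by ring
  have hb : |pe φ (ti T) - pw T| ≤ ε := by
    have h6 := fool hφ hε (ti T)
    rw [ex_ti] at h6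
    have h7 := mul_le_mul_of_nonneg_left (nrm_ti T) hε
    linarith
  have hZlow : pw T / 2 ≤ pw T * Z := by
    rw [← hpeT]
    linarith [(abs_le.mp hb).1]
  have hZpos : 0 < Z := by
    by_contra hc
    push Not at hc
    nlinarith
  have hmul : ∀ g : Cube n → ℝ, ex (fun x => φ (ow T x) / Z * g x) * Z
      = ex (fun x => φ (ow T x) * g x) := by
    intro g
    rw [mul_comm, ← ex_smul]
    refine ex_congr fun x => ?_
    field_simp
  refine ⟨fun x => φ (ow T x) / Z, ⟨?_, ?_, ?_⟩, ?_⟩
  · intro x
    exact div_nonneg (hφ.nonneg _) hZpos.le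
  · have h1 := hmul (fun _ => 1)
    simp only [mul_one] at h1
    rw [← hZ] at h1
    exact mul_right_cancel₀ hZpos.ne' (by rw [h1, one_mul])
  · intro S hS
    by_cases hd : Disjoint S (dom T)
    · have h1 : fc (fun x => φ (ow T x) / Z) S * Z = ex (fun x => φ (ow T x) * chi S x) := by
        unfold fc
        exact hmul (chi S)
      have h2 : pw T * ex (fun x => φ (ow T x) * chi S x) = pe φ (fun x => ti T x * chi S x) := by
        have h3 := ex_ti_mul T (fun x => φ x * chi S x)
        have h4 : ex (fun x => φ (ow T x) * chi S (ow T x)) = ex (fun x => φ (ow T x) * chi S x) :=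
          ex_congr fun x => by rw [chi_ow T S hd]
        rw [← h4, ← h3]
        unfold pe
        exact ex_congr fun x => by ring
      have h3 : ex (fun x => ti T x * chi S x) = 0 := by
        rw [ex_ti_mul]
        have h4 : ex (fun x => chi S (ow T x)) = ex (chi S) :=
          ex_congr fun x => by rw [chi_ow T S hd]
        rw [h4, ex_chi, if_neg hS.ne_empty, mul_zero]
      have h4 : |pe φ (fun x => ti T x * chi S x)| ≤ ε := by
        have h5 := fool hφ hε (fun x => ti T x * chi S x)
        rw [h3, sub_zero] at h5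
        have h6 : nrm (fun x => ti T x * chi S x) ≤ 1 := by
          refine (nrm_mul_le _ _).trans ?_
          rw [nrm_chi, mul_one]
          exact nrm_ti T
        have h7 := mul_le_mul_of_nonneg_left h6 hε
        linarith
      have h5 : |fc (fun x => φ (ow T x) / Z) S| * (pw T * Z) ≤ ε := by
        have h6 : fc (fun x => φ (ow T x) / Z) S * (pw T * Z)
            = pe φ (fun x => ti T x * chi S x) := by
          rw [← h2, ← h1]
          ring
        rw [← abs_of_pos (mul_pos hpw hZpos), ← abs_mul, h6]
        exact h4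
      have h6 : |fc (fun x => φ (ow T x) / Z) S| * (pw T / 2) ≤ ε :=
        (mul_le_mul_of_nonneg_left hZlow (abs_nonneg _)).trans h5
      have h7 : pw T * 2 ^ (dom T).card = 1 := by
        unfold pw
        rw [← mul_pow]
        norm_num
      have h8 : |fc (fun x => φ (ow T x) / Z) S|
          = (|fc (fun x => φ (ow T x) / Z) S| * (pw T / 2)) * (2 * 2 ^ (dom T).card) := by
        calc |fc (fun x => φ (ow T x) / Z) S|
            = |fc (fun x => φ (ow T x) / Z) S| * (pw T * 2 ^ (dom T).card) := by
              rw [h7, mul_one]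
          _ = _ := by ring
      rw [h8]
      have h9 : (0 : ℝ) ≤ 2 * 2 ^ (dom T).card := by positivity
      refine (mul_le_mul_of_nonneg_right h6 h9).trans (le_of_eq ?_)
      ring
    · have h1 : fc (fun x => φ (ow T x) / Z) S = 0 := by
        refine indep_fc (U := dom T) ?_ hd
        intro x y h
        show φ (ow T x) / Z = φ (ow T y) / Z
        rw [ow_congr' T h]
      rw [h1, abs_zero]
      positivity
  · intro g
    have h1 := ex_ti_mul T (fun x => φ x * g x)
    have h2 : pe φ (fun x => ti T x * g x) = ex (fun x => ti T x * (φ x * g x)) := by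
      unfold pe
      exact ex_congr fun x => by ring
    have h3 : pe (fun x => φ (ow T x) / Z) (fun x => g (ow T x)) * Z
        = ex (fun x => φ (ow T x) * g (ow T x)) := by
      unfold pe
      exact hmul (fun x => g (ow T x))
    rw [h2, h1, hpeT, ← h3]
    ring

end Pool.Agent.Work.MP_56168e_lc
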