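import Mathlib
import Pool.Agent.Work.MP_56168e_lc.Defs2
import Pool.Agent.Work.MP_56168e_lc.TiF
import Pool.Agent.Work.MP_56168e_lc.IndF

set_option autoImplicit false

/-!
Merging pairwise non-dependent terms.  PROOF.  Induction on I (insert i I'): with P' for I', put
P v = if T i v = none then P' v else T i v; the domains are disjoint (keep in the induction that
dom P = the union of the dom (T i), i ∈ I); Sat P x ↔ Sat (T i) x ∧ Sat P' x.
-/

namespace Pool.Agent.Work.MP_56168e_lc

open Finset

variable {n s : ℕ}

private lemma prod_aux (T : Fin s → PA n) (I : Finset (Fin s)) :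
    (∀ i ∈ I, ∀ j ∈ I, ¬ Dp T i j) →
    ∃ P : PA n, (∀ x, ti P x = ∏ i ∈ I, ti (T i) x) ∧ dom P = I.biUnion (fun i => dom (T i)) ∧
      (dom P).card = ∑ i ∈ I, (dom (T i)).card := by
  classical
  induction I using Finset.induction_on with
  | empty =>
    intro _
    refine ⟨fun _ => none, ?_, ?_, ?_⟩
    · intro x
      unfold ti Sat
      simp
    · ext v
      simp [mem_dom]
    · simp [dom]
  | insert a I ha ih =>
    intro hI
    obtain ⟨P, h1, h2, h3⟩ := ih fun i hi j hj =>
      hI i (mem_insert_of_mem hi) j (mem_insert_of_mem hj)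
    have hdis : Disjoint (dom (T a)) (dom P) := by
      rw [h2, disjoint_biUnion_right]
      intro j hj
      by_contra hd
      refine hI a (mem_insert_self _ _) j (mem_insert_of_mem hj) ⟨?_, hd⟩
      rintro rfl
      exact ha hj
    have hdom : dom (fun v => if T a v = none then P v else T a v) = dom (T a) ∪ dom P := by
      ext v
      rw [mem_union, mem_dom, mem_dom, mem_dom]
      by_cases hv : T a v = none
      · simp [hv]
      · simp [hv]
    refine ⟨fun v => if T a v = none then P v else T a v, ?_, ?_, ?_⟩
    · intro x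
      rw [prod_insert ha, ← h1]
      have key : Sat (fun v => if T a v = none then P v else T a v) x
          ↔ Sat (T a) x ∧ Sat P x := by
        unfold Sat
        constructor
        · intro h
          refine ⟨fun v b hb => h v b ?_, fun v b hb => h v b ?_⟩
          · simp only [hb, reduceCtorEq, if_false]
          · have hvP : v ∈ dom P := by
              rw [mem_dom, hb]
              simp
            have hva : T a v = none := by
              by_contra hne
              exact (Finset.disjoint_left.mp hdis) ((mem_dom _ _).mpr hne) hvP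
            simp only [hva, if_true, hb]
        · rintro ⟨h4, h5⟩ v b hb
          by_cases hv : T a v = none
          · simp only [hv, if_true] at hb
            exact h5 v b hb
          · simp only [hv, if_false] at hb
            exact h4 v b hb
      unfold ti
      by_cases h4 : Sat (T a) x
      · by_cases h5 : Sat P x
        · rw [if_pos (key.mpr ⟨h4, h5⟩), if_pos h4, if_pos h5, one_mul]
        · rw [if_neg fun h => h5 (key.mp h).2, if_neg h5, mul_zero]
      · rw [if_neg fun h => h4 (key.mp h).1, if_neg h4, zero_mul]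
    · rw [hdom, h2, biUnion_insert]
    · rw [hdom, card_union_of_disjoint hdis, h3, sum_insert ha]

theorem prod_ti (T : Fin s → PA n) (I : Finset (Fin s)) (hI : ∀ i ∈ I, ∀ j ∈ I, ¬ Dp T i j) :
    ∃ P : PA n, (∀ x, ti P x = ∏ i ∈ I, ti (T i) x) ∧ pw P = ∏ i ∈ I, pw (T i) ∧
      (dom P).card = ∑ i ∈ I, (dom (T i)).card := by
  obtain ⟨P, h1, _, h3⟩ := prod_aux T I hI
  refine ⟨P, h1, ?_, h3⟩
  unfold pw
  rw [h3, prod_pow_eq_pow_sum]

lemma ex_prod_ti (T : Fin s → PA n) (I : Finset (Fin s)) (hI : ∀ i ∈ I, ∀ j ∈ I, ¬ Dp T i j) :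
    ex (fun x => ∏ i ∈ I, ti (T i) x) = ∏ i ∈ I, pw (T i) := by
  obtain ⟨P, h1, h2, _⟩ := prod_ti T I hI
  rw [← h2, ← ex_ti]
  exact ex_congr fun x => (h1 x).symm

end Pool.Agent.Work.MP_56168e_lc
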