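import Mathlib
import Pool.Agent.Work.MP_56168e_lc.Defs2
import Pool.Agent.Work.MP_56168e_lc.ProdTi

set_option autoImplicit false

/-!
Second moment.  PROOF.  Z = ∑_{i∈B} ti (T i), μ = ∑ pw (T i) ≤ |B|.  nz T B x * μ^2 ≤ (Z - μ)^2.
ex ((Z-μ)^2) = ∑_{i,j} (ex (ti_i ti_j) - pw_i pw_j): zero for i ≠ j not dependent (independence),
at most ex (ti_i ti_j) ≤ pw_i for j = i or j ∈ nb i: total ≤ μ (D+1).
nrm ((Z-μ)^2) ≤ (|B| + μ)^2 ≤ 4 |B|^2; fool.
-/

namespace Pool.Agent.Work.MP_56168e_lc

open Finset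

variable {n s : ℕ}

private lemma ex_pair (T : Fin s → PA n) {i j : Fin s} (hne : i ≠ j) (h : ¬ Dp T i j) :
    ex (fun x => ti (T i) x * ti (T j) x) = pw (T i) * pw (T j) := by
  classical
  have h1 := ex_prod_ti T {i, j} (by
    intro a ha b hb
    rw [mem_insert, mem_singleton] at ha hb
    rcases ha with rfl | rfl <;> rcases hb with rfl | rfl
    · exact fun h' => h'.1 rfl
    · exact h
    · exact fun h' => h (Dp_symm h')
    · exact fun h' => h'.1 rfl)
  rw [prod_pair hne] at h1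
  rw [← h1]
  exact ex_congr fun x => by rw [prod_pair hne]

theorem second_moment (T : Fin s → PA n) (B : Finset (Fin s)) {D : ℕ}
    (hD : ∀ i ∈ B, (nb T B i).card ≤ D) {ε : ℝ} (hε : 0 ≤ ε) {φ : Cube n → ℝ} (hφ : Dens ε φ) :
    pe φ (nz T B) * (∑ i ∈ B, pw (T i)) ^ 2
      ≤ (∑ i ∈ B, pw (T i)) * (D + 1) + 4 * ε * (B.card : ℝ) ^ 2 := by
  classical
  set μ : ℝ := ∑ i ∈ B, pw (T i) with hμ
  set Z : Cube n → ℝ := fun x => ∑ i ∈ B, ti (T i) x with hZ
  have hp0 : ∀ i : Fin s, 0 ≤ pw (T i) := fun i => (pw_pos (T i)).le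
  have hμ0 : 0 ≤ μ := sum_nonneg fun i _ => hp0 i
  have hμB : μ ≤ B.card := by
    have : μ ≤ ∑ i ∈ B, (1 : ℝ) := sum_le_sum fun i _ => pw_le_one (T i)
    rw [sum_const, nsmul_eq_mul, mul_one] at this
    exact this
  -- pointwise
  have h1 : ∀ x, μ ^ 2 * nz T B x ≤ (Z x - μ) ^ 2 := by
    intro x
    by_cases h : ∃ i ∈ B, Sat (T i) x
    · have : nz T B x = 0 := by
        unfold nz
        rw [if_pos h]
      rw [this, mul_zero]
      exact sq_nonneg _
    · have e1 : nz T B x = 1 := by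
        unfold nz
        rw [if_neg h]
      have e2 : Z x = 0 := by
        rw [hZ]
        refine sum_eq_zero fun i hi => ?_
        unfold ti
        rw [if_neg fun hs => h ⟨i, hi, hs⟩]
      rw [e1, e2]
      exact le_of_eq (by ring)
  have h2 : pe φ (nz T B) * μ ^ 2 ≤ pe φ (fun x => (Z x - μ) ^ 2) := by
    have := pe_mono hφ h1
    rw [pe_smul] at this
    linarith
  have h3 := (abs_le.mp (fool hφ hε (fun x => (Z x - μ) ^ 2))).2
  -- the norm
  have h4 : nrm (fun x => (Z x - μ) ^ 2) ≤ 4 * (B.card : ℝ) ^ 2 := by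
    have h5 : nrm (fun x => Z x - μ) ≤ 2 * B.card := by
      have h6 := nrm_sub_le Z (fun _ => μ)
      have h7 : nrm Z ≤ B.card := by
        refine (nrm_sum_le B (fun i => ti (T i))).trans ?_
        refine (sum_le_sum (g := fun _ => (1 : ℝ)) fun i _ => nrm_ti (T i)).trans ?_
        rw [sum_const, nsmul_eq_mul, mul_one]
      rw [nrm_const, abs_of_nonneg hμ0] at h6
      linarith
    refine (nrm_sq_le (fun x => Z x - μ)).trans ?_
    refine (pow_le_pow_left₀ (nrm_nonneg _) h5 2).trans (le_of_eq (by ring))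
  -- the variance
  have h5 : ex Z = μ := by
    rw [hZ, ex_sum]
    exact sum_congr rfl fun i _ => ex_ti (T i)
  have h6 : ex (fun x => Z x ^ 2) ≤ μ ^ 2 + μ * (D + 1) := by
    have e1 : ex (fun x => Z x ^ 2)
        = ∑ i ∈ B, ∑ j ∈ B, ex (fun x => ti (T i) x * ti (T j) x) := by
      have : ∀ x, Z x ^ 2 = ∑ i ∈ B, ∑ j ∈ B, ti (T i) x * ti (T j) x := by
        intro x
        rw [hZ, sq, sum_mul_sum]
      rw [ex_congr this, ex_sum]
      refine sum_congr rfl fun i _ => ?_
      rw [ex_sum]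
    rw [e1]
    have h7 : ∀ i ∈ B, ∑ j ∈ B, ex (fun x => ti (T i) x * ti (T j) x)
        ≤ pw (T i) * μ + pw (T i) * (D + 1) := by
      intro i hi
      have h8 : ∀ j ∈ B, ex (fun x => ti (T i) x * ti (T j) x)
          ≤ pw (T i) * pw (T j) + (if j ∈ insert i (nb T B i) then pw (T i) else 0) := by
        intro j hj
        have hnn : 0 ≤ pw (T i) * pw (T j) := mul_nonneg (hp0 i) (hp0 j)
        by_cases hin : j ∈ insert i (nb T B i)
        · rw [if_pos hin]
          have h9 : ex (fun x => ti (T i) x * ti (T j) x) ≤ pw (T i) := by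
            rw [← ex_ti]
            refine ex_mono fun x => ?_
            have := mul_le_mul_of_nonneg_left (ti_le_one (T j) x) (ti_nonneg (T i) x)
            linarith
          linarith
        · rw [if_neg hin, add_zero]
          rw [mem_insert] at hin
          push Not at hin
          refine le_of_eq (ex_pair T (Ne.symm hin.1) fun hd => hin.2 ?_)
          unfold nb
          exact mem_filter.mpr ⟨hj, hd⟩
      refine (sum_le_sum h8).trans ?_
      rw [sum_add_distrib, ← mul_sum, ← sum_filter, sum_const, nsmul_eq_mul]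
      have h9 : ((B.filter (fun j => j ∈ insert i (nb T B i))).card : ℝ) ≤ D + 1 := by
        have h10 : (B.filter (fun j => j ∈ insert i (nb T B i))).card ≤ D + 1 := by
          refine (card_le_card (t := insert i (nb T B i)) fun j hj => (mem_filter.mp hj).2).trans ?_
          exact (card_insert_le _ _).trans (Nat.succ_le_succ (hD i hi))
        exact_mod_cast h10
      have h11 := mul_le_mul_of_nonneg_right h9 (hp0 i)
      linarith
    refine (sum_le_sum h7).trans (le_of_eq ?_)
    rw [sum_add_distrib, ← sum_mul, ← sum_mul, ← hμ]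
    ring
  have h7 : ex (fun x => (Z x - μ) ^ 2) ≤ μ * (D + 1) := by
    have e1 : ex (fun x => (Z x - μ) ^ 2) = ex (fun x => Z x ^ 2) - μ ^ 2 := by
      have e2 : ∀ x, (Z x - μ) ^ 2 = (Z x ^ 2 - (2 * μ) * Z x) + μ ^ 2 := fun x => by ring
      rw [ex_congr e2, ex_add (fun x => Z x ^ 2 - (2 * μ) * Z x) (fun _ => μ ^ 2),
        ex_sub (fun x => Z x ^ 2) (fun x => (2 * μ) * Z x), ex_smul, ex_const, h5]
      ring
    rw [e1]
    linarith
  have h8 := mul_le_mul_of_nonneg_left h4 hε
  linarith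

end Pool.Agent.Work.MP_56168e_lc
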