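import Mathlib

set_option autoImplicit false

/-!
Bonferroni.  bonf_nat: z = 0: the sum is 1 (only r = 0).  z ≥ 1: the alternating sum of the first R
binomial coefficients is (-1)^(R-1) C(z-1, R-1) (induction on R, or Int.alternating_sum_range_choose
type lemmas) and C(z-1,R-1) ≤ C(z,R) + ... : C(z,R) = C(z-1,R) + C(z-1,R-1).
exp_bonf: g_R(t) = (-1)^R (exp(-t) - ∑_{r<R} (-1)^r t^r/r!) satisfies g_0 = exp(-t) ∈ [0,1],
g_{R+1}' = g_R, g_{R+1}(0) = 0, so 0 ≤ g_R(t) ≤ t^R/R! for t ≥ 0 by induction (monotonicity of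
g_{R+1} and of t^(R+1)/(R+1)! - g_{R+1}).
-/

namespace Pool.Agent.Work.MP_56168e_lc

open Finset

private lemma alt_sum (z R : ℕ) :
    ∑ r ∈ range (R + 1), (-1 : ℝ) ^ r * ((z + 1).choose r : ℝ) = (-1) ^ R * (z.choose R : ℝ) := by
  induction R with
  | zero => simp
  | succ R ih =>
    rw [sum_range_succ, ih, Nat.choose_succ_succ]
    push_cast
    ring

theorem bonf_nat (z R : ℕ) (hR : 1 ≤ R) :
    |(if z = 0 then (1 : ℝ) else 0) - ∑ r ∈ range R, (-1) ^ r * (z.choose r : ℝ)|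
      ≤ (z.choose R : ℝ) := by
  obtain ⟨R, rfl⟩ := Nat.exists_eq_add_of_le' hR
  cases z with
  | zero =>
    rw [if_pos rfl, sum_range_succ', sum_eq_zero]
    · simp
    · intro r _
      simp
  | succ z =>
    rw [if_neg (Nat.succ_ne_zero z), alt_sum, zero_sub, abs_neg, abs_mul, abs_pow, abs_neg,
      abs_one, one_pow, one_mul, abs_of_nonneg (Nat.cast_nonneg _), Nat.choose_succ_succ]
    push_cast
    have : (0 : ℝ) ≤ (z.choose (R + 1) : ℝ) := Nat.cast_nonneg _
    linarith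

private noncomputable def Pn (R : ℕ) (t : ℝ) : ℝ :=
  ∑ r ∈ range R, (-1) ^ r * (t ^ r / (r.factorial : ℝ))

private lemma hasDeriv_pow (R : ℕ) (t : ℝ) :
    HasDerivAt (fun t : ℝ => t ^ (R + 1) / ((R + 1).factorial : ℝ)) (t ^ R / (R.factorial : ℝ)) t := by
  have h1 := (hasDerivAt_pow (R + 1) t).div_const ((R + 1).factorial : ℝ)
  refine h1.congr_deriv ?_
  rw [Nat.factorial_succ]
  push_cast
  have h2 : ((R : ℝ) + 1) ≠ 0 := by positivity
  have h3 : (R.factorial : ℝ) ≠ 0 := by exact_mod_cast Nat.factorial_ne_zero R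
  field_simp

private lemma hasDeriv_Pn (R : ℕ) (t : ℝ) : HasDerivAt (Pn (R + 1)) (-(Pn R t)) t := by
  induction R with
  | zero =>
    have e1 : Pn (0 + 1) = fun _ => (1 : ℝ) := by
      funext u
      simp [Pn]
    have e2 : -(Pn 0 t) = 0 := by simp [Pn]
    rw [e1, e2]
    exact hasDerivAt_const t (1 : ℝ)
  | succ R ih =>
    have e1 : Pn (R + 1 + 1) = fun u => Pn (R + 1) u
        + (-1) ^ (R + 1) * (u ^ (R + 1) / ((R + 1).factorial : ℝ)) := by
      funext u
      unfold Pn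
      rw [sum_range_succ]
    have e2 : -(Pn (R + 1) t) = -(Pn R t) + (-1) ^ (R + 1) * (t ^ R / (R.factorial : ℝ)) := by
      unfold Pn
      rw [sum_range_succ, pow_succ]
      ring
    rw [e1, e2]
    exact ih.add ((hasDeriv_pow R t).const_mul _)

private lemma hasDeriv_G (R : ℕ) (t : ℝ) :
    HasDerivAt (fun t => (-1) ^ (R + 1) * (Real.exp (-t) - Pn (R + 1) t))
      ((-1) ^ R * (Real.exp (-t) - Pn R t)) t := by
  have h1 : HasDerivAt (fun t : ℝ => Real.exp (-t)) (-Real.exp (-t)) t := by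
    have := (Real.hasDerivAt_exp (-t)).comp t (hasDerivAt_neg t)
    refine this.congr_deriv ?_
    ring
  have h2 := (h1.sub (hasDeriv_Pn R t)).const_mul ((-1 : ℝ) ^ (R + 1))
  refine h2.congr_deriv ?_
  rw [pow_succ]
  ring

private lemma exp_aux (R : ℕ) : ∀ t : ℝ, 0 ≤ t →
    0 ≤ (-1) ^ R * (Real.exp (-t) - Pn R t) ∧
      (-1) ^ R * (Real.exp (-t) - Pn R t) ≤ t ^ R / (R.factorial : ℝ) := by
  induction R with
  | zero =>
    intro t ht
    have h1 : Pn 0 t = 0 := by simp [Pn]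
    rw [h1]
    simp only [pow_zero, sub_zero, one_mul, Nat.factorial_zero, Nat.cast_one, div_one]
    exact ⟨(Real.exp_pos _).le, Real.exp_le_one_iff.mpr (by linarith)⟩
  | succ R ih =>
    have hG0 : (-1 : ℝ) ^ (R + 1) * (Real.exp (-0) - Pn (R + 1) 0) = 0 := by
      have : Pn (R + 1) 0 = 1 := by
        unfold Pn
        rw [sum_range_succ', sum_eq_zero]
        · simp
        · intro r _
          simp
      rw [this]
      simp
    have m1 : MonotoneOn (fun t => (-1 : ℝ) ^ (R + 1) * (Real.exp (-t) - Pn (R + 1) t))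
        (Set.Ici 0) := by
      refine monotoneOn_of_deriv_nonneg (convex_Ici 0) ?_ ?_ ?_
      · exact fun t _ => (hasDeriv_G R t).continuousAt.continuousWithinAt
      · exact fun t _ => (hasDeriv_G R t).differentiableAt.differentiableWithinAt
      · intro t ht
        rw [(hasDeriv_G R t).deriv]
        rw [interior_Ici] at ht
        exact (ih t (le_of_lt ht)).1
    have m2 : MonotoneOn (fun t => t ^ (R + 1) / ((R + 1).factorial : ℝ)
        - (-1 : ℝ) ^ (R + 1) * (Real.exp (-t) - Pn (R + 1) t)) (Set.Ici 0) := by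
      have hd : ∀ t : ℝ, HasDerivAt (fun t => t ^ (R + 1) / ((R + 1).factorial : ℝ)
          - (-1 : ℝ) ^ (R + 1) * (Real.exp (-t) - Pn (R + 1) t))
          (t ^ R / (R.factorial : ℝ) - (-1) ^ R * (Real.exp (-t) - Pn R t)) t :=
        fun t => (hasDeriv_pow R t).sub (hasDeriv_G R t)
      refine monotoneOn_of_deriv_nonneg (convex_Ici 0) ?_ ?_ ?_
      · exact fun t _ => (hd t).continuousAt.continuousWithinAt
      · exact fun t _ => (hd t).differentiableAt.differentiableWithinAt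
      · intro t ht
        rw [(hd t).deriv]
        rw [interior_Ici] at ht
        linarith [(ih t (le_of_lt ht)).2]
    intro t ht
    have h1 := m1 (Set.mem_Ici.mpr le_rfl) (Set.mem_Ici.mpr ht) ht
    have h2 := m2 (Set.mem_Ici.mpr le_rfl) (Set.mem_Ici.mpr ht) ht
    simp only at h1 h2
    rw [hG0] at h1 h2
    refine ⟨h1, ?_⟩
    have h3 : (0 : ℝ) ^ (R + 1) / ((R + 1).factorial : ℝ) = 0 := by simp
    rw [h3] at h2
    linarith

theorem exp_bonf {t : ℝ} (ht : 0 ≤ t) (R : ℕ) :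
    |Real.exp (-t) - ∑ r ∈ range R, (-1) ^ r * (t ^ r / (r.factorial : ℝ))|
      ≤ t ^ R / (R.factorial : ℝ) := by
  have h1 := exp_aux R t ht
  have h2 : |Real.exp (-t) - ∑ r ∈ range R, (-1) ^ r * (t ^ r / (r.factorial : ℝ))|
      = (-1) ^ R * (Real.exp (-t) - Pn R t) := by
    have e1 : Real.exp (-t) - ∑ r ∈ range R, (-1) ^ r * (t ^ r / (r.factorial : ℝ))
        = Real.exp (-t) - Pn R t := rfl
    rw [e1]
    have e2 : |Real.exp (-t) - Pn R t| = |(-1) ^ R * (Real.exp (-t) - Pn R t)| := by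
      rw [abs_mul, abs_pow, abs_neg, abs_one, one_pow, one_mul]
    rw [e2, abs_of_nonneg h1.1]
  rw [h2]
  exact h1.2

end Pool.Agent.Work.MP_56168e_lc
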