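import Mathlib
import Pool.Agent.Work.MP_56168e_lc.Defs2

set_option autoImplicit false

/-!
Leaders.  PROOFS.  nz_eq_cnt: the smallest satisfied i ∈ A is a leader, and leaders are satisfied.
choose_cnt: the r-subsets of the set of leaders; ∏_{i∈I} lead = 1 iff I ⊆ leaders, else 0.
lead_mul: if i < j (or j < i) are dependent and both satisfied then the larger is not a leader.
indep_lead: the event depends only on the variables of T i and of the T j with j dependent on i.
-/

namespace Pool.Agent.Work.MP_56168e_lc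

open Finset

variable {n s : ℕ}

lemma nz_eq_cnt (T : Fin s → PA n) (A : Finset (Fin s)) (x : Cube n) :
    nz T A x = if cnt T A x = 0 then (1 : ℝ) else 0 := by
  classical
  have key : (∃ i ∈ A, Sat (T i) x) ↔ ¬ cnt T A x = 0 := by
    unfold cnt
    rw [card_eq_zero, ← ne_eq, ← nonempty_iff_ne_empty]
    constructor
    · rintro ⟨i, hi, hs⟩
      have hne : (A.filter (fun i => Sat (T i) x)).Nonempty := ⟨i, mem_filter.mpr ⟨hi, hs⟩⟩
      set m := (A.filter (fun i => Sat (T i) x)).min' hne with hm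
      have hmm := min'_mem _ hne
      rw [← hm, mem_filter] at hmm
      refine ⟨m, mem_filter.mpr ⟨hmm.1, hmm.2, fun j hj hji _ hsj => ?_⟩⟩
      have := min'_le (A.filter (fun i => Sat (T i) x)) j (mem_filter.mpr ⟨hj, hsj⟩)
      rw [← hm] at this
      exact absurd hji (not_lt.mpr this)
    · rintro ⟨i, hi⟩
      rw [mem_filter] at hi
      exact ⟨i, hi.1, hi.2.1⟩
  unfold nz
  by_cases h : ∃ i ∈ A, Sat (T i) x
  · rw [if_pos h, if_neg (key.mp h)]
  · rw [if_neg h, if_pos (by_contra fun h' => h (key.mpr h'))]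

lemma choose_cnt (T : Fin s → PA n) (A : Finset (Fin s)) (r : ℕ) (x : Cube n) :
    ((cnt T A x).choose r : ℝ) = ∑ I ∈ A.powersetCard r, ∏ i ∈ I, lead T A i x := by
  classical
  have h1 : ∀ I ∈ A.powersetCard r, ∏ i ∈ I, lead T A i x
      = if I ⊆ A.filter (fun i => Lead T A i x) then (1 : ℝ) else 0 := by
    intro I hI
    have hIA := (mem_powersetCard.mp hI).1
    by_cases h : I ⊆ A.filter (fun i => Lead T A i x)
    · rw [if_pos h]
      refine prod_eq_one fun i hi => ?_
      unfold lead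
      rw [if_pos (mem_filter.mp (h hi)).2]
    · rw [if_neg h]
      obtain ⟨i, hi, hi2⟩ := not_subset.mp h
      refine prod_eq_zero hi ?_
      unfold lead
      rw [if_neg fun h' => hi2 (mem_filter.mpr ⟨hIA hi, h'⟩)]
  rw [sum_congr rfl h1, ← sum_filter, sum_const, nsmul_eq_mul, mul_one]
  unfold cnt
  rw [← card_powersetCard]
  norm_cast
  congr 1
  ext I
  rw [mem_filter, mem_powersetCard, mem_powersetCard]
  constructor
  · rintro ⟨h1, h2⟩
    exact ⟨⟨h1.trans (filter_subset _ _), h2⟩, h1⟩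
  · rintro ⟨⟨_, h2⟩, h3⟩
    exact ⟨h3, h2⟩

lemma lead_mul (T : Fin s → PA n) (A : Finset (Fin s)) {i j : Fin s} (hi : i ∈ A) (hj : j ∈ A)
    (h : Dp T i j) (x : Cube n) : lead T A i x * lead T A j x = 0 := by
  unfold lead
  by_cases h1 : Lead T A i x
  · by_cases h2 : Lead T A j x
    · exfalso
      rcases lt_or_gt_of_ne h.1 with hlt | hlt
      · exact h2.2 i hi hlt (Dp_symm h) h1.1
      · exact h1.2 j hj hlt h h2.1
    · rw [if_neg h2, mul_zero]
  · rw [if_neg h1, zero_mul]

private lemma sat_congr {S : PA n} {x y : Cube n} (h : ∀ v ∈ dom S, x v = y v) :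
    Sat S x ↔ Sat S y := by
  have hd : ∀ v b, S v = some b → v ∈ dom S := by
    intro v b hb
    rw [mem_dom, hb]
    simp
  constructor
  · intro hs v b hb
    rw [← h v (hd v b hb)]
    exact hs v b hb
  · intro hs v b hb
    rw [h v (hd v b hb)]
    exact hs v b hb

lemma indep_lead (T : Fin s → PA n) (A : Finset (Fin s)) (i : Fin s) :
    Indep (UU T A i)ᶜ (lead T A i) := by
  classical
  intro x y hxy
  have hxy' : ∀ v ∈ UU T A i, x v = y v := fun v hv => hxy v (by simp [hv])
  have h1 : Sat (T i) x ↔ Sat (T i) y := by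
    refine sat_congr fun v hv => hxy' v ?_
    unfold UU
    exact mem_union_left _ hv
  have h2 : ∀ j ∈ A, Dp T i j → (Sat (T j) x ↔ Sat (T j) y) := by
    intro j hj hd
    refine sat_congr fun v hv => hxy' v ?_
    unfold UU
    refine mem_union_right _ (mem_biUnion.mpr ⟨j, ?_, hv⟩)
    unfold nb
    exact mem_filter.mpr ⟨hj, hd⟩
  have h3 : Lead T A i x ↔ Lead T A i y := by
    unfold Lead
    rw [h1]
    constructor
    · rintro ⟨h4, h5⟩
      exact ⟨h4, fun j hj hji hd hs => h5 j hj hji hd ((h2 j hj hd).mpr hs)⟩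
    · rintro ⟨h4, h5⟩
      exact ⟨h4, fun j hj hji hd hs => h5 j hj hji hd ((h2 j hj hd).mp hs)⟩
  unfold lead
  by_cases h4 : Lead T A i x
  · rw [if_pos h4, if_pos (h3.mp h4)]
  · rw [if_neg h4, if_neg fun h' => h4 (h3.mpr h')]

end Pool.Agent.Work.MP_56168e_lc
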