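import Mathlib
import Pool.Agent.Work.MP_56168e_lc.Conc
import Pool.Agent.Work.MP_56168e_lc.TiF
import Pool.Agent.Work.MP_56168e_lc.RlF
import Pool.Agent.Work.MP_56168e_lc.IndF

set_option autoImplicit false

/-!
Lower sandwich (Razborov).  PROOF.  Define by recursion on the list P [] = 0,
P (T :: L') = P L' + ti T * (1 - tr k (fi (rl T L'))), and SQ [] = 0,
SQ (T :: L') = SQ L' + ti T * (fi (rl T L') - tr k (fi (rl T L')))^2.  Let D = fi L - P L; by fi_cons
and ti_mul_fi, D(T::L') = D(L') + ti T * (q - g), g = fi (rl T L'), q = tr k g.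
(a) P L x = 0 if fi L x = 0.  (b) D^2 ≤ zc L * SQ L pointwise (induction, Cauchy:
(a+b)^2 ≤ (z+t)(s + t e^2) if a^2 ≤ z s, b = t e, t ∈ {0,1}).  (c) ex (SQ L) ≤ τ ex (zc L): g does not
depend on dom T (indep_fi_rl), q neither (indep_tr), so ex (ti T (g-q)^2) = pw T * ex ((g-q)^2)
≤ pw T * τ (ex_mul_indep with U = dom T, ex_ti, conc_err, rl_width).  (d) nrm (P L) ≤ m (1+Λ),
0 ≤ SQ ≤ m (1+Λ)^2.
l = 1 - (1 - P)^2 satisfies f - l = (f - P)^2 ≥ 0 pointwise.  ex ((f-P)^2) ≤ M ex (SQ) + m^2 (1+Λ)^2 κ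
(split Z ≤ M, Z > M; Z ≤ m) ≤ M τ (M + m κ) + ... ≤ 2 M^2 τ + m^2 (1+Λ)^2 κ, as ex Z ≤ M + m κ ≤ 2M.
nrm l ≤ 1 + (1 + m(1+Λ))^2 ≤ 3 m^2 (1+Λ)^2.  pe φ f ≥ pe φ l ≥ ex l - ε nrm l.
-/

namespace Pool.Agent.Work.MP_56168e_lc

open Finset

variable {n : ℕ}

private noncomputable def PP (k : ℕ) : List (PA n) → Cube n → ℝ
  | [] => fun _ => 0
  | T :: L => fun x => PP k L x + ti T x * (1 - tr k (fi (rl T L)) x)

private noncomputable def SQ (k : ℕ) : List (PA n) → Cube n → ℝ
  | [] => fun _ => 0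
  | T :: L => fun x => SQ k L x + ti T x * (fi (rl T L) x - tr k (fi (rl T L)) x) ^ 2

private lemma Lower_fi (L : List (PA n)) (x : Cube n) : fi L x = 0 ∨ fi L x = 1 := by
  unfold fi
  split_ifs
  · exact Or.inr rfl
  · exact Or.inl rfl

private lemma Lower_ti (T : PA n) (x : Cube n) : ti T x = 0 ∨ ti T x = 1 := by
  unfold ti
  split_ifs
  · exact Or.inr rfl
  · exact Or.inl rfl

private lemma SQ_nonneg (k : ℕ) (L : List (PA n)) (x : Cube n) : 0 ≤ SQ k L x := by
  induction L with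
  | nil => exact le_rfl
  | cons T L ih => exact add_nonneg ih (mul_nonneg (ti_nonneg T x) (sq_nonneg _))

/-- (a) -/
private lemma PP_zero (k : ℕ) (L : List (PA n)) (x : Cube n) (h : fi L x = 0) : PP k L x = 0 := by
  induction L with
  | nil => rfl
  | cons T L ih =>
    rw [fi_cons] at h
    have h1 := ti_nonneg T x
    have h2 := fi_nonneg L x
    have h3 := fi_le_one L x
    have h4 : 0 ≤ ti T x * (1 - fi L x) := mul_nonneg h1 (by linarith)
    have h5 : fi L x = 0 := by linarith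
    rw [h5] at h
    have h6 : ti T x = 0 := by linarith
    show PP k L x + ti T x * (1 - tr k (fi (rl T L)) x) = 0
    rw [ih h5, h6]
    ring

/-- (b) -/
private lemma Lower_sq (k : ℕ) (L : List (PA n)) (x : Cube n) :
    (fi L x - PP k L x) ^ 2 ≤ zc L x * SQ k L x := by
  induction L with
  | nil =>
    rw [fi_nil, zc_nil]
    show ((0 : ℝ) - 0) ^ 2 ≤ 0 * 0
    norm_num
  | cons T L ih =>
    have hz := zc_nonneg L x
    have hs := SQ_nonneg k L x
    show (fi (T :: L) x - (PP k L x + ti T x * (1 - tr k (fi (rl T L)) x))) ^ 2 ≤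
      zc (T :: L) x * (SQ k L x + ti T x * (fi (rl T L) x - tr k (fi (rl T L)) x) ^ 2)
    rw [fi_cons, zc_cons]
    have hg := ti_mul_fi T L x
    rcases Lower_ti T x with h | h
    · rw [h]
      have e1 : fi L x + 0 * (1 - fi L x) - (PP k L x + 0 * (1 - tr k (fi (rl T L)) x)) =
        fi L x - PP k L x := by ring
      have e2 : (0 + zc L x) * (SQ k L x + 0 * (fi (rl T L) x - tr k (fi (rl T L)) x) ^ 2) =
        zc L x * SQ k L x := by ring
      rw [e1, e2]
      exact ih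
    · rw [h, one_mul, one_mul] at hg
      rw [h]
      set a := fi L x - PP k L x with ha
      set e := tr k (fi (rl T L)) x - fi (rl T L) x with he
      have e1 : fi L x + 1 * (1 - fi L x) - (PP k L x + 1 * (1 - tr k (fi (rl T L)) x)) =
        a + e := by
        rw [ha, he, ← hg]
        ring
      have e2 : (1 + zc L x) * (SQ k L x + 1 * (fi (rl T L) x - tr k (fi (rl T L)) x) ^ 2) =
        (zc L x + 1) * (SQ k L x + e ^ 2) := by
        rw [he]
        ring
      rw [e1, e2]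
      set z := zc L x
      set s := SQ k L x
      have h1 : (2 * a * e) ^ 2 ≤ (z * e ^ 2 + s) ^ 2 := by
        nlinarith [sq_nonneg (z * e ^ 2 - s), mul_le_mul_of_nonneg_right ih (sq_nonneg e)]
      have h2 : 2 * a * e ≤ z * e ^ 2 + s := (abs_le_of_sq_le_sq' h1 (by positivity)).2
      nlinarith

/-- (c) -/
private lemma Lower_ex (L : List (PA n)) (w k : ℕ) (hw : 1 ≤ w)
    (hL : ∀ T ∈ L, (dom T).card ≤ w) : ex (SQ k L) ≤ tau w k * ex (zc L) := by
  induction L with
  | nil =>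
    have h1 : ex (SQ k ([] : List (PA n))) = 0 := ex_const 0
    have h2 : ex (zc ([] : List (PA n))) = 0 := by
      rw [← ex_const (n := n) 0]
      exact ex_congr fun x => zc_nil x
    rw [h1, h2, mul_zero]
  | cons T L ih =>
    have h1 := ih fun T' h => hL T' (List.mem_cons_of_mem T h)
    have e1 : ex (SQ k (T :: L)) = ex (SQ k L) + ex (fun x =>
        (fi (rl T L) x - tr k (fi (rl T L)) x) ^ 2 * ti T x) := by
      rw [← ex_add]
      refine ex_congr fun x => ?_
      show SQ k L x + ti T x * (fi (rl T L) x - tr k (fi (rl T L)) x) ^ 2 = _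
      ring
    have e2 : ex (zc (T :: L)) = pw T + ex (zc L) := by
      rw [← ex_ti, ← ex_add]
      exact ex_congr fun x => zc_cons T L x
    have hi1 : Indep (dom T) (fun x => (fi (rl T L) x - tr k (fi (rl T L)) x) ^ 2) := by
      intro x y hxy
      have h2 := indep_fi_rl T L x y hxy
      have h3 := indep_tr (indep_fi_rl T L) k x y hxy
      show (fi (rl T L) x - tr k (fi (rl T L)) x) ^ 2 = (fi (rl T L) y - tr k (fi (rl T L)) y) ^ 2
      rw [h2, h3]
    have hi2 : Indep (dom T)ᶜ (ti T) := indep_ti T disjoint_compl_right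
    have h4 := ex_mul_indep (dom T) hi1 hi2
    rw [e1, e2, h4, ex_ti]
    have h5 := conc_err (rl T L) w k hw
      (rl_width T L fun T' h => hL T' (List.mem_cons_of_mem T h))
    have h6 := mul_le_mul_of_nonneg_right h5 (pw_pos T).le
    linarith

/-- (d) -/
private lemma Lower_nrm (L : List (PA n)) (w k : ℕ) (hw : 1 ≤ w)
    (hL : ∀ T ∈ L, (dom T).card ≤ w) : nrm (PP k L) ≤ L.length * (1 + Lam w k) := by
  induction L with
  | nil =>
    have : nrm (PP k ([] : List (PA n))) = 0 := by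
      show nrm (fun _ => 0) = 0
      rw [nrm_const, abs_zero]
    rw [this]
    simp
  | cons T L ih =>
    have h1 := ih fun T' h => hL T' (List.mem_cons_of_mem T h)
    have h2 : nrm (PP k (T :: L)) ≤ nrm (PP k L) +
        nrm (fun x => ti T x * (1 - tr k (fi (rl T L)) x)) := nrm_add_le _ _
    have h3 := conc_nrm (rl T L) w k hw
      (rl_width T L fun T' h => hL T' (List.mem_cons_of_mem T h))
    have h4 : nrm (fun x => 1 - tr k (fi (rl T L)) x) ≤ 1 + Lam w k := by
      refine (nrm_sub_le (fun _ => 1) _).trans ?_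
      rw [nrm_const, abs_one]
      linarith
    have h5 : nrm (fun x => ti T x * (1 - tr k (fi (rl T L)) x)) ≤ 1 * (1 + Lam w k) :=
      (nrm_mul_le _ _).trans (mul_le_mul (nrm_ti T) h4 (nrm_nonneg _) (by norm_num))
    rw [List.length_cons]
    push_cast
    linarith

private lemma SQ_le (L : List (PA n)) (w k : ℕ) (hw : 1 ≤ w)
    (hL : ∀ T ∈ L, (dom T).card ≤ w) (x : Cube n) :
    SQ k L x ≤ L.length * (1 + Lam w k) ^ 2 := by
  induction L with
  | nil =>
    show (0 : ℝ) ≤ _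
    simp
  | cons T L ih =>
    have h1 := ih fun T' h => hL T' (List.mem_cons_of_mem T h)
    have h3 := conc_nrm (rl T L) w k hw
      (rl_width T L fun T' h => hL T' (List.mem_cons_of_mem T h))
    have h4 := abs_le.1 ((abs_le_nrm (tr k (fi (rl T L))) x).trans h3)
    have h5 := fi_nonneg (rl T L) x
    have h6 := fi_le_one (rl T L) x
    have h7 : (fi (rl T L) x - tr k (fi (rl T L)) x) ^ 2 ≤ (1 + Lam w k) ^ 2 :=
      sq_le_sq' (by linarith) (by linarith)
    have h8 : ti T x * (fi (rl T L) x - tr k (fi (rl T L)) x) ^ 2 ≤ 1 * (1 + Lam w k) ^ 2 :=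
      mul_le_mul (ti_le_one T x) h7 (sq_nonneg _) (by norm_num)
    show SQ k L x + ti T x * (fi (rl T L) x - tr k (fi (rl T L)) x) ^ 2 ≤ _
    rw [List.length_cons]
    push_cast
    linarith

theorem lower (L : List (PA n)) (w k : ℕ) (hw : 1 ≤ w) (hL : ∀ T ∈ L, (dom T).card ≤ w)
    (hm : 1 ≤ L.length) {M κ ε : ℝ} (hM : 1 ≤ M)
    (hκ : ex (fun x => if M < zc L x then (1 : ℝ) else 0) ≤ κ) (hκm : L.length * κ ≤ M)
    (hε : 0 ≤ ε) {φ : Cube n → ℝ} (hφ : Dens ε φ) :
    ex (fi L) - (2 * M ^ 2 * tau w k + (L.length : ℝ) ^ 2 * (1 + Lam w k) ^ 2 * κ)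
      - ε * (3 * (L.length : ℝ) ^ 2 * (1 + Lam w k) ^ 2) ≤ pe φ (fi L) := by
  have hSQle := SQ_le (n := n) L w k hw hL
  have hnP := Lower_nrm L w k hw hL
  have hexS := Lower_ex L w k hw hL
  set m : ℝ := (L.length : ℝ) with hmdef
  have hm1 : (1 : ℝ) ≤ m := by rw [hmdef]; exact_mod_cast hm
  set Λ := Lam w k with hΛ
  set τ := tau w k with hτ
  have hτ0 : 0 < τ := tau_pos w k
  have hΛ1 : 1 ≤ Λ := one_le_Lam w k hw
  have hκ0 : 0 ≤ κ := le_trans (ex_nonneg fun x => by split_ifs <;> norm_num) hκ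
  let P : Cube n → ℝ := PP k L
  let l : Cube n → ℝ := fun x => 1 - (1 - P x) ^ 2
  have hfl : ∀ x, fi L x - l x = (fi L x - P x) ^ 2 := by
    intro x
    show fi L x - (1 - (1 - P x) ^ 2) = _
    rcases Lower_fi L x with h | h
    · have h1 : P x = 0 := PP_zero k L x h
      rw [h, h1]
      norm_num
    · rw [h]
      ring
  have hlf : ∀ x, l x ≤ fi L x := by
    intro x
    have := hfl x
    nlinarith [sq_nonneg (fi L x - P x)]
  have hpt : ∀ x, (fi L x - P x) ^ 2 ≤ M * SQ k L x +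
      m ^ 2 * (1 + Λ) ^ 2 * (if M < zc L x then (1 : ℝ) else 0) := by
    intro x
    refine (Lower_sq k L x).trans ?_
    have hs := SQ_nonneg k L x
    by_cases h : M < zc L x
    · rw [if_pos h, mul_one]
      have h1 : zc L x * SQ k L x ≤ m * (m * (1 + Λ) ^ 2) :=
        mul_le_mul (zc_le L x) (hSQle x) hs (by linarith)
      have h2 : 0 ≤ M * SQ k L x := by positivity
      nlinarith
    · rw [if_neg h, mul_zero, add_zero]
      exact mul_le_mul_of_nonneg_right (not_lt.1 h) hs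
  have hexZ : ex (zc L) ≤ 2 * M := by
    have h1 : ex (zc L) ≤ ex (fun x => M + m * (if M < zc L x then (1 : ℝ) else 0)) := by
      refine ex_mono fun x => ?_
      by_cases h : M < zc L x
      · rw [if_pos h, mul_one]
        have := zc_le L x
        linarith
      · rw [if_neg h, mul_zero, add_zero]
        exact not_lt.1 h
    rw [ex_add, ex_const, ex_smul] at h1
    have h2 := mul_le_mul_of_nonneg_left hκ (by linarith : (0 : ℝ) ≤ m)
    linarith
  have hexfP : ex (fun x => (fi L x - P x) ^ 2) ≤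
      2 * M ^ 2 * τ + m ^ 2 * (1 + Λ) ^ 2 * κ := by
    refine (ex_mono hpt).trans ?_
    rw [ex_add, ex_smul, ex_smul]
    have h1 : ex (fun x => SQ k L x) ≤ τ * (2 * M) :=
      hexS.trans (mul_le_mul_of_nonneg_left hexZ hτ0.le)
    have h2 := mul_le_mul_of_nonneg_left h1 (by linarith : (0 : ℝ) ≤ M)
    have h3 := mul_le_mul_of_nonneg_left hκ (by positivity : (0 : ℝ) ≤ m ^ 2 * (1 + Λ) ^ 2)
    nlinarith
  have hexl : ex l = ex (fi L) - ex (fun x => (fi L x - P x) ^ 2) := by
    rw [← ex_sub]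
    refine ex_congr fun x => ?_
    have := hfl x
    linarith
  have hnl : nrm l ≤ 3 * m ^ 2 * (1 + Λ) ^ 2 := by
    have h1 : nrm (fun x => 1 - P x) ≤ 1 + m * (1 + Λ) := by
      refine (nrm_sub_le (fun _ => 1) P).trans ?_
      rw [nrm_const, abs_one]
      have : nrm P ≤ m * (1 + Λ) := hnP
      linarith
    have h2 : nrm (fun x => (1 - P x) ^ 2) ≤ (1 + m * (1 + Λ)) ^ 2 :=
      (nrm_sq_le _).trans (pow_le_pow_left₀ (nrm_nonneg _) h1 2)
    have h3 : nrm l ≤ 1 + (1 + m * (1 + Λ)) ^ 2 := by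
      refine (nrm_sub_le (fun _ => 1) _).trans ?_
      rw [nrm_const, abs_one]
      linarith
    have h4 : 2 ≤ m * (1 + Λ) := by nlinarith
    have h5 : 1 + (1 + m * (1 + Λ)) ^ 2 ≤ 3 * (m * (1 + Λ)) ^ 2 := by nlinarith
    calc nrm l ≤ _ := h3
      _ ≤ _ := h5
      _ = _ := by ring
  have h1 := pe_mono hφ hlf
  have h2 := (abs_le.1 (fool hφ hε l)).1
  have h3 := mul_le_mul_of_nonneg_left hnl hε
  rw [hexl] at h2
  linarith

end Pool.Agent.Work.MP_56168e_lc
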