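import Mathlib
import Pool.Agent.Work.MP_56168e_lc.Conc

set_option autoImplicit false

/-!
Numbers.  m natural, ℓ = log(8(m+1)/δ) ≥ log 8 > 2, Λ0 = log(8M/δ) ≥ log 8.
w = ⌈ℓ / log 2⌉, N = ⌈log(160 M^2/δ^2)⌉, k = 14 w N.  Then (m+1) 2^(-w) ≤ δ/8;
(1+1/(13w))^(14w) ≥ exp 1 (log(1+x) ≥ x/(1+x)), so tau w k ≤ 2 exp(-N) ≤ δ^2/(80 M^2).
w ≤ 2ℓ, N ≤ 3Λ0, k ≤ 84 ℓ Λ0, log Lam = k log(13 w) ≤ 84 ℓ Λ0 log(26 ℓ) ≤ 84*5.5 ℓ Λ0 log ℓ
(log ℓ ≥ 0.72), and with X = ℓ log ℓ Λ0 ≥ 3: log(56*... ) : all three bounds hold if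
-1000 X + 924 X + log 224 + 2ℓ ≤ 0, where log 224 ≤ 1.8 X, 2ℓ ≤ 1.4 X.
-/

namespace Pool.Agent.Work.MP_56168e_lc

open Finset

/-- the exponent -/
noncomputable def expo (m : ℕ) (M δ : ℝ) : ℝ :=
  1000 * Real.log (8 * (m + 1) / δ) * Real.log (Real.log (8 * (m + 1) / δ)) *
    Real.log (8 * M / δ)

private lemma NumAmb_log8 : Real.log 8 = 3 * Real.log 2 := by
  rw [show (8 : ℝ) = 2 ^ (3 : ℕ) by norm_num, Real.log_pow]
  push_cast
  ring

private lemma NumAmb_log26 : Real.log 26 ≤ 19 / 4 * Real.log 2 := by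
  have h1 : Real.log ((26 : ℝ) ^ (4 : ℕ)) ≤ Real.log ((2 : ℝ) ^ (19 : ℕ)) :=
    Real.log_le_log (by norm_num) (by norm_num)
  rw [Real.log_pow, Real.log_pow] at h1
  push_cast at h1
  linarith

/-- the main inequality between the exponents -/
private lemma NumAmb_main {l L w N : ℝ} (hl : 3 * Real.log 2 ≤ l) (hL : 3 * Real.log 2 ≤ L)
    (hw1 : 1 ≤ w) (hw : w ≤ 2 * l) (hN0 : 0 ≤ N) (hN : N ≤ 3 * L) :
    2 * l + 2 * (14 * w * N) * Real.log (13 * w) + 2 ≤ 1000 * l * Real.log l * L := by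
  have h2 := Real.log_two_gt_d9
  have h2' := Real.log_two_lt_d9
  have hl2 : 2 ≤ l := by linarith
  have hL2 : 2 ≤ L := by linarith
  have hll : Real.log 2 ≤ Real.log l := Real.log_le_log (by norm_num) hl2
  have h3 : Real.log (13 * w) ≤ 23 / 4 * Real.log l := by
    calc Real.log (13 * w) ≤ Real.log (26 * l) :=
          Real.log_le_log (by positivity) (by linarith)
      _ = Real.log 26 + Real.log l := Real.log_mul (by norm_num) (by positivity)
      _ ≤ 23 / 4 * Real.log l := by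
          have := NumAmb_log26
          linarith
  have h4 : 0 ≤ Real.log (13 * w) := Real.log_nonneg (by linarith)
  have h5 : 14 * w * N ≤ 14 * (2 * l) * (3 * L) :=
    mul_le_mul (by linarith) hN hN0 (by linarith)
  have h6 : 2 * (14 * w * N) * Real.log (13 * w) ≤
      2 * (14 * (2 * l) * (3 * L)) * (23 / 4 * Real.log l) :=
    mul_le_mul (by linarith) h3 h4 (by positivity)
  have h7 : 2 * (14 * (2 * l) * (3 * L)) * (23 / 4 * Real.log l) = 966 * (l * Real.log l * L) := by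
    ring
  have h8 : l * (69 / 100) * 2 ≤ l * Real.log l * L := by
    refine mul_le_mul (mul_le_mul_of_nonneg_left (by linarith) (by linarith)) hL2 (by norm_num) ?_
    exact mul_nonneg (by linarith) (by linarith)
  have h9 : 1000 * l * Real.log l * L = 1000 * (l * Real.log l * L) := by ring
  rw [h9]
  linarith

theorem num_amb (m : ℕ) {M δ : ℝ} (hM : 1 ≤ M) (hδ : 0 < δ) (hδ1 : δ ≤ 1) :
    ∃ w k : ℕ, 1 ≤ w ∧ ((m : ℝ) + 1) * (1 / 2) ^ w ≤ δ / 8 ∧
      (5 / δ) * (2 * M ^ 2 * tau w k) ≤ δ / 8 ∧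
      ∀ e : ℝ, 0 ≤ e → e ≤ Real.exp (-(expo m M δ)) →
        (5 / δ) * (((m : ℝ) + 1) ^ 2 * (1 + Lam w k) ^ 2 * e) ≤ δ / 8 ∧
        e * (7 * ((m : ℝ) + 1) ^ 2 * (1 + Lam w k) ^ 2 / δ) ≤ δ / 8 ∧
        ((m : ℝ) + 1) * e ≤ δ / 8 := by
  have hm : (0 : ℝ) ≤ m := Nat.cast_nonneg m
  have h2 := Real.log_two_gt_d9
  have h2' := Real.log_two_lt_d9
  have hM0 : 0 < M := by linarith
  set l := Real.log (8 * (m + 1) / δ) with hl
  set L := Real.log (8 * M / δ) with hL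
  have hl8 : 3 * Real.log 2 ≤ l := by
    rw [← NumAmb_log8]
    refine Real.log_le_log (by norm_num) ?_
    rw [le_div_iff₀ hδ]
    nlinarith
  have hL8 : 3 * Real.log 2 ≤ L := by
    rw [← NumAmb_log8]
    refine Real.log_le_log (by norm_num) ?_
    rw [le_div_iff₀ hδ]
    nlinarith
  have hexpl : Real.exp l = 8 * (m + 1) / δ := Real.exp_log (by positivity)
  -- the numbers
  obtain ⟨w, hw⟩ : ∃ w : ℕ, w = ⌈l / Real.log 2⌉₊ := ⟨_, rfl⟩
  obtain ⟨N, hN⟩ : ∃ N : ℕ, N = ⌈Real.log (160 * M ^ 2 / δ ^ 2)⌉₊ := ⟨_, rfl⟩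
  have hlogpos : 0 < Real.log 2 := by linarith
  have hwl : l ≤ w * Real.log 2 := by
    have h3 : l / Real.log 2 ≤ w := by rw [hw]; exact Nat.le_ceil _
    rwa [div_le_iff₀ hlogpos] at h3
  have hw1 : 1 ≤ w := by
    rw [hw, Nat.one_le_ceil_iff]
    exact div_pos (by linarith) hlogpos
  have hw1' : (1 : ℝ) ≤ w := by exact_mod_cast hw1
  have hwu : (w : ℝ) ≤ 2 * l := by
    have h3 : (w : ℝ) < l / Real.log 2 + 1 := by
      rw [hw]
      exact Nat.ceil_lt_add_one (div_nonneg (by linarith) hlogpos.le)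
    have h4 : l / Real.log 2 ≤ l * (3 / 2) := by
      rw [div_le_iff₀ hlogpos]
      nlinarith
    linarith
  have hq : Real.log (160 * M ^ 2 / δ ^ 2) = 2 * L + Real.log (5 / 2) := by
    have h3 : (160 * M ^ 2 / δ ^ 2 : ℝ) = (8 * M / δ) ^ (2 : ℕ) * (5 / 2) := by
      field_simp
      ring
    rw [h3, Real.log_mul (by positivity) (by norm_num), Real.log_pow]
    push_cast
    ring
  have h52 : Real.log (5 / 2) ≤ 1 := by
    rw [Real.log_le_iff_le_exp (by norm_num)]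
    have := Real.exp_one_gt_d9
    linarith
  have h52' : 0 ≤ Real.log (5 / 2) := Real.log_nonneg (by norm_num)
  have hNu : (N : ℝ) ≤ 3 * L := by
    have h3 : (N : ℝ) < Real.log (160 * M ^ 2 / δ ^ 2) + 1 := by
      rw [hN]
      exact Nat.ceil_lt_add_one (by rw [hq]; linarith)
    rw [hq] at h3
    linarith
  have hNl : 160 * M ^ 2 / δ ^ 2 ≤ Real.exp N := by
    rw [← Real.log_le_iff_le_exp (by positivity)]
    rw [hN]
    exact Nat.le_ceil _
  -- the growth of `(1 + 1 / (13 w)) ^ (14 w)`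
  have hgrow : Real.exp N ≤ (1 + 1 / (13 * (w : ℝ))) ^ (14 * w * N) := by
    have h3 : Real.exp 1 ≤ (1 + 1 / (13 * (w : ℝ))) ^ (14 * w) := by
      have h4 : 1 / (14 * (w : ℝ)) ≤ Real.log (1 + 1 / (13 * (w : ℝ))) := by
        have h5 := Real.one_sub_inv_le_log_of_pos
          (show (0 : ℝ) < 1 + 1 / (13 * (w : ℝ)) by positivity)
        have h6 : 1 - (1 + 1 / (13 * (w : ℝ)))⁻¹ = 1 / (13 * w + 1) := by
          field_simp
          ring
        rw [h6] at h5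
        refine le_trans ?_ h5
        exact one_div_le_one_div_of_le (by positivity) (by linarith)
      have h7 : (1 + 1 / (13 * (w : ℝ))) ^ (14 * w) =
          Real.exp ((14 * w : ℕ) * Real.log (1 + 1 / (13 * (w : ℝ)))) := by
        rw [Real.exp_nat_mul, Real.exp_log (by positivity)]
      rw [h7, Real.exp_le_exp]
      push_cast
      have h8 := mul_le_mul_of_nonneg_left h4 (by positivity : (0 : ℝ) ≤ 14 * (w : ℝ))
      have h9 : 14 * (w : ℝ) * (1 / (14 * (w : ℝ))) = 1 := by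
        field_simp
      linarith
    have h4 : Real.exp N = Real.exp 1 ^ N := by
      rw [← Real.exp_nat_mul, mul_one]
    rw [h4, pow_mul]
    exact pow_le_pow_left₀ (Real.exp_pos 1).le h3 N
  refine ⟨w, 14 * w * N, hw1, ?_, ?_, ?_⟩
  · have h3 : ((1 : ℝ) / 2) ^ w ≤ δ / (8 * (m + 1)) := by
      have h4 : ((1 : ℝ) / 2) ^ w = Real.exp (-(w * Real.log 2)) := by
        rw [Real.exp_neg, Real.exp_nat_mul, Real.exp_log (by norm_num), one_div, inv_pow]
      have h5 : δ / (8 * (m + 1)) = Real.exp (-l) := by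
        rw [Real.exp_neg, hexpl, inv_div]
      rw [h4, h5, Real.exp_le_exp]
      linarith
    calc ((m : ℝ) + 1) * (1 / 2) ^ w ≤ (m + 1) * (δ / (8 * (m + 1))) :=
          mul_le_mul_of_nonneg_left h3 (by positivity)
      _ = δ / 8 := by field_simp
  · have h3 : tau w (14 * w * N) ≤ 2 * (δ ^ 2 / (160 * M ^ 2)) := by
      unfold tau
      rw [div_le_iff₀ (by positivity)]
      have h4 := hNl.trans hgrow
      have h5 : 2 * (δ ^ 2 / (160 * M ^ 2)) * (160 * M ^ 2 / δ ^ 2) = 2 := by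
        field_simp
      calc (2 : ℝ) = 2 * (δ ^ 2 / (160 * M ^ 2)) * (160 * M ^ 2 / δ ^ 2) := h5.symm
        _ ≤ _ := mul_le_mul_of_nonneg_left h4 (by positivity)
    calc (5 / δ) * (2 * M ^ 2 * tau w (14 * w * N))
        ≤ (5 / δ) * (2 * M ^ 2 * (2 * (δ ^ 2 / (160 * M ^ 2)))) := by gcongr
      _ = δ / 8 := by
          field_simp
          ring
  · intro e he0 he
    have hΛ : Lam w (14 * w * N) = Real.exp ((14 * w * N : ℕ) * Real.log (13 * w)) := by
      unfold Lam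
      rw [Real.exp_nat_mul, Real.exp_log (by positivity)]
    have hΛ1 : 1 ≤ Lam w (14 * w * N) := one_le_Lam w _ hw1
    set Λ := Lam w (14 * w * N) with hΛd
    have hmain := NumAmb_main hl8 hL8 hw1' hwu (Nat.cast_nonneg N) hNu
    have hexpo : expo m M δ = 1000 * l * Real.log l * L := rfl
    have hm1 : (m : ℝ) + 1 = δ / 8 * Real.exp l := by
      rw [hexpl]
      field_simp
    have hkey : ((m : ℝ) + 1) ^ 2 * (1 + Λ) ^ 2 * e ≤ δ ^ 2 / 56 := by
      have h3 : (1 + Λ) ^ 2 ≤ (2 * Λ) ^ 2 := pow_le_pow_left₀ (by linarith) (by linarith) 2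
      have h4 : ((m : ℝ) + 1) ^ 2 * (1 + Λ) ^ 2 * e ≤
          ((m : ℝ) + 1) ^ 2 * (2 * Λ) ^ 2 * Real.exp (-(expo m M δ)) :=
        mul_le_mul (mul_le_mul_of_nonneg_left h3 (by positivity)) he he0 (by positivity)
      have h5 : ((m : ℝ) + 1) ^ 2 * (2 * Λ) ^ 2 * Real.exp (-(expo m M δ)) =
          δ ^ 2 / 16 * Real.exp (2 * l + 2 * (14 * w * N) * Real.log (13 * w) -
            expo m M δ) := by
        rw [hm1, hΛ]
        rw [show 2 * l + 2 * (14 * (w : ℝ) * N) * Real.log (13 * w) - expo m M δ =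
          (l + l) + (((14 * w * N : ℕ) * Real.log (13 * w)) +
            ((14 * w * N : ℕ) * Real.log (13 * w))) + (-(expo m M δ)) by push_cast; ring]
        rw [Real.exp_add, Real.exp_add, Real.exp_add, Real.exp_add]
        ring
      have h6 : Real.exp (2 * l + 2 * (14 * w * N) * Real.log (13 * w) - expo m M δ) ≤
          Real.exp (-2) := by
        rw [Real.exp_le_exp, hexpo]
        linarith
      have h7 : Real.exp (-2) ≤ 1 / 4 := by
        rw [Real.exp_neg, show (2 : ℝ) = 1 + 1 by norm_num, Real.exp_add]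
        have h8 := Real.exp_one_gt_d9
        rw [inv_le_comm₀ (by positivity) (by norm_num)]
        norm_num
        nlinarith
      rw [h5] at h4
      have h9 : δ ^ 2 / 16 * Real.exp (2 * l + 2 * (14 * w * N) * Real.log (13 * w) -
            expo m M δ) ≤ δ ^ 2 / 16 * (1 / 4) :=
        mul_le_mul_of_nonneg_left (h6.trans h7) (by positivity)
      have h10 : 0 < δ ^ 2 := by positivity
      linarith
    refine ⟨?_, ?_, ?_⟩
    · calc (5 / δ) * (((m : ℝ) + 1) ^ 2 * (1 + Λ) ^ 2 * e) ≤ (5 / δ) * (δ ^ 2 / 56) := by gcongr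
        _ = 5 * δ / 56 := by
            field_simp
        _ ≤ δ / 8 := by linarith
    · calc e * (7 * ((m : ℝ) + 1) ^ 2 * (1 + Λ) ^ 2 / δ) =
            7 / δ * (((m : ℝ) + 1) ^ 2 * (1 + Λ) ^ 2 * e) := by ring
        _ ≤ 7 / δ * (δ ^ 2 / 56) := by gcongr
        _ = δ / 8 := by
            field_simp
            norm_num
    · have h3 : ((m : ℝ) + 1) * e ≤ ((m : ℝ) + 1) ^ 2 * (1 + Λ) ^ 2 * e := by
        refine mul_le_mul_of_nonneg_right ?_ he0
        have h4 : (1 : ℝ) ≤ (1 + Λ) ^ 2 := one_le_pow₀ (by linarith)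
        have h5 : (m : ℝ) + 1 ≤ ((m : ℝ) + 1) ^ 2 := by nlinarith
        calc (m : ℝ) + 1 ≤ ((m : ℝ) + 1) ^ 2 := h5
          _ = ((m : ℝ) + 1) ^ 2 * 1 := (mul_one _).symm
          _ ≤ _ := mul_le_mul_of_nonneg_left h4 (by positivity)
      have h6 : δ ^ 2 / 56 ≤ δ / 8 := by nlinarith
      linarith

end Pool.Agent.Work.MP_56168e_lc
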