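import Mathlib
import Pool.Agent.Work.MP_56168e_lc.Conc
import Pool.Agent.Work.MP_56168e_lc.TiF

set_option autoImplicit false

/-!
Upper sandwich.  PROOF.  m = L.length, f = fi L, Z = zc L, q = tr k f, c = 4/δ,
u = (1 + δ/4) (q^2 + (4/δ) Z (1-q)^2).  Pointwise u ≥ f: if f = 0 then u ≥ 0; if f = 1 then Z ≥ 1 and
q^2 + c(1-q)^2 ≥ c/(1+c), (1 + 1/c) c/(1+c) = 1.  ex (q^2) ≤ ex (f^2) = ex f (tr_sq_le).
Z (1-q)^2 = Z (f-q)^2 (both 0 when f = 0); on Z ≤ M it is ≤ M (f-q)^2, on Z > M it is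
≤ m (1+Λ)^2 (|q| ≤ nrm q ≤ Λ).  So ex u ≤ ex f + δ/4 + (5/δ)(M τ + m (1+Λ)^2 κ) (use ex f ≤ 1,
(1+δ/4)(4/δ) ≤ 5/δ).  nrm u ≤ (5/4)(Λ^2 + (4/δ) m (1+Λ)^2) ≤ 7 m (1+Λ)^2/δ (nrm Z ≤ m by nrm_ti).
Finally pe φ f ≤ pe φ u ≤ ex u + ε nrm u (fool).
-/

namespace Pool.Agent.Work.MP_56168e_lc

open Finset

variable {n : ℕ}

private lemma Upper_nrm_zc (L : List (PA n)) : nrm (zc L) ≤ L.length := by
  induction L with
  | nil =>
    have : zc ([] : List (PA n)) = fun _ => 0 := by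
      funext x
      exact zc_nil x
    rw [this, nrm_const]
    simp
  | cons T L ih =>
    have : zc (T :: L) = fun x => ti T x + zc L x := by
      funext x
      exact zc_cons T L x
    rw [this]
    refine (nrm_add_le _ _).trans ?_
    have h1 := nrm_ti T
    have h2 : nrm (fun x => zc L x) = nrm (zc L) := rfl
    rw [List.length_cons]
    push_cast
    have h3 : nrm (fun x => ti T x) = nrm (ti T) := rfl
    rw [h2, h3]
    linarith

private lemma Upper_fi (L : List (PA n)) (x : Cube n) : fi L x = 0 ∨ fi L x = 1 := by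
  unfold fi
  split_ifs
  · exact Or.inr rfl
  · exact Or.inl rfl

theorem upper (L : List (PA n)) (w k : ℕ) (hw : 1 ≤ w) (hL : ∀ T ∈ L, (dom T).card ≤ w)
    (hm : 1 ≤ L.length) {M κ ε δ : ℝ} (hM : 1 ≤ M)
    (hκ : ex (fun x => if M < zc L x then (1 : ℝ) else 0) ≤ κ)
    (hδ : 0 < δ) (hδ1 : δ ≤ 1) (hε : 0 ≤ ε) {φ : Cube n → ℝ} (hφ : Dens ε φ) :
    pe φ (fi L) ≤ ex (fi L) + δ / 4
      + (5 / δ) * (M * tau w k + L.length * (1 + Lam w k) ^ 2 * κ)
      + ε * (7 * L.length * (1 + Lam w k) ^ 2 / δ) := by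
  set m : ℝ := (L.length : ℝ) with hmdef
  have hm1 : (1 : ℝ) ≤ m := by rw [hmdef]; exact_mod_cast hm
  set Λ := Lam w k with hΛ
  set τ := tau w k with hτ
  have hΛ1 : 1 ≤ Λ := one_le_Lam w k hw
  set q := tr k (fi L) with hq
  have hqn : nrm q ≤ Λ := conc_nrm L w k hw hL
  have hqe : ex (fun x => (fi L x - q x) ^ 2) ≤ τ := conc_err L w k hw hL
  have hqa : ∀ x, |q x| ≤ Λ := fun x => (abs_le_nrm q x).trans hqn
  let u : Cube n → ℝ := fun x => (1 + δ / 4) * (q x ^ 2 + 4 / δ * (zc L x * (1 - q x) ^ 2))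
  have hfu : ∀ x, fi L x ≤ u x := by
    intro x
    show fi L x ≤ (1 + δ / 4) * (q x ^ 2 + 4 / δ * (zc L x * (1 - q x) ^ 2))
    have hz := zc_nonneg L x
    have hc : 0 < 4 / δ := by positivity
    rcases Upper_fi L x with h | h
    · rw [h]
      positivity
    · rw [h]
      have hz1 : 1 ≤ zc L x := by rw [← h]; exact fi_le_zc L x
      have h1 : (1 + δ / 4) * (q x ^ 2 + 4 / δ * (1 - q x) ^ 2) - 1 =
          δ / 4 * ((4 / δ + 1) * q x - 4 / δ) ^ 2 := by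
        field_simp
        ring
      have h2 : 0 ≤ δ / 4 * ((4 / δ + 1) * q x - 4 / δ) ^ 2 := by positivity
      have h3 : (1 + δ / 4) * (q x ^ 2 + 4 / δ * (1 - q x) ^ 2) ≤
          (1 + δ / 4) * (q x ^ 2 + 4 / δ * (zc L x * (1 - q x) ^ 2)) := by
        refine mul_le_mul_of_nonneg_left ?_ (by positivity)
        have h4 : (1 - q x) ^ 2 ≤ zc L x * (1 - q x) ^ 2 := by
          nlinarith [sq_nonneg (1 - q x)]
        have h5 := mul_le_mul_of_nonneg_left h4 hc.le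
        linarith
      linarith
  -- the second term
  have hpt : ∀ x, zc L x * (1 - q x) ^ 2 ≤ M * (fi L x - q x) ^ 2 +
      m * (1 + Λ) ^ 2 * (if M < zc L x then (1 : ℝ) else 0) := by
    intro x
    have hz := zc_nonneg L x
    rcases Upper_fi L x with h | h
    · rw [zc_eq_zero_of_fi L x h, zero_mul]
      have : (0 : ℝ) ≤ (if M < 0 then (1 : ℝ) else 0) := by split_ifs <;> norm_num
      positivity
    · rw [h]
      by_cases hMz : M < zc L x
      · rw [if_pos hMz, mul_one]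
        have h1 : (1 - q x) ^ 2 ≤ (1 + Λ) ^ 2 := by
          have h2 := abs_le.1 (hqa x)
          exact sq_le_sq' (by linarith) (by linarith)
        have h3 : zc L x * (1 - q x) ^ 2 ≤ m * (1 + Λ) ^ 2 :=
          mul_le_mul (zc_le L x) h1 (sq_nonneg _) (by linarith)
        have h4 : 0 ≤ M * (1 - q x) ^ 2 := by positivity
        linarith
      · rw [if_neg hMz, mul_zero, add_zero]
        exact mul_le_mul_of_nonneg_right (not_lt.1 hMz) (sq_nonneg _)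
  have hex2 : ex (fun x => zc L x * (1 - q x) ^ 2) ≤ M * τ + m * (1 + Λ) ^ 2 * κ := by
    refine (ex_mono hpt).trans ?_
    rw [ex_add, ex_smul, ex_smul]
    have h1 := mul_le_mul_of_nonneg_left hqe (by linarith : (0 : ℝ) ≤ M)
    have h2 := mul_le_mul_of_nonneg_left hκ (by positivity : (0 : ℝ) ≤ m * (1 + Λ) ^ 2)
    linarith
  have hex1 : ex (fun x => q x ^ 2) ≤ ex (fi L) := by
    refine (tr_sq_le k (fi L)).trans ?_
    refine ex_mono fun x => ?_
    rcases Upper_fi L x with h | h <;> rw [h] <;> norm_num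
  have hexf : ex (fi L) ≤ 1 := by
    rw [← ex_const (n := n) 1]
    exact ex_mono fun x => fi_le_one L x
  have hexf0 : 0 ≤ ex (fi L) := ex_nonneg fun x => fi_nonneg L x
  have hE0 : 0 ≤ ex (fun x => zc L x * (1 - q x) ^ 2) :=
    ex_nonneg fun x => mul_nonneg (zc_nonneg L x) (sq_nonneg _)
  have hexu : ex u ≤ ex (fi L) + δ / 4 + 5 / δ * (M * τ + m * (1 + Λ) ^ 2 * κ) := by
    have h1 : ex u = (1 + δ / 4) * (ex (fun x => q x ^ 2) +
        4 / δ * ex (fun x => zc L x * (1 - q x) ^ 2)) := by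
      show ex (fun x => (1 + δ / 4) * (q x ^ 2 + 4 / δ * (zc L x * (1 - q x) ^ 2))) = _
      rw [ex_smul, ex_add, ex_smul]
    rw [h1]
    have h2 : (1 + δ / 4) * (4 / δ) ≤ 5 / δ := by
      have : (1 + δ / 4) * (4 / δ) = (4 + δ) / δ := by
        field_simp
      rw [this]
      exact div_le_div_of_nonneg_right (by linarith) hδ.le
    have h3 : (1 + δ / 4) * (ex (fun x => q x ^ 2) +
        4 / δ * ex (fun x => zc L x * (1 - q x) ^ 2)) =
        (1 + δ / 4) * ex (fun x => q x ^ 2) + (1 + δ / 4) * (4 / δ) *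
          ex (fun x => zc L x * (1 - q x) ^ 2) := by ring
    rw [h3]
    have h4 : (1 + δ / 4) * ex (fun x => q x ^ 2) ≤ ex (fi L) + δ / 4 := by
      have h5 := mul_le_mul_of_nonneg_left hex1 (by positivity : (0 : ℝ) ≤ 1 + δ / 4)
      have h6 := mul_le_mul_of_nonneg_left hexf (by positivity : (0 : ℝ) ≤ δ / 4)
      linarith
    have h7 : (1 + δ / 4) * (4 / δ) * ex (fun x => zc L x * (1 - q x) ^ 2) ≤
        5 / δ * (M * τ + m * (1 + Λ) ^ 2 * κ) :=
      mul_le_mul h2 hex2 hE0 (by positivity)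
    linarith
  have hnu : nrm u ≤ 7 * m * (1 + Λ) ^ 2 / δ := by
    have h1 : nrm (fun x => q x ^ 2) ≤ Λ ^ 2 :=
      (nrm_sq_le q).trans (pow_le_pow_left₀ (nrm_nonneg q) hqn 2)
    have h2 : nrm (fun x => 1 - q x) ≤ 1 + Λ := by
      refine (nrm_sub_le (fun _ => 1) q).trans ?_
      rw [nrm_const, abs_one]
      linarith
    have h3 : nrm (fun x => (1 - q x) ^ 2) ≤ (1 + Λ) ^ 2 :=
      (nrm_sq_le _).trans (pow_le_pow_left₀ (nrm_nonneg _) h2 2)
    have h4 : nrm (fun x => zc L x * (1 - q x) ^ 2) ≤ m * (1 + Λ) ^ 2 :=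
      (nrm_mul_le _ _).trans (mul_le_mul (Upper_nrm_zc L) h3 (nrm_nonneg _) (by linarith))
    have h5 : nrm u ≤ (1 + δ / 4) * (Λ ^ 2 + 4 / δ * (m * (1 + Λ) ^ 2)) := by
      show nrm (fun x => (1 + δ / 4) * (q x ^ 2 + 4 / δ * (zc L x * (1 - q x) ^ 2))) ≤ _
      rw [nrm_smul, abs_of_nonneg (by positivity : (0 : ℝ) ≤ 1 + δ / 4)]
      refine mul_le_mul_of_nonneg_left ?_ (by positivity)
      refine (nrm_add_le _ _).trans ?_
      rw [nrm_smul, abs_of_nonneg (by positivity : (0 : ℝ) ≤ 4 / δ)]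
      have := mul_le_mul_of_nonneg_left h4 (by positivity : (0 : ℝ) ≤ 4 / δ)
      linarith
    have h6 : Λ ^ 2 ≤ m * (1 + Λ) ^ 2 / δ := by
      rw [le_div_iff₀ hδ]
      have h7 : Λ ^ 2 * δ ≤ Λ ^ 2 := by nlinarith [sq_nonneg Λ]
      have h8 : Λ ^ 2 ≤ (1 + Λ) ^ 2 := by nlinarith
      have h9 : (1 + Λ) ^ 2 ≤ m * (1 + Λ) ^ 2 := by nlinarith [sq_nonneg (1 + Λ)]
      linarith
    have h7 : Λ ^ 2 + 4 / δ * (m * (1 + Λ) ^ 2) ≤ 5 * (m * (1 + Λ) ^ 2 / δ) := by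
      have : 4 / δ * (m * (1 + Λ) ^ 2) = 4 * (m * (1 + Λ) ^ 2 / δ) := by ring
      rw [this]
      linarith
    have h8 : 0 ≤ m * (1 + Λ) ^ 2 / δ := by positivity
    calc nrm u ≤ (1 + δ / 4) * (Λ ^ 2 + 4 / δ * (m * (1 + Λ) ^ 2)) := h5
      _ ≤ (5 / 4) * (5 * (m * (1 + Λ) ^ 2 / δ)) :=
          mul_le_mul (by linarith) h7 (by positivity) (by norm_num)
      _ ≤ 7 * (m * (1 + Λ) ^ 2 / δ) := by linarith
      _ = _ := by ring
  have h1 := pe_mono hφ hfu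
  have h2 := (abs_le.1 (fool hφ hε u)).2
  have h3 := mul_le_mul_of_nonneg_left hnu hε
  linarith

end Pool.Agent.Work.MP_56168e_lc
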