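import Mathlib
import Pool.Agent.Work.MP_56168e_lc.Upper
import Pool.Agent.Work.MP_56168e_lc.Lower
import Pool.Agent.Work.MP_56168e_lc.NumAmb
import Pool.Agent.Work.MP_56168e_lc.Defs2

set_option autoImplicit false

/-!
Bounded ambiguity.  PROOF.  m = L.length, w, k from num_amb, L' = the terms of L of width ≤ w.
zc L' ≤ zc L, so κ works for L'.  If L' is empty, fi L' = 0.  Otherwise upper and lower for L' (note
M ≤ M^2, (5/δ) ≥ 1, L'.length ≤ m + 1; κ ≤ e := exp(-expo) replaced by itself, (m+1) κ ≤ δ/8 ≤ M)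
give |pe φ (fi L') - ex (fi L')| ≤ δ/4 + δ/8 + δ/8 + δ/8.  fi L' ≤ fi L ≤ fi L' + ∑ of ti T over the
long terms T, whose pe φ is at most m (2^(-w) + ε) and ex at most m 2^(-w) (ex_ti, fool, nrm_ti):
another δ/8 + δ/8.  dett: M = m+1 (zc ≤ length < m+1, so the exceptional probability is 0);
the hypothesis length ≤ m: expo is monotone in m.
-/

namespace Pool.Agent.Work.MP_56168e_lc

open Finset

variable {n : ℕ}

private lemma Amb_nrm_zc (L : List (PA n)) : nrm (zc L) ≤ L.length := by
  induction L with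
  | nil =>
    have : zc ([] : List (PA n)) = fun _ => 0 := by
      funext x
      exact zc_nil x
    rw [this, nrm_const]
    simp
  | cons T L ih =>
    have : zc (T :: L) = fun x => ti T x + zc L x := by
      funext x
      exact zc_cons T L x
    rw [this]
    refine (nrm_add_le _ _).trans ?_
    have h1 := nrm_ti T
    have h2 : nrm (fun x => zc L x) = nrm (zc L) := rfl
    rw [List.length_cons]
    push_cast
    have h3 : nrm (fun x => ti T x) = nrm (ti T) := rfl
    rw [h2, h3]
    linarith

private lemma Amb_ex_zc (L : List (PA n)) (w : ℕ) (h : ∀ T ∈ L, w ≤ (dom T).card) :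
    ex (zc L) ≤ L.length * (1 / 2) ^ w := by
  induction L with
  | nil =>
    have h2 : ex (zc ([] : List (PA n))) = 0 := by
      rw [← ex_const (n := n) 0]
      exact ex_congr fun x => zc_nil x
    rw [h2]
    simp
  | cons T L ih =>
    have h1 := ih fun T' h' => h T' (List.mem_cons_of_mem T h')
    have e2 : ex (zc (T :: L)) = pw T + ex (zc L) := by
      rw [← ex_ti, ← ex_add]
      exact ex_congr fun x => zc_cons T L x
    have h3 : pw T ≤ (1 / 2) ^ w := by
      unfold pw
      exact pow_le_pow_of_le_one (by norm_num) (by norm_num) (h T List.mem_cons_self)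
    rw [e2, List.length_cons]
    push_cast
    linarith

private lemma Amb_zc_filter (p : PA n → Prop) [DecidablePred p] (L : List (PA n)) (x : Cube n) :
    zc (L.filter (fun T => decide (p T))) x + zc (L.filter (fun T => decide (¬ p T))) x =
      zc L x := by
  induction L with
  | nil => simp [zc_nil]
  | cons T L ih =>
    by_cases h : p T
    · rw [List.filter_cons_of_pos (by simpa using h), List.filter_cons_of_neg (by simpa using h),
        zc_cons, zc_cons, ← ih]
      ring
    · rw [List.filter_cons_of_neg (by simpa using h), List.filter_cons_of_pos (by simpa using h),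
        zc_cons, zc_cons, ← ih]
      ring

private lemma Amb_fi_filter (p : PA n → Prop) [DecidablePred p] (L : List (PA n)) (x : Cube n) :
    fi (L.filter (fun T => decide (p T))) x ≤ fi L x ∧
      fi L x ≤ fi (L.filter (fun T => decide (p T))) x +
        zc (L.filter (fun T => decide (¬ p T))) x := by
  constructor
  · by_cases h : Ev (L.filter (fun T => decide (p T))) x
    · obtain ⟨T, hT, hs⟩ := h
      have h1 : Ev L x := ⟨T, (List.mem_filter.1 hT).1, hs⟩
      have h2 : fi L x = 1 := if_pos h1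
      rw [h2]
      exact fi_le_one _ x
    · have h2 : fi (L.filter (fun T => decide (p T))) x = 0 := if_neg h
      rw [h2]
      exact fi_nonneg L x
  · by_cases h : Ev L x
    · obtain ⟨T, hT, hs⟩ := h
      have h1 : fi L x = 1 := if_pos ⟨T, hT, hs⟩
      rw [h1]
      by_cases hp : p T
      · have h2 : fi (L.filter (fun T => decide (p T))) x = 1 :=
          if_pos ⟨T, List.mem_filter.2 ⟨hT, by simpa using hp⟩, hs⟩
        rw [h2]
        have := zc_nonneg (L.filter (fun T => decide (¬ p T))) x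
        linarith
      · have h2 : fi (L.filter (fun T => decide (¬ p T))) x = 1 :=
          if_pos ⟨T, List.mem_filter.2 ⟨hT, by simpa using hp⟩, hs⟩
        have h3 := fi_le_zc (L.filter (fun T => decide (¬ p T))) x
        have h4 := fi_nonneg (L.filter (fun T => decide (p T))) x
        linarith
    · have h2 : fi L x = 0 := if_neg h
      rw [h2]
      exact add_nonneg (fi_nonneg _ x) (zc_nonneg _ x)

theorem amb (L : List (PA n)) {M δ ε : ℝ} (hM : 1 ≤ M) (hδ : 0 < δ) (hδ1 : δ ≤ 1)
    (hκ : ex (fun x => if M < zc L x then (1 : ℝ) else 0) ≤ Real.exp (-(expo L.length M δ)))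
    {φ : Cube n → ℝ} (hφ : Dens ε φ) (hε0 : 0 ≤ ε)
    (hε : ε ≤ Real.exp (-(expo L.length M δ))) :
    |pe φ (fi L) - ex (fi L)| ≤ δ := by
  classical
  obtain ⟨w, k, hw, hw1, hw2, hw3⟩ := num_amb L.length hM hδ hδ1
  obtain ⟨e, he⟩ : ∃ e, e = Real.exp (-(expo L.length M δ)) := ⟨_, rfl⟩
  rw [← he] at hκ hε
  have he0 : 0 ≤ e := by rw [he]; exact (Real.exp_pos _).le
  obtain ⟨h1, h2, h3⟩ := hw3 e he0 he.le
  set m : ℝ := (L.length : ℝ) with hm
  have hm0 : 0 ≤ m := by rw [hm]; exact Nat.cast_nonneg _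
  have hΛ1 : 1 ≤ Lam w k := one_le_Lam w k hw
  have hτ0 := tau_pos w k
  set Λ := Lam w k with hΛ
  set τ := tau w k with hτ
  set L1 := L.filter (fun T => decide ((dom T).card ≤ w)) with hL1
  set L2 := L.filter (fun T => decide (¬ (dom T).card ≤ w)) with hL2
  have hlen1 : (L1.length : ℝ) ≤ m := by
    rw [hm]
    exact_mod_cast List.length_filter_le _ _
  have hlen2 : (L2.length : ℝ) ≤ m := by
    rw [hm]
    exact_mod_cast List.length_filter_le _ _
  have hz : ∀ x, zc L1 x + zc L2 x = zc L x := by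
    intro x
    exact Amb_zc_filter (fun T : PA n => (dom T).card ≤ w) L x
  have hf : ∀ x, fi L1 x ≤ fi L x ∧ fi L x ≤ fi L1 x + zc L2 x := by
    intro x
    exact Amb_fi_filter (fun T : PA n => (dom T).card ≤ w) L x
  -- the long terms
  have hexG : ex (zc L2) ≤ δ / 8 := by
    have h4 := Amb_ex_zc L2 w fun T hT => by
      have h5 := (List.mem_filter.1 hT).2
      simp only [not_le, decide_eq_true_eq] at h5
      exact h5.le
    have h6 : (L2.length : ℝ) * (1 / 2) ^ w ≤ (m + 1) * (1 / 2) ^ w :=
      mul_le_mul_of_nonneg_right (by linarith) (by positivity)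
    linarith
  have hpeG : pe φ (zc L2) ≤ δ / 4 := by
    have h4 := (abs_le.1 (fool hφ hε0 (zc L2))).2
    have h5 : ε * nrm (zc L2) ≤ e * (m + 1) :=
      mul_le_mul hε ((Amb_nrm_zc L2).trans (by linarith)) (nrm_nonneg _) he0
    linarith
  -- the short terms
  have hshort : |pe φ (fi L1) - ex (fi L1)| ≤ 5 * δ / 8 := by
    by_cases hlen : 1 ≤ L1.length
    · have hwid : ∀ T ∈ L1, (dom T).card ≤ w := fun T hT => by
        have h5 := (List.mem_filter.1 hT).2
        simpa using h5
      have hκ1 : ex (fun x => if M < zc L1 x then (1 : ℝ) else 0) ≤ e := by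
        refine le_trans (ex_mono fun x => ?_) hκ
        have h6 := hz x
        have h7 := zc_nonneg L2 x
        by_cases h8 : M < zc L1 x
        · rw [if_pos h8, if_pos (by linarith)]
        · rw [if_neg h8]
          split_ifs <;> norm_num
      have hδ5 : 1 ≤ 5 / δ := by
        rw [le_div_iff₀ hδ]
        linarith
      have hm1 : (L1.length : ℝ) ≤ (m + 1) ^ 2 := by nlinarith
      have hm2 : (L1.length : ℝ) ^ 2 ≤ (m + 1) ^ 2 :=
        pow_le_pow_left₀ (Nat.cast_nonneg _) (by linarith) 2
      have hup := upper L1 w k hw hwid hlen hM hκ1 hδ hδ1 hε0 hφ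
      have hlo := lower L1 w k hw hwid hlen hM hκ1 (by
        have : (L1.length : ℝ) * e ≤ (m + 1) * e := mul_le_mul_of_nonneg_right (by linarith) he0
        linarith) hε0 hφ
      rw [← hΛ, ← hτ] at hup hlo
      have hMM : M ≤ 2 * M ^ 2 := by nlinarith
      have hδ0 : 0 ≤ 5 / δ := by positivity
      have u1 : (5 / δ) * (M * τ + L1.length * (1 + Λ) ^ 2 * e) ≤ δ / 8 + δ / 8 := by
        have u2 : (5 / δ) * (M * τ) ≤ (5 / δ) * (2 * M ^ 2 * τ) :=
          mul_le_mul_of_nonneg_left (mul_le_mul_of_nonneg_right hMM hτ0.le) hδ0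
        have u3 : (5 / δ) * (L1.length * (1 + Λ) ^ 2 * e) ≤
            (5 / δ) * ((m + 1) ^ 2 * (1 + Λ) ^ 2 * e) := by
          refine mul_le_mul_of_nonneg_left ?_ hδ0
          exact mul_le_mul_of_nonneg_right (mul_le_mul_of_nonneg_right hm1 (sq_nonneg _)) he0
        rw [mul_add]
        linarith
      have u4 : ε * (7 * L1.length * (1 + Λ) ^ 2 / δ) ≤ δ / 8 := by
        refine le_trans ?_ h2
        refine mul_le_mul hε ?_ (by positivity) he0
        refine div_le_div_of_nonneg_right ?_ hδ.le
        exact mul_le_mul_of_nonneg_right (by linarith) (sq_nonneg _)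
      have v1 : 2 * M ^ 2 * τ ≤ δ / 8 := by
        have v2 : 0 ≤ 2 * M ^ 2 * τ := by positivity
        nlinarith
      have v3 : (L1.length : ℝ) ^ 2 * (1 + Λ) ^ 2 * e ≤ δ / 8 := by
        have v4 : (L1.length : ℝ) ^ 2 * (1 + Λ) ^ 2 * e ≤ (m + 1) ^ 2 * (1 + Λ) ^ 2 * e :=
          mul_le_mul_of_nonneg_right (mul_le_mul_of_nonneg_right hm2 (sq_nonneg _)) he0
        have v5 : 0 ≤ (m + 1) ^ 2 * (1 + Λ) ^ 2 * e := by positivity
        nlinarith
      have v6 : ε * (3 * (L1.length : ℝ) ^ 2 * (1 + Λ) ^ 2) ≤ δ / 8 := by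
        refine le_trans ?_ h2
        refine mul_le_mul hε ?_ (by positivity) he0
        rw [le_div_iff₀ hδ]
        have v7 : 3 * (L1.length : ℝ) ^ 2 * (1 + Λ) ^ 2 ≤ 7 * (m + 1) ^ 2 * (1 + Λ) ^ 2 :=
          mul_le_mul_of_nonneg_right (by nlinarith) (sq_nonneg _)
        have v8 : 0 ≤ 3 * (L1.length : ℝ) ^ 2 * (1 + Λ) ^ 2 := by positivity
        nlinarith
      rw [abs_le]
      constructor <;> linarith
    · have h4 : L1 = [] := by
        rw [← List.length_eq_zero_iff]
        omega
      have h5 : fi L1 = fun _ => 0 := by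
        rw [h4]
        funext x
        exact fi_nil x
      rw [h5, pe_const hφ, ex_const]
      norm_num
      positivity
  have hA := abs_le.1 hshort
  have hp1 : pe φ (fi L1) ≤ pe φ (fi L) := pe_mono hφ fun x => (hf x).1
  have hp2 : pe φ (fi L) ≤ pe φ (fi L1) + pe φ (zc L2) := by
    rw [← pe_add]
    exact pe_mono hφ fun x => (hf x).2
  have he1 : ex (fi L1) ≤ ex (fi L) := ex_mono fun x => (hf x).1
  have he2 : ex (fi L) ≤ ex (fi L1) + ex (zc L2) := by
    rw [← ex_add]
    exact ex_mono fun x => (hf x).2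
  rw [abs_le]
  constructor <;> linarith [hA.1, hA.2]

theorem dett (m : ℕ) {η : ℝ} (hη : 0 < η) (hη1 : η ≤ 1) :
    DF m η (Real.exp (-(expo m (m + 1) η))) := by
  intro n L φ hL hφ
  have hm : (0 : ℝ) ≤ m := Nat.cast_nonneg m
  have hLm : (L.length : ℝ) ≤ m := by exact_mod_cast hL
  have hL0 : (0 : ℝ) ≤ L.length := Nat.cast_nonneg _
  have hmono : expo L.length (m + 1) η ≤ expo m (m + 1) η := by
    unfold expo
    have h2 := Real.log_two_gt_d9
    have h8 : Real.log 8 = 3 * Real.log 2 := by
      rw [show (8 : ℝ) = 2 ^ (3 : ℕ) by norm_num, Real.log_pow]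
      push_cast
      ring
    have a1 : Real.log 8 ≤ Real.log (8 * (L.length + 1) / η) := by
      refine Real.log_le_log (by norm_num) ?_
      rw [le_div_iff₀ hη]
      nlinarith
    have a2 : Real.log (8 * (L.length + 1) / η) ≤ Real.log (8 * (m + 1) / η) := by
      refine Real.log_le_log (by positivity) ?_
      refine div_le_div_of_nonneg_right (by linarith) hη.le
    have a3 : 0 ≤ Real.log (8 * (m + 1) / η) := by linarith
    have a4 : 0 ≤ Real.log (Real.log (8 * (L.length + 1) / η)) :=
      Real.log_nonneg (by linarith)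
    have a5 : Real.log (Real.log (8 * (L.length + 1) / η)) ≤
        Real.log (Real.log (8 * (m + 1) / η)) := Real.log_le_log (by linarith) a2
    have a6 : 0 ≤ Real.log (8 * ((m : ℝ) + 1) / η) := a3
    refine mul_le_mul_of_nonneg_right ?_ a6
    exact mul_le_mul (by linarith) a5 a4 (by linarith)
  have hM : (1 : ℝ) ≤ m + 1 := by linarith
  refine amb L hM hη hη1 ?_ hφ (Real.exp_pos _).le ?_
  · have h1 : ex (fun x => if ((m : ℝ) + 1) < zc L x then (1 : ℝ) else 0) = 0 := by
      refine (ex_congr fun x => ?_).trans (ex_const (n := n) 0)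
      have h9 := zc_le L x
      have h10 : ¬ ((m : ℝ) + 1) < zc L x := fun h => by linarith
      rw [if_neg h10]
    rw [h1]
    exact (Real.exp_pos _).le
  · rw [Real.exp_le_exp]
    linarith

end Pool.Agent.Work.MP_56168e_lc
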