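import Mathlib
import Pool.Agent.Work.MP_56168e_lc.Defs2

set_option autoImplicit false

/-!
Close pairs.  clos T A i ⊆ ⋃_{a ∈ A, a = i or Dp i a} ⋃_{b ∈ A, b = a or Dp a b} {j : j = b or Dp b j};
each step has at most D + 1 choices.  (For the last step use the symmetry of Dp and j ∈ A.)
not_clo_disj: a common variable of UU i and UU j lies in dom (T a) and dom (T b) with a = i or
a ∈ nb i, b = j or b ∈ nb j, so a = b or Dp a b.
-/

namespace Pool.Agent.Work.MP_56168e_lc

open Finset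

variable {n s : ℕ}

lemma clo_symm {T : Fin s → PA n} {A : Finset (Fin s)} {i j : Fin s} (h : clo T A i j) :
    clo T A j i := by
  obtain ⟨a, ha, b, hb, h1, h2, h3⟩ := h
  exact ⟨b, hb, a, ha, h2, h1, h3.imp Eq.symm Dp_symm⟩

lemma clo_self {T : Fin s → PA n} {A : Finset (Fin s)} {i : Fin s} (h : i ∈ A) :
    clo T A i i :=
  ⟨i, h, i, h, Or.inl rfl, Or.inl rfl, Or.inl rfl⟩

theorem clos_card (T : Fin s → PA n) (A : Finset (Fin s)) {D : ℕ}
    (hD : ∀ i ∈ A, (nb T A i).card ≤ D) {i : Fin s} (hi : i ∈ A) :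
    (clos T A i).card ≤ (D + 1) ^ 3 := by
  classical
  let N : Fin s → Finset (Fin s) := fun i => insert i (nb T A i)
  have hN : ∀ a ∈ A, (N a).card ≤ D + 1 := fun a ha =>
    (card_insert_le _ _).trans (Nat.succ_le_succ (hD a ha))
  have hNA : ∀ a ∈ A, N a ⊆ A := by
    intro a ha b hb
    rcases mem_insert.mp hb with rfl | hb
    · exact ha
    · unfold nb at hb
      exact (mem_filter.mp hb).1
  have hmem : ∀ a b, b ∈ A → (b = a ∨ Dp T a b) → b ∈ N a := by
    intro a b hb h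
    rcases h with rfl | h
    · exact mem_insert_self _ _
    · refine mem_insert_of_mem ?_
      unfold nb
      exact mem_filter.mpr ⟨hb, h⟩
  have hsub : clos T A i ⊆ (N i).biUnion (fun a => (N a).biUnion N) := by
    intro j hj
    unfold clos at hj
    rw [mem_filter] at hj
    obtain ⟨hjA, a, ha, b, hb, h1, h2, h3⟩ := hj
    rw [mem_biUnion]
    refine ⟨a, hmem i a ha h1, ?_⟩
    rw [mem_biUnion]
    exact ⟨b, hmem a b hb (h3.imp Eq.symm id), hmem b j hjA (h2.imp Eq.symm Dp_symm)⟩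
  refine (card_le_card hsub).trans ?_
  have h1 : ((N i).biUnion (fun a => (N a).biUnion N)).card ≤ (N i).card * ((D + 1) * (D + 1)) := by
    refine card_biUnion_le_card_mul _ _ _ fun a ha => ?_
    have haA := hNA i hi ha
    refine (card_biUnion_le_card_mul _ _ (D + 1) fun b hb => hN b (hNA a haA hb)).trans ?_
    exact Nat.mul_le_mul_right _ (hN a haA)
  refine h1.trans ?_
  have := Nat.mul_le_mul_right ((D + 1) * (D + 1)) (hN i hi)
  calc _ ≤ _ := this
    _ = (D + 1) ^ 3 := by ring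

theorem not_clo_disj {T : Fin s → PA n} {A : Finset (Fin s)} {i j : Fin s} (hi : i ∈ A)
    (hj : j ∈ A) (h : ¬ clo T A i j) : Disjoint (UU T A i) (UU T A j) := by
  classical
  rw [Finset.disjoint_left]
  intro v hv1 hv2
  apply h
  have key : ∀ k ∈ A, v ∈ UU T A k → ∃ a ∈ A, (a = k ∨ Dp T k a) ∧ v ∈ dom (T a) := by
    intro k hk hv
    unfold UU at hv
    rcases mem_union.mp hv with hv | hv
    · exact ⟨k, hk, Or.inl rfl, hv⟩
    · obtain ⟨a, ha, hva⟩ := mem_biUnion.mp hv
      unfold nb at ha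
      rw [mem_filter] at ha
      exact ⟨a, ha.1, Or.inr ha.2, hva⟩
  obtain ⟨a, ha, h1, hva⟩ := key i hi hv1
  obtain ⟨b, hb, h2, hvb⟩ := key j hj hv2
  refine ⟨a, ha, b, hb, h1, h2, ?_⟩
  by_cases hab : a = b
  · exact Or.inl hab
  · exact Or.inr ⟨hab, fun hd => (Finset.disjoint_left.mp hd) hva hvb⟩

end Pool.Agent.Work.MP_56168e_lc
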