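import Mathlib
import Pool.Agent.Work.MP_56168e_lc.CloCard

set_option autoImplicit false

/-!
Sequences with a close pair.  Far T A f : the entries of the sequence f are pairwise not close.
PROOF.  If f is not far there are a < b with clo (f a) (f b) (clo_symm).  For fixed a < b,
∑_{f ∈ A^r, clo (f a) (f b)} ∏ p (f c) = (∑_{i∈A} p i ∑_{j ∈ clos i} p j) μ^(r-2), μ = ∑_A p ≤ μ0,
and the inner sums are ≤ (D+1)^3 q; so it is ≤ μ0^(r-1) (D+1)^3 q ≤ (D+1)^3 q μ0^r (1 ≤ μ0).  There
are C(r,2) pairs.  (Formally, e.g.: bound the indicator of clo by summing over the value of f a and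
use `Finset.prod_univ_sum` with the sets {i} at a, clos i at b and A elsewhere.)
-/

namespace Pool.Agent.Work.MP_56168e_lc

open Finset

variable {n s : ℕ}

def Far (T : Fin s → PA n) (A : Finset (Fin s)) {r : ℕ} (f : Fin r → Fin s) : Prop :=
  ∀ a b : Fin r, a ≠ b → ¬ clo T A (f a) (f b)

private lemma sum_biUnion_le_sum_sum {α β : Type*} [DecidableEq α] [DecidableEq β]
    (S : Finset α) (t : α → Finset β) (f : β → ℝ) (hf : ∀ x, 0 ≤ f x) :
    ∑ x ∈ S.biUnion t, f x ≤ ∑ i ∈ S, ∑ x ∈ t i, f x := by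
  induction S using Finset.induction_on with
  | empty => simp
  | insert a S ha ih =>
    rw [biUnion_insert, sum_insert ha]
    have h1 := sum_union_inter (s₁ := t a) (s₂ := S.biUnion t) (f := f)
    have h2 : 0 ≤ ∑ x ∈ t a ∩ S.biUnion t, f x := sum_nonneg fun x _ => hf x
    linarith

private lemma card_pairs (r : ℕ) :
    ((univ : Finset (Fin r × Fin r)).filter (fun p => p.1 < p.2)).card = r.choose 2 := by
  have h1 : ((univ : Finset (Fin r × Fin r)).filter (fun p => p.1 < p.2)).card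
      = ∑ b : Fin r, ((univ : Finset (Fin r)).filter (fun a => a < b)).card := by
    rw [card_filter, ← univ_product_univ, sum_product_right]
    refine sum_congr rfl fun b _ => ?_
    rw [card_filter]
  rw [h1]
  have h2 : ∀ b : Fin r, ((univ : Finset (Fin r)).filter (fun a => a < b)).card = b.val := by
    intro b
    have : (univ : Finset (Fin r)).filter (fun a => a < b) = Iio b := by
      ext a
      simp
    rw [this, Fin.card_Iio]
  simp only [h2]
  rw [Fin.sum_univ_eq_sum_range (fun i => i) r, sum_range_id, Nat.choose_two_right]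

open Classical in
private lemma pair_sum (T : Fin s → PA n) (A : Finset (Fin s)) {D : ℕ}
    (hD : ∀ i ∈ A, (nb T A i).card ≤ D) {q μ0 : ℝ} (hq0 : 0 ≤ q) (hq : ∀ i ∈ A, pw (T i) ≤ q)
    (hμ : ∑ i ∈ A, pw (T i) ≤ μ0) (hμ1 : 1 ≤ μ0) {r : ℕ} {a b : Fin r} (hab : a ≠ b) :
    ∑ f ∈ (Fintype.piFinset (fun _ : Fin r => A)).filter (fun f => clo T A (f a) (f b)),
      ∏ c, pw (T (f c)) ≤ (D + 1) ^ 3 * q * μ0 ^ r := by
  set Q : ℝ := (D + 1) ^ 3 * q with hQ
  have hQ0 : 0 ≤ Q := by positivity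
  have hp0 : ∀ i : Fin s, 0 ≤ pw (T i) := fun i => (pw_pos (T i)).le
  let S : Fin s → Fin r → Finset (Fin s) := fun i c => if c = a then {i} else
    if c = b then clos T A i else A
  have h1 : (Fintype.piFinset (fun _ : Fin r => A)).filter (fun f => clo T A (f a) (f b))
      ⊆ A.biUnion (fun i => Fintype.piFinset (S i)) := by
    intro f hf
    rw [mem_filter, Fintype.mem_piFinset] at hf
    rw [mem_biUnion]
    refine ⟨f a, hf.1 a, ?_⟩
    rw [Fintype.mem_piFinset]
    intro c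
    show f c ∈ if c = a then {f a} else if c = b then clos T A (f a) else A
    by_cases hca : c = a
    · rw [if_pos hca, hca]
      exact mem_singleton_self _
    · rw [if_neg hca]
      by_cases hcb : c = b
      · rw [if_pos hcb, hcb]
        unfold clos
        rw [mem_filter]
        exact ⟨hf.1 b, hf.2⟩
      · rw [if_neg hcb]
        exact hf.1 c
  have h2 : ∑ f ∈ (Fintype.piFinset (fun _ : Fin r => A)).filter (fun f => clo T A (f a) (f b)),
      ∏ c, pw (T (f c)) ≤ ∑ i ∈ A, ∑ f ∈ Fintype.piFinset (S i), ∏ c, pw (T (f c)) := by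
    refine (sum_le_sum_of_subset_of_nonneg h1 fun f _ _ => prod_nonneg fun c _ => hp0 _).trans ?_
    exact sum_biUnion_le_sum_sum A (fun i => Fintype.piFinset (S i)) _
      fun f => prod_nonneg fun c _ => hp0 _
  refine h2.trans ?_
  have h3 : ∀ i ∈ A, ∑ f ∈ Fintype.piFinset (S i), ∏ c, pw (T (f c))
      ≤ pw (T i) * (Q * μ0 ^ (r - 1)) := by
    intro i hi
    rw [← prod_univ_sum (S i) (fun _ j => pw (T j))]
    rw [← mul_prod_erase univ _ (mem_univ a), ← mul_prod_erase (univ.erase a) _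
      (mem_erase.mpr ⟨hab.symm, mem_univ b⟩)]
    have ea : ∑ j ∈ S i a, pw (T j) = pw (T i) := by
      show ∑ j ∈ (if a = a then {i} else if a = b then clos T A i else A), pw (T j) = pw (T i)
      rw [if_pos rfl, sum_singleton]
    have eb : ∑ j ∈ S i b, pw (T j) ≤ Q := by
      show ∑ j ∈ (if b = a then {i} else if b = b then clos T A i else A), pw (T j) ≤ Q
      rw [if_neg hab.symm, if_pos rfl]
      refine (sum_le_card_nsmul _ _ q fun j hj => ?_).trans ?_
      · unfold clos at hj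
        exact hq j (mem_filter.mp hj).1
      · rw [nsmul_eq_mul, hQ]
        have h4 := clos_card T A hD hi
        have h5 : ((clos T A i).card : ℝ) ≤ ((D : ℝ) + 1) ^ 3 := by exact_mod_cast h4
        exact mul_le_mul_of_nonneg_right h5 hq0
    have eb0 : 0 ≤ ∑ j ∈ S i b, pw (T j) := sum_nonneg fun j _ => hp0 j
    have ec : ∏ c ∈ (univ.erase a).erase b, ∑ j ∈ S i c, pw (T j) ≤ μ0 ^ (r - 1) := by
      have h6 : ∏ c ∈ (univ.erase a).erase b, ∑ j ∈ S i c, pw (T j)
          ≤ ∏ c ∈ (univ.erase a).erase b, μ0 := by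
        refine prod_le_prod (fun c _ => sum_nonneg fun j _ => hp0 j) fun c hc => ?_
        rw [mem_erase, mem_erase] at hc
        show ∑ j ∈ (if c = a then {i} else if c = b then clos T A i else A), pw (T j) ≤ μ0
        rw [if_neg hc.2.1, if_neg hc.1]
        exact hμ
      refine h6.trans ?_
      rw [prod_const]
      refine pow_le_pow_right₀ hμ1 ?_
      refine (card_le_card (erase_subset _ _)).trans ?_
      rw [card_erase_of_mem (mem_univ a), card_univ, Fintype.card_fin]
    have ec0 : 0 ≤ ∏ c ∈ (univ.erase a).erase b, ∑ j ∈ S i c, pw (T j) :=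
      prod_nonneg fun c _ => sum_nonneg fun j _ => hp0 j
    rw [ea]
    refine mul_le_mul_of_nonneg_left ?_ (hp0 i)
    exact mul_le_mul eb ec ec0 hQ0
  refine (sum_le_sum h3).trans ?_
  rw [← sum_mul]
  have h7 : 0 ≤ Q * μ0 ^ (r - 1) := by positivity
  refine (mul_le_mul_of_nonneg_right hμ h7).trans (le_of_eq ?_)
  have hr : r = (r - 1) + 1 := by
    have := a.pos
    omega
  calc μ0 * (Q * μ0 ^ (r - 1)) = Q * (μ0 ^ (r - 1) * μ0) := by ring
    _ = Q * μ0 ^ ((r - 1) + 1) := by rw [pow_succ]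
    _ = Q * μ0 ^ r := by rw [← hr]

open Classical in
theorem seq_sum (T : Fin s → PA n) (A : Finset (Fin s)) {D : ℕ}
    (hD : ∀ i ∈ A, (nb T A i).card ≤ D) {q μ0 : ℝ} (hq0 : 0 ≤ q) (hq : ∀ i ∈ A, pw (T i) ≤ q)
    (hμ : ∑ i ∈ A, pw (T i) ≤ μ0) (hμ1 : 1 ≤ μ0) (r : ℕ) :
    ∑ f ∈ (Fintype.piFinset (fun _ : Fin r => A)).filter (fun f => ¬ Far T A f),
      ∏ a, pw (T (f a)) ≤ (r.choose 2 : ℝ) * ((D + 1) ^ 3 * q * μ0 ^ r) := by
  set Q : ℝ := (D + 1) ^ 3 * q with hQ
  have hp0 : ∀ i : Fin s, 0 ≤ pw (T i) := fun i => (pw_pos (T i)).le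
  have h1 : (Fintype.piFinset (fun _ : Fin r => A)).filter (fun f => ¬ Far T A f)
      ⊆ ((univ : Finset (Fin r × Fin r)).filter (fun p => p.1 < p.2)).biUnion
        (fun p => (Fintype.piFinset (fun _ : Fin r => A)).filter
          (fun f => clo T A (f p.1) (f p.2))) := by
    intro f hf
    rw [mem_filter] at hf
    obtain ⟨hfA, hf⟩ := hf
    unfold Far at hf
    push Not at hf
    obtain ⟨a, b, hab, hc⟩ := hf
    rw [mem_biUnion]
    rcases lt_or_gt_of_ne hab with h | h
    · exact ⟨(a, b), mem_filter.mpr ⟨mem_univ _, h⟩, mem_filter.mpr ⟨hfA, hc⟩⟩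
    · exact ⟨(b, a), mem_filter.mpr ⟨mem_univ _, h⟩, mem_filter.mpr ⟨hfA, clo_symm hc⟩⟩
  refine (sum_le_sum_of_subset_of_nonneg h1 fun f _ _ => prod_nonneg fun c _ => hp0 _).trans ?_
  refine (sum_biUnion_le_sum_sum _ _ _ fun f => prod_nonneg fun c _ => hp0 _).trans ?_
  refine (sum_le_sum (g := fun _ => Q * μ0 ^ r) fun p hp => ?_).trans ?_
  · exact pair_sum T A hD hq0 hq hμ hμ1 (ne_of_lt (mem_filter.mp hp).2)
  · rw [sum_const, card_pairs, nsmul_eq_mul]

end Pool.Agent.Work.MP_56168e_lc
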