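import Mathlib
import Pool.Agent.Work.MP_56168e_lc.SeqSum
import Pool.Agent.Work.MP_56168e_lc.LeadF
import Pool.Agent.Work.MP_56168e_lc.ProdTi

set_option autoImplicit false

/-!
Factorial moments of the number of leaders.  PROOF.  r! C(cnt, r) = number of injective sequences of
leaders = ∑ over injective f ∈ A^r of ∏_a lead (f a) (`Nat.descFactorial`, `Fintype.card_embedding_eq`,
or choose_cnt and r! orderings of each r-subset), nu^r = ∑_{f ∈ A^r} ∏ ex (lead (f a))
(`Finset.prod_univ_sum`).  For f far (hence injective by clo_self) ex (∏ lead (f a)) = ∏ ex (lead (f a))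
(ex_prod_indep with U = UU, indep_lead, not_clo_disj).  For the other f both quantities are between
0 and ∏ pw (T (f a)): for injective f either two entries are dependent and ∏ lead = 0 (lead_mul) or
∏ lead ≤ ∏ ti and ex_prod_ti; ex (lead i) ≤ pw (T i).  So
|r! ex C(cnt,r) - nu^r| ≤ C(r,2) (D+1)^3 q μ0^r by seq_sum, and C(r,2) ≤ r!.
-/

namespace Pool.Agent.Work.MP_56168e_lc

open Finset

variable {n s : ℕ}

open Classical in
private lemma desc_eq (T : Fin s → PA n) (A : Finset (Fin s)) (r : ℕ) (x : Cube n) :
    (r.factorial : ℝ) * ((cnt T A x).choose r : ℝ)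
      = ∑ f ∈ (Fintype.piFinset (fun _ : Fin r => A)),
        (if Function.Injective f then ∏ a, lead T A (f a) x else 0) := by
  set L : Finset (Fin s) := A.filter (fun i => Lead T A i x) with hL
  have h1 : (r.factorial : ℝ) * ((cnt T A x).choose r : ℝ)
      = ((Fintype.card (Fin r ↪ L) : ℕ) : ℝ) := by
    rw [Fintype.card_embedding_eq, Fintype.card_coe, Fintype.card_fin,
      Nat.descFactorial_eq_factorial_mul_choose]
    push_cast
    rfl
  have h2 : ∀ f : Fin r → Fin s, (if Function.Injective f then ∏ a, lead T A (f a) x else 0)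
      = if (Function.Injective f ∧ ∀ a, Lead T A (f a) x) then (1 : ℝ) else 0 := by
    intro f
    by_cases hf : Function.Injective f
    · by_cases hl : ∀ a, Lead T A (f a) x
      · rw [if_pos hf, if_pos ⟨hf, hl⟩]
        refine prod_eq_one fun a _ => ?_
        unfold lead
        rw [if_pos (hl a)]
      · rw [if_pos hf, if_neg fun h => hl h.2]
        push Not at hl
        obtain ⟨a, ha⟩ := hl
        refine prod_eq_zero (mem_univ a) ?_
        unfold lead
        rw [if_neg ha]
    · rw [if_neg hf, if_neg fun h => hf h.1]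
  rw [h1, sum_congr rfl fun f _ => h2 f, ← sum_filter, sum_const, nsmul_eq_mul, mul_one]
  norm_cast
  rw [← card_univ]
  refine card_bij (fun e _ => fun a => ((e a : L) : Fin s)) ?_ ?_ ?_
  · intro e _
    rw [mem_filter, Fintype.mem_piFinset]
    refine ⟨fun a => ?_, ?_, fun a => ?_⟩
    · exact (mem_filter.mp (e a).2).1
    · intro a b hab
      exact e.injective (Subtype.ext hab)
    · exact (mem_filter.mp (e a).2).2
  · intro e _ e' _ h
    ext a
    have := congrFun h a
    exact congrArg Fin.val this
  · intro f hf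
    rw [mem_filter, Fintype.mem_piFinset] at hf
    refine ⟨⟨fun a => ⟨f a, mem_filter.mpr ⟨hf.1 a, hf.2.2 a⟩⟩, ?_⟩, mem_univ _, rfl⟩
    intro a b hab
    exact hf.2.1 (congrArg Subtype.val hab)

private lemma choose_two_le (r : ℕ) : r.choose 2 ≤ r.factorial := by
  by_cases h : 2 ≤ r
  · have h1 := Nat.choose_mul_factorial_mul_factorial h
    have h2 : 1 ≤ (r - 2).factorial := Nat.factorial_pos _
    have h3 : (2 : ℕ).factorial = 2 := rfl
    rw [h3] at h1
    calc r.choose 2 ≤ r.choose 2 * 2 * (r - 2).factorial := by nlinarith [Nat.zero_le (r.choose 2)]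
      _ = r.factorial := h1
  · rw [Nat.choose_eq_zero_of_lt (by omega)]
    exact Nat.zero_le _

theorem cnt_moment (T : Fin s → PA n) (A : Finset (Fin s)) {D : ℕ}
    (hD : ∀ i ∈ A, (nb T A i).card ≤ D) {q μ0 : ℝ} (hq0 : 0 ≤ q) (hq : ∀ i ∈ A, pw (T i) ≤ q)
    (hμ : ∑ i ∈ A, pw (T i) ≤ μ0) (hμ1 : 1 ≤ μ0) (r : ℕ) :
    |ex (fun x => ((cnt T A x).choose r : ℝ)) - nu T A ^ r / (r.factorial : ℝ)|
      ≤ (D + 1) ^ 3 * q * μ0 ^ r := by
  classical
  set Y : ℝ := (D + 1) ^ 3 * q * μ0 ^ r with hY
  have hY0 : 0 ≤ Y := by positivity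
  have hp0 : ∀ i : Fin s, 0 ≤ pw (T i) := fun i => (pw_pos (T i)).le
  have hl0 : ∀ i, 0 ≤ ex (lead T A i) := fun i => ex_nonneg fun x => lead_nonneg T A i x
  have hlp : ∀ i, ex (lead T A i) ≤ pw (T i) := fun i => by
    rw [← ex_ti]
    exact ex_mono fun x => lead_le_ti T A i x
  have h1 : (r.factorial : ℝ) * ex (fun x => ((cnt T A x).choose r : ℝ))
      = ∑ f ∈ (Fintype.piFinset (fun _ : Fin r => A)),
        ex (fun x => if Function.Injective f then ∏ a, lead T A (f a) x else 0) := by
    rw [← ex_smul, ← ex_sum]
    exact ex_congr fun x => desc_eq T A r x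
  have h2 : nu T A ^ r = ∑ f ∈ (Fintype.piFinset (fun _ : Fin r => A)),
      ∏ a, ex (lead T A (f a)) := by
    rw [← prod_univ_sum (fun _ : Fin r => A) (fun _ i => ex (lead T A i)), prod_const,
      card_univ, Fintype.card_fin]
    rfl
  -- far sequences
  have hfar : ∀ f ∈ (Fintype.piFinset (fun _ : Fin r => A)), Far T A f →
      ex (fun x => if Function.Injective f then ∏ a, lead T A (f a) x else 0)
        = ∏ a, ex (lead T A (f a)) := by
    intro f hf hF
    rw [Fintype.mem_piFinset] at hf
    have hinj : Function.Injective f := by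
      intro a b hab
      by_contra hne
      apply hF a b hne
      rw [← hab]
      exact clo_self (hf a)
    have e1 : (fun x => if Function.Injective f then ∏ a, lead T A (f a) x else 0)
        = fun x => ∏ a, lead T A (f a) x := by
      funext x
      rw [if_pos hinj]
    rw [e1]
    exact ex_prod_indep univ (fun a => lead T A (f a)) (fun a => UU T A (f a))
      (fun a _ => indep_lead T A (f a))
      (fun a _ b _ hab => not_clo_disj (hf a) (hf b) (hF a b hab))
  -- the others
  have hnf : ∀ f : Fin r → Fin s, f ∈ (Fintype.piFinset (fun _ : Fin r => A)) →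
      |ex (fun x => if Function.Injective f then ∏ a, lead T A (f a) x else 0)
        - ∏ a, ex (lead T A (f a))| ≤ ∏ a, pw (T (f a)) := by
    intro f hf
    rw [Fintype.mem_piFinset] at hf
    have hP0 : 0 ≤ ∏ a, pw (T (f a)) := prod_nonneg fun a _ => hp0 _
    have a1 : 0 ≤ ex (fun x => if Function.Injective f then ∏ a, lead T A (f a) x else 0) := by
      refine ex_nonneg fun x => ?_
      split_ifs
      · exact prod_nonneg fun a _ => lead_nonneg T A _ x
      · exact le_rfl
    have a2 : ex (fun x => if Function.Injective f then ∏ a, lead T A (f a) x else 0)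
        ≤ ∏ a, pw (T (f a)) := by
      by_cases hinj : Function.Injective f
      · by_cases hd : ∃ a b, Dp T (f a) (f b)
        · obtain ⟨a, b, hab⟩ := hd
          have hne : a ≠ b := fun h => hab.1 (by rw [h])
          have e1 : (fun x => if Function.Injective f then ∏ a, lead T A (f a) x else 0)
              = fun _ => (0 : ℝ) := by
            funext x
            rw [if_pos hinj, ← mul_prod_erase univ _ (mem_univ a),
              ← mul_prod_erase (univ.erase a) _ (mem_erase.mpr ⟨hne.symm, mem_univ b⟩),
              ← mul_assoc, lead_mul T A (hf a) (hf b) hab x, zero_mul]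
          rw [e1, ex_const]
          exact hP0
        · push Not at hd
          have h3 : ex (fun x => if Function.Injective f then ∏ a, lead T A (f a) x else 0)
              ≤ ex (fun x => ∏ i ∈ univ.image f, ti (T i) x) := by
            refine ex_mono fun x => ?_
            rw [if_pos hinj, prod_image fun a _ b _ h => hinj h]
            exact prod_le_prod (fun a _ => lead_nonneg T A _ x)
              fun a _ => lead_le_ti T A (f a) x
          refine h3.trans (le_of_eq ?_)
          rw [ex_prod_ti T (univ.image f), prod_image fun a _ b _ h => hinj h]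
          intro i hi j hj
          obtain ⟨a, _, rfl⟩ := mem_image.mp hi
          obtain ⟨b, _, rfl⟩ := mem_image.mp hj
          exact hd a b
      · have e1 : (fun x => if Function.Injective f then ∏ a, lead T A (f a) x else 0)
            = fun _ => (0 : ℝ) := by
          funext x
          rw [if_neg hinj]
        rw [e1, ex_const]
        exact hP0
    have b1 : 0 ≤ ∏ a, ex (lead T A (f a)) := prod_nonneg fun a _ => hl0 _
    have b2 : ∏ a, ex (lead T A (f a)) ≤ ∏ a, pw (T (f a)) :=
      prod_le_prod (fun a _ => hl0 _) fun a _ => hlp _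
    rw [abs_le]
    constructor <;> linarith
  have h3 : |(r.factorial : ℝ) * ex (fun x => ((cnt T A x).choose r : ℝ)) - nu T A ^ r|
      ≤ (r.choose 2 : ℝ) * Y := by
    rw [h1, h2, ← sum_sub_distrib]
    rw [← sum_filter_add_sum_filter_not _ (fun f => Far T A f)]
    have h4 : ∑ f ∈ (Fintype.piFinset (fun _ : Fin r => A)).filter (fun f => Far T A f),
        (ex (fun x => if Function.Injective f then ∏ a, lead T A (f a) x else 0)
          - ∏ a, ex (lead T A (f a))) = 0 := by
      refine sum_eq_zero fun f hf => ?_
      rw [mem_filter] at hf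
      rw [hfar f hf.1 hf.2, sub_self]
    rw [h4, zero_add]
    refine (abs_sum_le_sum_abs _ _).trans ?_
    refine (sum_le_sum fun f hf => hnf f (mem_filter.mp hf).1).trans ?_
    exact seq_sum T A hD hq0 hq hμ hμ1 r
  have hr0 : (0 : ℝ) < r.factorial := by exact_mod_cast Nat.factorial_pos r
  have h5 : (r.choose 2 : ℝ) * Y ≤ r.factorial * Y := by
    refine mul_le_mul_of_nonneg_right ?_ hY0
    exact_mod_cast choose_two_le r
  have h6 : |ex (fun x => ((cnt T A x).choose r : ℝ)) - nu T A ^ r / (r.factorial : ℝ)|
      * r.factorial ≤ Y * r.factorial := by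
    have e1 : |ex (fun x => ((cnt T A x).choose r : ℝ)) - nu T A ^ r / (r.factorial : ℝ)|
        * r.factorial
        = |(r.factorial : ℝ) * ex (fun x => ((cnt T A x).choose r : ℝ)) - nu T A ^ r| := by
      rw [← abs_of_pos hr0, ← abs_mul, abs_of_pos hr0]
      congr 1
      field_simp
    rw [e1]
    linarith
  exact le_of_mul_le_mul_right h6 hr0

end Pool.Agent.Work.MP_56168e_lc
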