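import Mathlib
import Pool.Agent.Work.MP_56168e_lc.Defs2
import Pool.Agent.Work.MP_56168e_lc.Cond
import Pool.Agent.Work.MP_56168e_lc.ProdTi
import Pool.Agent.Work.MP_56168e_lc.RlF
import Pool.Agent.Work.MP_56168e_lc.LeadF

set_option autoImplicit false

/-!
Fooling one set I of leaders.  PROOF.  P from prod_ti, G = the list of the terms T j, j ∈ B ∪ the
union over i ∈ I of {j ∈ A : j < i, Dp T i j} (length ≤ |B| + |I| D ≤ m1).  Pointwise
nz T B x * ∏_{i∈I} lead T A i x = ti P x * (1 - fi G x).  2 ε ≤ pw P follows from the hypothesis h2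
(pw P = 2^(-|dom P|), ε1 ≤ 1).  cond gives φ' of bias ≤ 2 ε 2^|dom P| ≤ ε1 with
pe φ (ti P * (1 - fi G)) = pe φ (ti P) * (1 - pe φ' (fi (rl P G))), and
ex (ti P * (1 - fi G)) = pw P * (1 - ex (fi (rl P G))) (ex_ti_mul, fi_rl).  DF for rl P G.
|pe φ (ti P) - pw P| ≤ ε (fool, nrm_ti, ex_ti).
If I is not pairwise non-dependent both sides are 0 (lead_mul): second theorem.
-/

namespace Pool.Agent.Work.MP_56168e_lc

open Finset

variable {n s : ℕ}

open Classical in
private lemma pointwise (T : Fin s → PA n) (A B I : Finset (Fin s)) (x : Cube n) {P : PA n}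
    (hP : ti P x = ∏ i ∈ I, ti (T i) x) :
    nz T B x * ∏ i ∈ I, lead T A i x = ti P x *
      (1 - fi ((B ∪ I.biUnion (fun i => (nb T A i).filter (fun j => j < i))).toList.map T) x) := by
  set J := B ∪ I.biUnion (fun i => (nb T A i).filter (fun j => j < i)) with hJ
  by_cases h0 : ∃ i ∈ I, ¬ Sat (T i) x
  · obtain ⟨i, hi, h⟩ := h0
    have h1 : ti P x = 0 := by
      rw [hP]
      refine prod_eq_zero hi ?_
      unfold ti
      rw [if_neg h]
    have h2 : ∏ i ∈ I, lead T A i x = 0 := by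
      refine prod_eq_zero hi ?_
      unfold lead Lead
      rw [if_neg fun h' => h h'.1]
    rw [h1, h2]
    ring
  push Not at h0
  have h1 : ti P x = 1 := by
    rw [hP]
    refine prod_eq_one fun i hi => ?_
    unfold ti
    rw [if_pos (h0 i hi)]
  have hEv : Ev (J.toList.map T) x ↔ ∃ j ∈ J, Sat (T j) x := by
    unfold Ev
    constructor
    · rintro ⟨S, hS, h⟩
      rw [List.mem_map] at hS
      obtain ⟨j, hj, rfl⟩ := hS
      exact ⟨j, mem_toList.mp hj, h⟩
    · rintro ⟨j, hj, h⟩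
      exact ⟨T j, List.mem_map.mpr ⟨j, mem_toList.mpr hj, rfl⟩, h⟩
  rw [h1, one_mul]
  by_cases hB : ∃ i ∈ B, Sat (T i) x
  · have h2 : Ev (J.toList.map T) x := by
      rw [hEv]
      obtain ⟨i, hi, h⟩ := hB
      exact ⟨i, mem_union_left _ hi, h⟩
    unfold nz fi
    rw [if_pos hB, if_pos h2]
    ring
  · have hnz : nz T B x = 1 := by
      unfold nz
      rw [if_neg hB]
    rw [hnz, one_mul]
    by_cases hl : ∀ i ∈ I, Lead T A i x
    · have h2 : ¬ Ev (J.toList.map T) x := by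
        rw [hEv]
        rintro ⟨j, hj, h⟩
        rcases mem_union.mp hj with hj | hj
        · exact hB ⟨j, hj, h⟩
        · obtain ⟨i, hi, hj⟩ := mem_biUnion.mp hj
          rw [mem_filter] at hj
          unfold nb at hj
          rw [mem_filter] at hj
          exact (hl i hi).2 j hj.1.1 hj.2 hj.1.2 h
      have h3 : ∏ i ∈ I, lead T A i x = 1 := by
        refine prod_eq_one fun i hi => ?_
        unfold lead
        rw [if_pos (hl i hi)]
      unfold fi
      rw [h3, if_neg h2]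
      ring
    · push Not at hl
      obtain ⟨i, hi, hli⟩ := hl
      have h2 : Ev (J.toList.map T) x := by
        rw [hEv]
        unfold Lead at hli
        push Not at hli
        obtain ⟨j, hjA, hji, hd, h⟩ := hli (h0 i hi)
        refine ⟨j, mem_union_right _ (mem_biUnion.mpr ⟨i, hi, ?_⟩), h⟩
        rw [mem_filter]
        refine ⟨?_, hji⟩
        unfold nb
        rw [mem_filter]
        exact ⟨hjA, hd⟩
      have h3 : ∏ i ∈ I, lead T A i x = 0 := by
        refine prod_eq_zero hi ?_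
        unfold lead
        rw [if_neg hli]
      unfold fi
      rw [h3, if_pos h2]
      ring

theorem delta_I (T : Fin s → PA n) (A B I : Finset (Fin s)) (hIA : I ⊆ A)
    (hI : ∀ i ∈ I, ∀ j ∈ I, ¬ Dp T i j) {D m1 : ℕ} (hD : ∀ i ∈ A, (nb T A i).card ≤ D)
    (hm : B.card + I.card * D ≤ m1) {η1 ε1 ε : ℝ} (hDF : DF m1 η1 ε1) (hε1 : ε1 ≤ 1)
    (hε0 : 0 ≤ ε) (h2 : 2 * ε * 2 ^ (∑ i ∈ I, (dom (T i)).card) ≤ ε1)
    {φ : Cube n → ℝ} (hφ : Dens ε φ) :
    |pe φ (fun x => nz T B x * ∏ i ∈ I, lead T A i x)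
      - ex (fun x => nz T B x * ∏ i ∈ I, lead T A i x)| ≤ ε + η1 * ∏ i ∈ I, pw (T i) := by
  classical
  obtain ⟨P, hPt, hPp, hPc⟩ := prod_ti T I hI
  set J := B ∪ I.biUnion (fun i => (nb T A i).filter (fun j => j < i)) with hJ
  set G := J.toList.map T with hG
  have hlen : G.length ≤ m1 := by
    rw [hG, List.length_map, length_toList]
    refine le_trans ?_ hm
    refine (card_union_le _ _).trans ?_
    refine Nat.add_le_add_left ?_ _
    refine card_biUnion_le.trans ?_
    refine (sum_le_card_nsmul I _ D fun i hi => ?_).trans (le_of_eq (smul_eq_mul _ _))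
    exact (card_filter_le _ _).trans (hD i (hIA hi))
  have e0 : (fun x => nz T B x * ∏ i ∈ I, lead T A i x)
      = fun x => ti P x * (1 - fi G x) := by
    funext x
    exact pointwise T A B I x (hPt x)
  have hpw : pw P = (1 / 2) ^ (∑ i ∈ I, (dom (T i)).card) := by
    unfold pw
    rw [hPc]
  have h2ε : 2 * ε ≤ pw P := by
    rw [hpw]
    have h3 : (1 / 2 : ℝ) ^ (∑ i ∈ I, (dom (T i)).card)
        = 1 / 2 ^ (∑ i ∈ I, (dom (T i)).card) := by rw [one_div, inv_pow, one_div]
    rw [h3, le_div_iff₀ (by positivity)]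
    exact h2.trans hε1
  obtain ⟨φ', hφ', hc⟩ := cond hφ hε0 P h2ε
  rw [hPc] at hφ'
  have hφ1 := hφ'.mono h2
  have e1 : (fun x => 1 - fi G (ow P x)) = fun x => 1 - fi (rl P G) x := by
    funext x
    rw [fi_rl]
  have h3 := hDF n (rl P G) φ' ((rl_length P G).trans hlen) hφ1
  rw [e0, hc, ex_ti_mul, e1, pe_sub φ' (fun _ => 1), ex_sub (fun _ => 1), pe_const hφ', ex_const]
  have e2 : pe φ' (fun x => fi (rl P G) x) = pe φ' (fi (rl P G)) := rfl
  have e3 : ex (fun x => fi (rl P G) x) = ex (fi (rl P G)) := rfl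
  rw [e2, e3, ← hPp]
  set a := pe φ' (fi (rl P G)) with ha
  set b := ex (fi (rl P G)) with hb
  set u := pe φ (ti P) with hu
  have ha0 : 0 ≤ a := pe_nonneg hφ' fun x => fi_nonneg _ x
  have ha1 : a ≤ 1 := by
    have := pe_mono hφ' (g := fi (rl P G)) (h := fun _ => 1) fun x => fi_le_one _ x
    rwa [pe_const hφ'] at this
  have h5 : |u - pw P| ≤ ε := by
    have h6 := fool hφ hε0 (ti P)
    rw [ex_ti] at h6
    have h7 := mul_le_mul_of_nonneg_left (nrm_ti P) hε0
    linarith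
  have e4 : u * (1 - a) - pw P * (1 - b) = (u - pw P) * (1 - a) + pw P * (b - a) := by ring
  rw [e4]
  refine (abs_add_le _ _).trans ?_
  rw [abs_mul, abs_mul, abs_of_nonneg (by linarith : 0 ≤ 1 - a), abs_of_pos (pw_pos P),
    abs_sub_comm b a]
  have h8 : |u - pw P| * (1 - a) ≤ ε * 1 :=
    mul_le_mul h5 (by linarith) (by linarith) hε0
  have h9 := mul_le_mul_of_nonneg_left h3 (pw_pos P).le
  linarith

lemma prod_lead_zero (T : Fin s → PA n) (A I : Finset (Fin s)) (hIA : I ⊆ A)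
    (hI : ¬ ∀ i ∈ I, ∀ j ∈ I, ¬ Dp T i j) (x : Cube n) : ∏ i ∈ I, lead T A i x = 0 := by
  push Not at hI
  obtain ⟨i, hi, j, hj, h⟩ := hI
  have hne : i ≠ j := h.1
  have h1 := lead_mul T A (hIA hi) (hIA hj) h x
  classical
  rw [← mul_prod_erase I _ hi, ← mul_prod_erase (I.erase i) _ (mem_erase.mpr ⟨hne.symm, hj⟩),
    ← mul_assoc, h1, zero_mul]

end Pool.Agent.Work.MP_56168e_lc
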