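import Mathlib
import Pool.Agent.Work.MP_56168e_lc.DeltaI
import Pool.Agent.Work.MP_56168e_lc.CntMom
import Pool.Agent.Work.MP_56168e_lc.Bonf

set_option autoImplicit false

/-!
Bonferroni fooling.  PROOF.  h = nz T B ∈ [0,1], Z = cnt T A, nz T A = 1[Z = 0] (nz_eq_cnt).
bonf_nat: |h 1[Z=0] - ∑_{r<R} (-1)^r h C(Z,r)| ≤ h C(Z,R).  With Δ_r = pe φ (h C(Z,r)) - ex (h C(Z,r)):
|difference| ≤ ∑_{r<R} |Δ_r| + pe φ (h C(Z,R)) + ex (h C(Z,R)) ≤ ∑_{r≤R} |Δ_r| + 2 ex (C(Z,R)), and
ex (C(Z,R)) ≤ nu^R/R! + (D+1)^3 q μ0^R (cnt_moment).  |Δ_r| ≤ ∑_{I ∈ powersetCard r A} (...): by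
choose_cnt, delta_I (for pairwise non-dependent I; |I| ≤ R, ∑ |dom (T i)| ≤ R W) and prod_lead_zero
(otherwise), |Δ_r| ≤ (number of I) ε + η1 ∑_I ∏ pw ≤ s^R ε + η1 μ0^R  (number of r-subsets of A ≤ s^r
≤ s^R; ∑_I ∏_{i∈I} pw ≤ (∑_A pw)^r ≤ μ0^R, e.g. by `Finset.sum_pow_le_pow_sum`-type or esymm bounds,
or by induction on r: the r-subsets are among the insertions).
-/

namespace Pool.Agent.Work.MP_56168e_lc

open Finset

variable {n s : ℕ}

private lemma esymm_le {ι : Type*} [DecidableEq ι] (A : Finset ι) (p : ι → ℝ)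
    (hp : ∀ i, 0 ≤ p i) (r : ℕ) :
    ∑ I ∈ A.powersetCard r, ∏ i ∈ I, p i ≤ (∑ i ∈ A, p i) ^ r := by
  induction A using Finset.induction_on generalizing r with
  | empty =>
    cases r with
    | zero => simp
    | succ r =>
      rw [powersetCard_eq_empty.mpr (by simp)]
      simp
  | insert a A ha ih =>
    have hμ : 0 ≤ ∑ i ∈ A, p i := sum_nonneg fun i _ => hp i
    cases r with
    | zero => simp
    | succ r =>
      rw [powersetCard_succ_insert ha, sum_insert ha]
      have hdisj : Disjoint (powersetCard (r + 1) A) ((powersetCard r A).image (insert a)) := by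
        rw [Finset.disjoint_left]
        intro I hI hI2
        obtain ⟨J, _, rfl⟩ := mem_image.mp hI2
        exact ha ((mem_powersetCard.mp hI).1 (mem_insert_self a J))
      rw [sum_union hdisj, sum_image]
      · have h1 : ∑ J ∈ powersetCard r A, ∏ i ∈ insert a J, p i
            = p a * ∑ J ∈ powersetCard r A, ∏ i ∈ J, p i := by
          rw [mul_sum]
          refine sum_congr rfl fun J hJ => ?_
          rw [prod_insert fun h => ha ((mem_powersetCard.mp hJ).1 h)]
        rw [h1]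
        have h2 := ih (r + 1)
        have h3 := mul_le_mul_of_nonneg_left (ih r) (hp a)
        have h4 : (∑ i ∈ A, p i) ^ r ≤ (p a + ∑ i ∈ A, p i) ^ r :=
          pow_le_pow_left₀ hμ (by linarith [hp a]) r
        have h5 : (∑ i ∈ A, p i) ^ (r + 1) + p a * (∑ i ∈ A, p i) ^ r
            ≤ (p a + ∑ i ∈ A, p i) ^ (r + 1) := by
          rw [pow_succ, pow_succ]
          have h6 := mul_le_mul_of_nonneg_left h4 (by linarith [hp a] :
            0 ≤ p a + ∑ i ∈ A, p i)
          nlinarith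
        linarith
      · intro J hJ J' hJ' hJJ
        have e1 : (insert a J).erase a = J :=
          erase_insert fun h => ha ((mem_powersetCard.mp hJ).1 h)
        have e2 : (insert a J').erase a = J' :=
          erase_insert fun h => ha ((mem_powersetCard.mp hJ').1 h)
        rw [← e1, ← e2, hJJ]

theorem bonf_fool (T : Fin s → PA n) (A B : Finset (Fin s)) {D R W m1 : ℕ} (hs : 1 ≤ s)
    (hR : 1 ≤ R) (hD : ∀ i ∈ A, (nb T A i).card ≤ D) (hW : ∀ i ∈ A, (dom (T i)).card ≤ W)
    {q μ0 η1 ε1 ε : ℝ} (hq0 : 0 ≤ q) (hq : ∀ i ∈ A, pw (T i) ≤ q)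
    (hμ : ∑ i ∈ A, pw (T i) ≤ μ0) (hμ1 : 1 ≤ μ0) (hm : B.card + R * D ≤ m1)
    (hDF : DF m1 η1 ε1) (hη : 0 ≤ η1) (hε1 : ε1 ≤ 1) (hε0 : 0 ≤ ε)
    (hε : 2 * ε * 2 ^ (R * W) ≤ ε1) {φ : Cube n → ℝ} (hφ : Dens ε φ) :
    |pe φ (fun x => nz T B x * nz T A x) - ex (fun x => nz T B x * nz T A x)|
      ≤ (R + 1) * ((s : ℝ) ^ R * ε + η1 * μ0 ^ R)
        + 2 * (nu T A ^ R / (R.factorial : ℝ) + (D + 1) ^ 3 * q * μ0 ^ R) := by
  classical
  set X := ((D : ℝ) + 1) ^ 3 * q * μ0 ^ R with hX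
  set d := (s : ℝ) ^ R * ε + η1 * μ0 ^ R with hd
  have hsr : (1 : ℝ) ≤ s := by exact_mod_cast hs
  have hd0 : 0 ≤ d := by positivity
  set C : ℕ → Cube n → ℝ := fun r x => ((cnt T A x).choose r : ℝ) with hC
  have hC0 : ∀ r x, 0 ≤ C r x := fun r x => Nat.cast_nonneg _
  -- level r
  have hΔ : ∀ r ≤ R, |pe φ (fun x => nz T B x * C r x) - ex (fun x => nz T B x * C r x)| ≤ d := by
    intro r hr
    have e1 : (fun x => nz T B x * C r x)
        = fun x => ∑ I ∈ A.powersetCard r, nz T B x * ∏ i ∈ I, lead T A i x := by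
      funext x
      rw [hC]
      simp only
      rw [choose_cnt, mul_sum]
    rw [e1, pe_sum, ex_sum, ← sum_sub_distrib]
    refine (abs_sum_le_sum_abs _ _).trans ?_
    have h1 : ∀ I ∈ A.powersetCard r,
        |pe φ (fun x => nz T B x * ∏ i ∈ I, lead T A i x)
          - ex (fun x => nz T B x * ∏ i ∈ I, lead T A i x)| ≤ ε + η1 * ∏ i ∈ I, pw (T i) := by
      intro I hI
      obtain ⟨hIA, hIc⟩ := mem_powersetCard.mp hI
      by_cases hnd : ∀ i ∈ I, ∀ j ∈ I, ¬ Dp T i j
      · refine delta_I T A B I hIA hnd hD ?_ hDF hε1 hε0 ?_ hφ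
        · rw [hIc]
          have := Nat.mul_le_mul_right D hr
          omega
        · refine le_trans ?_ hε
          have h2 : ∑ i ∈ I, (dom (T i)).card ≤ R * W := by
            refine (sum_le_card_nsmul I _ W fun i hi => hW i (hIA hi)).trans ?_
            rw [smul_eq_mul, hIc]
            exact Nat.mul_le_mul_right W hr
          have h3 : (2 : ℝ) ^ (∑ i ∈ I, (dom (T i)).card) ≤ 2 ^ (R * W) :=
            pow_le_pow_right₀ (by norm_num) h2
          exact mul_le_mul_of_nonneg_left h3 (by positivity)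
      · have e2 : (fun x => nz T B x * ∏ i ∈ I, lead T A i x) = fun _ => (0 : ℝ) := by
          funext x
          rw [prod_lead_zero T A I hIA hnd x, mul_zero]
        rw [e2, pe_const hφ, ex_const, sub_zero, abs_zero]
        have : 0 ≤ ∏ i ∈ I, pw (T i) := prod_nonneg fun i _ => (pw_pos (T i)).le
        positivity
    refine (sum_le_sum h1).trans ?_
    rw [sum_add_distrib, sum_const, nsmul_eq_mul, ← mul_sum, card_powersetCard]
    have h2 : ((A.card.choose r : ℕ) : ℝ) ≤ (s : ℝ) ^ R := by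
      have h3 : A.card ≤ s := by
        have := card_le_univ A
        rwa [Fintype.card_fin] at this
      have h4 : A.card.choose r ≤ s ^ R :=
        ((Nat.choose_le_pow _ _).trans (Nat.pow_le_pow_left h3 r)).trans
          (Nat.pow_le_pow_right hs hr)
      exact_mod_cast h4
    have h5 : ∑ I ∈ A.powersetCard r, ∏ i ∈ I, pw (T i) ≤ μ0 ^ R := by
      refine (esymm_le A (fun i => pw (T i)) (fun i => (pw_pos (T i)).le) r).trans ?_
      refine (pow_le_pow_left₀ (sum_nonneg fun i _ => (pw_pos (T i)).le) hμ r).trans ?_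
      exact pow_le_pow_right₀ hμ1 hr
    have h6 := mul_le_mul_of_nonneg_right h2 hε0
    have h7 := mul_le_mul_of_nonneg_left h5 hη
    rw [hd]
    linarith
  -- pointwise Bonferroni
  have hpt : ∀ x, |nz T B x * nz T A x
      - ∑ r ∈ range R, (-1) ^ r * (nz T B x * C r x)| ≤ nz T B x * C R x := by
    intro x
    have h1 := bonf_nat (cnt T A x) R hR
    rw [← nz_eq_cnt T A x] at h1
    have e1 : nz T B x * nz T A x - ∑ r ∈ range R, (-1) ^ r * (nz T B x * C r x)
        = nz T B x * (nz T A x - ∑ r ∈ range R, (-1) ^ r * ((cnt T A x).choose r : ℝ)) := by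
      rw [mul_sub, mul_sum]
      congr 1
      refine sum_congr rfl fun r _ => ?_
      rw [hC]
      ring
    rw [e1, abs_mul, abs_of_nonneg (nz_nonneg T B x)]
    exact mul_le_mul_of_nonneg_left h1 (nz_nonneg T B x)
  have hgen : ∀ (ε' : ℝ) (ψ : Cube n → ℝ), (∀ x, 0 ≤ ψ x) →
      |pe ψ (fun x => nz T B x * nz T A x)
        - ∑ r ∈ range R, (-1) ^ r * pe ψ (fun x => nz T B x * C r x)|
        ≤ pe ψ (fun x => nz T B x * C R x) := by
    intro _ ψ hψ
    have e1 : ∑ r ∈ range R, (-1) ^ r * pe ψ (fun x => nz T B x * C r x)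
        = pe ψ (fun x => ∑ r ∈ range R, (-1) ^ r * (nz T B x * C r x)) := by
      rw [pe_sum]
      refine sum_congr rfl fun r _ => ?_
      rw [pe_smul]
    rw [e1, ← pe_sub]
    have hm : ∀ g h : Cube n → ℝ, (∀ x, g x ≤ h x) → pe ψ g ≤ pe ψ h := fun g h hgh =>
      ex_mono fun x => mul_le_mul_of_nonneg_left (hgh x) (hψ x)
    rw [abs_le]
    constructor
    · have h2 := hm (fun x => (-1) * (nz T B x * C R x))
        (fun x => nz T B x * nz T A x - ∑ r ∈ range R, (-1) ^ r * (nz T B x * C r x))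
        fun x => by
          have := (abs_le.mp (hpt x)).1
          linarith
      rw [pe_smul] at h2
      linarith
    · exact hm _ _ fun x => (abs_le.mp (hpt x)).2
  have h1 := hgen 0 φ hφ.nonneg
  have h2 := hgen 0 (fun _ => 1) fun _ => zero_le_one
  simp only [pe_one] at h2
  have h3 : |∑ r ∈ range R, (-1) ^ r * pe φ (fun x => nz T B x * C r x)
      - ∑ r ∈ range R, (-1) ^ r * ex (fun x => nz T B x * C r x)| ≤ R * d := by
    rw [← sum_sub_distrib]
    refine (abs_sum_le_sum_abs _ _).trans ?_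
    refine (sum_le_sum (g := fun _ => d) fun r hr => ?_).trans ?_
    · rw [← mul_sub, abs_mul, abs_pow, abs_neg, abs_one, one_pow, one_mul]
      exact hΔ r (mem_range.mp hr).le
    · rw [sum_const, card_range, nsmul_eq_mul]
  have h4 := (abs_le.mp (hΔ R le_rfl)).2
  have h5 : ex (fun x => nz T B x * C R x) ≤ nu T A ^ R / (R.factorial : ℝ) + X := by
    have h6 : ex (fun x => nz T B x * C R x) ≤ ex (C R) := ex_mono fun x => by
      have := mul_le_mul_of_nonneg_right (nz_le_one T B x) (hC0 R x)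
      linarith
    have h7 := (abs_le.mp (cnt_moment T A hD hq0 hq hμ hμ1 R)).2
    have h8 : ex (C R) = ex (fun x => ((cnt T A x).choose R : ℝ)) := rfl
    linarith
  have h1' := abs_le.mp h1
  have h2' := abs_le.mp h2
  have h3' := abs_le.mp h3
  have e5 : ((R : ℝ) + 1) * d = R * d + d := by ring
  rw [abs_le]
  constructor <;> linarith [h1'.1, h1'.2, h2'.1, h2'.2, h3'.1, h3'.2]

end Pool.Agent.Work.MP_56168e_lc
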