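import Mathlib
import Pool.Agent.Work.MP_56168e_lc.Defs2

set_option autoImplicit false

/-!
Greedy choice of pairwise non-dependent terms.  PROOF.  Induction on m0: given E ⊆ B with |E| = m
pairwise non-dependent and m < m0, the set E together with all terms of B dependent on a member of
E has at most m (D+1) < |B| elements; add an element outside.
-/

namespace Pool.Agent.Work.MP_56168e_lc

open Finset

variable {n s : ℕ}

theorem greedy (T : Fin s → PA n) (B : Finset (Fin s)) {D m0 : ℕ}
    (hD : ∀ i ∈ B, (nb T B i).card ≤ D) (hB : m0 * (D + 1) < B.card) :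
    ∃ E ⊆ B, E.card = m0 ∧ ∀ i ∈ E, ∀ j ∈ E, ¬ Dp T i j := by
  classical
  have key : ∀ m ≤ m0, ∃ E ⊆ B, E.card = m ∧ ∀ i ∈ E, ∀ j ∈ E, ¬ Dp T i j := by
    intro m
    induction m with
    | zero =>
      intro _
      exact ⟨∅, empty_subset _, card_empty, fun i hi => absurd hi (notMem_empty i)⟩
    | succ m ih =>
      intro hm
      obtain ⟨E, hE, hc, hd⟩ := ih (by omega)
      have h1 : (E.biUnion (fun i => insert i (nb T B i))).card ≤ m * (D + 1) := by
        refine (card_biUnion_le_card_mul _ _ (D + 1) fun i hi => ?_).trans (by rw [hc])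
        exact (card_insert_le _ _).trans (Nat.succ_le_succ (hD i (hE hi)))
      have h2 : m * (D + 1) ≤ m0 * (D + 1) := Nat.mul_le_mul_right _ (by omega)
      have h3 : (E.biUnion (fun i => insert i (nb T B i))).card < B.card := by omega
      obtain ⟨b, hbB, hb⟩ := exists_mem_notMem_of_card_lt_card h3
      rw [mem_biUnion] at hb
      push Not at hb
      have hbE : b ∉ E := fun h => (hb b h) (mem_insert_self _ _)
      have hbd : ∀ i ∈ E, ¬ Dp T i b := by
        intro i hi h
        apply hb i hi
        refine mem_insert_of_mem ?_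
        unfold nb
        exact mem_filter.mpr ⟨hbB, h⟩
      refine ⟨insert b E, insert_subset hbB hE, by rw [card_insert_of_notMem hbE, hc], ?_⟩
      intro i hi j hj
      rcases mem_insert.mp hi with hi1 | hi1
      · rcases mem_insert.mp hj with hj1 | hj1
        · exact fun h => h.1 (hi1.trans hj1.symm)
        · rw [hi1]
          exact fun h => hbd j hj1 (Dp_symm h)
      · rcases mem_insert.mp hj with hj1 | hj1
        · rw [hj1]
          exact hbd i hi1
        · exact hd i hi1 j hj1
  exact key m0 le_rfl

end Pool.Agent.Work.MP_56168e_lc
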