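import Mathlib
import Pool.Agent.Work.MP_56168e_lc.CntMom
import Pool.Agent.Work.MP_56168e_lc.Bonf

set_option autoImplicit false

/-!
No leader, uniform measure.  PROOF.  nz T A = 1[Z=0] ≤ ∑_{r<R} (-1)^r C(Z,r) + C(Z,R) (bonf_nat,
nz_eq_cnt).  Take ex and use cnt_moment for r ≤ R ((D+1)^3 q μ0^r ≤ (D+1)^3 q μ0^R as 1 ≤ μ0):
≤ ∑_{r<R} (-1)^r nu^r/r! + nu^R/R! + (R+1)(...) ≤ exp(-nu) + 2 nu^R/R! + (R+1)(...) (exp_bonf).
-/

namespace Pool.Agent.Work.MP_56168e_lc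

open Finset

variable {n s : ℕ}

theorem none_unif (T : Fin s → PA n) (A : Finset (Fin s)) {D R : ℕ} (hR : 1 ≤ R)
    (hD : ∀ i ∈ A, (nb T A i).card ≤ D) {q μ0 : ℝ} (hq0 : 0 ≤ q) (hq : ∀ i ∈ A, pw (T i) ≤ q)
    (hμ : ∑ i ∈ A, pw (T i) ≤ μ0) (hμ1 : 1 ≤ μ0) :
    ex (nz T A) ≤ Real.exp (-(nu T A)) + 2 * (nu T A ^ R / (R.factorial : ℝ))
      + (R + 1) * ((D + 1) ^ 3 * q * μ0 ^ R) := by
  classical
  set ν := nu T A with hν
  have hν0 : 0 ≤ ν := sum_nonneg fun i _ => ex_nonneg fun x => lead_nonneg T A i x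
  set X := ((D : ℝ) + 1) ^ 3 * q with hX
  have hX0 : 0 ≤ X := by positivity
  -- pointwise Bonferroni
  have h1 : ∀ x, nz T A x ≤ ∑ r ∈ range R, (-1) ^ r * ((cnt T A x).choose r : ℝ)
      + ((cnt T A x).choose R : ℝ) := by
    intro x
    rw [nz_eq_cnt]
    have := (abs_le.mp (bonf_nat (cnt T A x) R hR)).2
    linarith
  have h2 : ex (nz T A) ≤ ∑ r ∈ range R, (-1) ^ r * ex (fun x => ((cnt T A x).choose r : ℝ))
      + ex (fun x => ((cnt T A x).choose R : ℝ)) := by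
    refine (ex_mono h1).trans (le_of_eq ?_)
    rw [ex_add, ex_sum]
    congr 1
    refine sum_congr rfl fun r _ => ?_
    rw [ex_smul]
  have hmom := fun r => cnt_moment T A hD hq0 hq hμ hμ1 r
  have hpow : ∀ r ≤ R, X * μ0 ^ r ≤ X * μ0 ^ R := fun r hr =>
    mul_le_mul_of_nonneg_left (pow_le_pow_right₀ hμ1 hr) hX0
  have h3 : ∑ r ∈ range R, (-1) ^ r * ex (fun x => ((cnt T A x).choose r : ℝ))
      ≤ ∑ r ∈ range R, (-1) ^ r * (ν ^ r / (r.factorial : ℝ)) + R * (X * μ0 ^ R) := by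
    have : ∑ r ∈ range R, (-1) ^ r * ex (fun x => ((cnt T A x).choose r : ℝ))
        ≤ ∑ r ∈ range R, ((-1) ^ r * (ν ^ r / (r.factorial : ℝ)) + X * μ0 ^ R) := by
      refine sum_le_sum fun r hr => ?_
      have hr' := (mem_range.mp hr).le
      have h4 := abs_le.mp (hmom r)
      have h5 := hpow r hr'
      rcases neg_one_pow_eq_or ℝ r with h6 | h6 <;> rw [h6] <;> linarith [h4.1, h4.2]
    refine this.trans (le_of_eq ?_)
    rw [sum_add_distrib, sum_const, card_range, nsmul_eq_mul]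
  have h4 := (abs_le.mp (hmom R)).2
  have h5 := (abs_le.mp (exp_bonf hν0 R)).1
  have h6 : ((R : ℝ) + 1) * (X * μ0 ^ R) = R * (X * μ0 ^ R) + X * μ0 ^ R := by ring
  linarith

end Pool.Agent.Work.MP_56168e_lc
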