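import Mathlib
import Pool.Agent.Work.MP_56168e_lc.Defs2

set_option autoImplicit false

/-!
Prefixes.  PROOF.  For t ≤ s let A_t = {i ∈ A : i < t}.  For i ∈ A_t the conditions (j ∈ A_t, j < i) and
(j ∈ A, j < i) agree, so lead T A_t i = lead T A i and nu T A_t = ∑_{i ∈ A_t} ex (lead T A i), which
is 0 for t = 0, nu T A for t = s and increases by at most 1 when t increases by 1 (0 ≤ lead ≤ 1).
Take the least t with nu T A_t ≥ ν0.
-/

namespace Pool.Agent.Work.MP_56168e_lc

open Finset

variable {n s : ℕ}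

private lemma nu_init (T : Fin s → PA n) (A : Finset (Fin s)) (t : ℕ) :
    nu T (A.filter (fun i => i.val < t))
      = ∑ i ∈ A.filter (fun i => i.val < t), ex (lead T A i) := by
  classical
  unfold nu
  refine sum_congr rfl fun i hi => ?_
  have hi2 := (mem_filter.mp hi).2
  refine ex_congr fun x => ?_
  have h : Lead T (A.filter (fun i => i.val < t)) i x ↔ Lead T A i x := by
    unfold Lead
    constructor
    · rintro ⟨h1, h2⟩
      refine ⟨h1, fun j hj hji => h2 j (mem_filter.mpr ⟨hj, ?_⟩) hji⟩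
      exact lt_trans hji hi2
    · rintro ⟨h1, h2⟩
      exact ⟨h1, fun j hj hji => h2 j (mem_filter.mp hj).1 hji⟩
  unfold lead
  by_cases h3 : Lead T A i x
  · rw [if_pos h3, if_pos (h.mpr h3)]
  · rw [if_neg h3, if_neg fun h' => h3 (h.mp h')]

theorem init_exists (T : Fin s → PA n) (A : Finset (Fin s)) {ν0 : ℝ} (h0 : 0 ≤ ν0)
    (h : ν0 ≤ nu T A) : ∃ A' ⊆ A, ν0 ≤ nu T A' ∧ nu T A' ≤ ν0 + 1 := by
  classical
  let f : ℕ → ℝ := fun t => nu T (A.filter (fun i => i.val < t))
  have hfs : f s = nu T A := by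
    have : A.filter (fun i => i.val < s) = A := filter_true_of_mem fun i _ => i.isLt
    show nu T (A.filter (fun i => i.val < s)) = nu T A
    rw [this]
  have hf0 : f 0 = 0 := by
    show nu T (A.filter (fun i => i.val < 0)) = 0
    rw [nu_init]
    rw [filter_false_of_mem fun i _ => Nat.not_lt_zero _]
    simp
  have hstep : ∀ t, f (t + 1) ≤ f t + 1 := by
    intro t
    show nu T (A.filter (fun i => i.val < t + 1)) ≤ nu T (A.filter (fun i => i.val < t)) + 1
    rw [nu_init, nu_init]
    have hex0 : ∀ i, 0 ≤ ex (lead T A i) := fun i => ex_nonneg fun x => lead_nonneg T A i x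
    have hex1 : ∀ i, ex (lead T A i) ≤ 1 := fun i => by
      have := ex_mono (g := lead T A i) (h := fun _ => 1) fun x => lead_le_one T A i x
      rwa [ex_const] at this
    by_cases ht : t < s
    · have hsub : A.filter (fun i => i.val < t + 1)
          ⊆ insert (⟨t, ht⟩ : Fin s) (A.filter (fun i => i.val < t)) := by
        intro i hi
        rw [mem_filter] at hi
        rw [mem_insert, mem_filter]
        rcases Nat.lt_succ_iff_lt_or_eq.mp hi.2 with h1 | h1
        · exact Or.inr ⟨hi.1, h1⟩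
        · exact Or.inl (Fin.ext h1)
      refine (sum_le_sum_of_subset_of_nonneg hsub fun i _ _ => hex0 i).trans ?_
      rw [sum_insert (by rw [mem_filter]; rintro ⟨_, h1⟩; exact lt_irrefl _ h1)]
      linarith [hex1 ⟨t, ht⟩]
    · have hsub : A.filter (fun i => i.val < t + 1) ⊆ A.filter (fun i => i.val < t) := by
        intro i hi
        rw [mem_filter] at hi ⊢
        exact ⟨hi.1, lt_of_lt_of_le i.isLt (not_lt.mp ht)⟩
      have := sum_le_sum_of_subset_of_nonneg (f := fun i => ex (lead T A i)) hsub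
        fun i _ _ => hex0 i
      linarith
  have hex : ∃ t, ν0 ≤ f t := ⟨s, by rw [hfs]; exact h⟩
  let t0 := Nat.find hex
  have ht0 : ν0 ≤ f t0 := Nat.find_spec hex
  refine ⟨A.filter (fun i => i.val < t0), filter_subset _ _, ht0, ?_⟩
  show f t0 ≤ ν0 + 1
  rcases Nat.eq_zero_or_pos t0 with hz | hz
  · rw [hz, hf0]
    linarith
  · obtain ⟨t, ht⟩ := Nat.exists_eq_succ_of_ne_zero hz.ne'
    have h1 : ¬ ν0 ≤ f t := Nat.find_min hex (by
      show t < t0
      omega)
    rw [ht]
    have := hstep t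
    push Not at h1
    show f (t + 1) ≤ ν0 + 1
    linarith

end Pool.Agent.Work.MP_56168e_lc
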