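import Mathlib
import Pool.Agent.Work.MP_56168e_lc.BonFool
import Pool.Agent.Work.MP_56168e_lc.NoneU
import Pool.Agent.Work.MP_56168e_lc.SecM
import Pool.Agent.Work.MP_56168e_lc.Greedy
import Pool.Agent.Work.MP_56168e_lc.Pref
import Pool.Agent.Work.MP_56168e_lc.Four

set_option autoImplicit false

/-!
Assembly for widths ≤ W.  PROOF.  B = {i ∈ A0 : width ≤ Lw}, A = A0 \ B, so pw (T i) ≤ (1/2)^Lw ≤ q on A.
nz T A0 = nz T B * nz T A (nz_union).  All pe φ (nz ..) and ex (nz ..) are in [0,1].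
(S) |B| > m0 (D+1): greedy gives E ⊆ B, |E| = m0, pairwise non-dependent (nb T E i = ∅, D = 0 in
second_moment); μ_E ≥ m0 2^(-Lw) ≥ 16/δ; pe φ (nz T E) ≤ 1/μ_E + 4 ε m0^2/μ_E^2 ≤ δ/16 + δ/16, and
nz T A0 ≤ nz T E; same with the density 1 (Dens 0 (fun _ => 1), pe_one) for ex.
(A) |B| ≤ m0 (D+1), μ_A > μ0: second_moment for A: ≤ (D+1)/μ_A + 4 ε s^2/μ_A^2 ≤ δ/16 + δ/16.
(B1) |B| ≤ m0(D+1), μ_A ≤ μ0, nu T A ≤ ν0 + 1: bonf_fool with m1 = m0(D+1) + R D: error ≤ δ/64 + δ/64 +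
2(δ/64 + δ/64).
(B2) μ_A ≤ μ0, nu T A > ν0 + 1: A' from init_exists; none_unif: ex (nz T A') ≤ δ/16 + 2δ/64 + δ/64;
bonf_fool with B = ∅ (nz T ∅ = 1): pe φ (nz T A') ≤ ex (nz T A') + 6δ/64; nz T A0 ≤ nz T A'.
In all cases |pe φ (nz T A0) - ex (nz T A0)| ≤ 13 δ/64 ≤ δ/4.  (nu ≥ 0, nu^R monotone.)
-/

namespace Pool.Agent.Work.MP_56168e_lc

open Finset

variable {n s : ℕ}

private lemma dens_one : Dens (n := n) 0 (fun _ => 1) := by
  refine ⟨fun _ => zero_le_one, ex_const 1, ?_⟩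
  intro S hS
  have h1 : fc (fun _ : Cube n => (1 : ℝ)) S = ex (chi S) := by
    unfold fc
    exact ex_congr fun x => by ring
  rw [h1, ex_chi, if_neg hS.ne_empty]
  simp

private lemma nb_sub {T : Fin s → PA n} {X Y : Finset (Fin s)} (h : X ⊆ Y) (i : Fin s) :
    nb T X i ⊆ nb T Y i := by
  classical
  intro j hj
  unfold nb at *
  rw [mem_filter] at *
  exact ⟨h hj.1, hj.2⟩

private lemma small_none (T : Fin s → PA n) (X : Finset (Fin s)) {D : ℕ}
    (hD : ∀ i ∈ X, (nb T X i).card ≤ D) {δ ε : ℝ} (hδ : 0 < δ) (hδ1 : δ ≤ 1) (hε0 : 0 ≤ ε)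
    (hμ : 16 * ((D : ℝ) + 1) / δ ≤ ∑ i ∈ X, pw (T i)) (hε : 4 * ε * (X.card : ℝ) ^ 2 ≤ δ / 16)
    {φ : Cube n → ℝ} (hφ : Dens ε φ) : pe φ (nz T X) ≤ δ / 8 := by
  have h1 := second_moment T X hD hε0 hφ
  set μ := ∑ i ∈ X, pw (T i) with hμdef
  have hD0 : (0 : ℝ) ≤ D := Nat.cast_nonneg D
  have h2 : 16 * ((D : ℝ) + 1) ≤ μ * δ := by
    rw [div_le_iff₀ hδ] at hμ
    exact hμ
  have hμ1 : 1 ≤ μ := by
    by_contra hc
    push Not at hc
    nlinarith
  have h3 : pe φ (nz T X) * μ ^ 2 ≤ (δ / 8) * μ ^ 2 := by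
    have h4 : (δ / 8) * μ ^ 2 = μ * (μ * δ) / 8 := by ring
    have h5 : μ * (16 * ((D : ℝ) + 1)) ≤ μ * (μ * δ) :=
      mul_le_mul_of_nonneg_left h2 (by linarith)
    have h6 : (1 : ℝ) ≤ μ * ((D : ℝ) + 1) := by nlinarith
    nlinarith
  exact le_of_mul_le_mul_right h3 (by positivity)

private lemma abs_le_of_both {a b c : ℝ} (ha0 : 0 ≤ a) (ha : a ≤ c) (hb0 : 0 ≤ b) (hb : b ≤ c) :
    |a - b| ≤ c := by
  rw [abs_le]
  constructor <;> linarith

theorem lowP (T : Fin s → PA n) (A0 : Finset (Fin s)) {D W : ℕ} (hs : 1 ≤ s)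
    (hW : ∀ i ∈ A0, (dom (T i)).card ≤ W) (hD : ∀ i ∈ A0, (nb T A0 i).card ≤ D)
    {δ ε : ℝ} (hδ : 0 < δ) (hδ1 : δ ≤ 1) (hε0 : 0 ≤ ε) (hP : Par s D W δ ε)
    {φ : Cube n → ℝ} (hφ : Dens ε φ) :
    |pe φ (nz T A0) - ex (nz T A0)| ≤ δ / 4 := by
  classical
  obtain ⟨R, Lw, m0, ν0, μ0, q, η1, ε1, hR, hν0, hexp, hfac, hμ1, hμ0, hq, hq2, hm0, hDF, hη,
    hε1, hη2, hε2, hε3, hε4, hε5⟩ := hP
  have hD0 : (0 : ℝ) ≤ D := Nat.cast_nonneg D
  have hq0 : 0 ≤ q := le_trans (by positivity) hq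
  have hpe0 : ∀ X : Finset (Fin s), 0 ≤ pe φ (nz T X) := fun X =>
    pe_nonneg hφ fun x => nz_nonneg T X x
  have hex0 : ∀ X : Finset (Fin s), 0 ≤ ex (nz T X) := fun X =>
    ex_nonneg fun x => nz_nonneg T X x
  have hcard : ∀ X : Finset (Fin s), (X.card : ℝ) ≤ s := by
    intro X
    have := card_le_univ X
    rw [Fintype.card_fin] at this
    exact_mod_cast this
  -- a subfamily with large mean settles everything
  have key : ∀ (X : Finset (Fin s)) (D' : ℕ), X ⊆ A0 → (∀ i ∈ X, (nb T X i).card ≤ D') →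
      16 * ((D' : ℝ) + 1) / δ ≤ ∑ i ∈ X, pw (T i) → 4 * ε * (X.card : ℝ) ^ 2 ≤ δ / 16 →
      |pe φ (nz T A0) - ex (nz T A0)| ≤ δ / 4 := by
    intro X D' hX hD' hμX hεX
    have h1 := small_none T X hD' hδ hδ1 hε0 hμX hεX hφ
    have h2 := small_none T X hD' hδ hδ1 (le_refl 0) hμX (by simp; positivity) dens_one
    rw [pe_one] at h2
    have h3 : pe φ (nz T A0) ≤ pe φ (nz T X) := pe_mono hφ fun x => nz_anti hX x
    have h4 : ex (nz T A0) ≤ ex (nz T X) := ex_mono fun x => nz_anti hX x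
    refine (abs_le_of_both (c := δ / 8) (hpe0 _) (h3.trans h1) (hex0 _) (h4.trans h2)).trans ?_
    linarith
  set B := A0.filter (fun i => (dom (T i)).card ≤ Lw) with hB
  set A := A0.filter (fun i => ¬ (dom (T i)).card ≤ Lw) with hA
  have hBA0 : B ⊆ A0 := filter_subset _ _
  have hAA0 : A ⊆ A0 := filter_subset _ _
  have hAB : A0 = B ∪ A := (filter_union_filter_not_eq _ A0).symm
  have hDB : ∀ i ∈ B, (nb T B i).card ≤ D := fun i hi =>
    (card_le_card (nb_sub hBA0 i)).trans (hD i (hBA0 hi))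
  have hDA : ∀ i ∈ A, (nb T A i).card ≤ D := fun i hi =>
    (card_le_card (nb_sub hAA0 i)).trans (hD i (hAA0 hi))
  by_cases hBc : m0 * (D + 1) < B.card
  · -- many short terms
    obtain ⟨E, hE, hEc, hEd⟩ := greedy T B hDB hBc
    refine key E 0 (hE.trans hBA0) ?_ ?_ ?_
    · intro i hi
      rw [Nat.le_zero, card_eq_zero]
      unfold nb
      rw [filter_eq_empty_iff]
      intro j hj
      exact hEd i hi j hj
    · have h1 : ∑ i ∈ E, ((1 : ℝ) / 2) ^ Lw ≤ ∑ i ∈ E, pw (T i) := by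
        refine sum_le_sum fun i hi => ?_
        unfold pw
        exact pow_le_pow_of_le_one (by norm_num) (by norm_num) (mem_filter.mp (hE hi)).2
      refine le_trans ?_ h1
      rw [sum_const, nsmul_eq_mul, hEc, one_div, inv_pow]
      rw [← div_eq_mul_inv, le_div_iff₀ (by positivity)]
      push_cast
      rw [zero_add, mul_one]
      calc 16 / δ * 2 ^ Lw = 16 * 2 ^ Lw / δ := by ring
        _ ≤ m0 := hm0
    · rw [hEc]
      exact hε5
  push Not at hBc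
  by_cases hμA : μ0 < ∑ i ∈ A, pw (T i)
  · refine key A D hAA0 hDA (hμ0.trans hμA.le) ?_
    refine le_trans ?_ hε4
    have := hcard A
    have h0 : (0 : ℝ) ≤ A.card := Nat.cast_nonneg _
    have : (A.card : ℝ) ^ 2 ≤ (s : ℝ) ^ 2 := pow_le_pow_left₀ h0 this 2
    exact mul_le_mul_of_nonneg_left this (by positivity)
  push Not at hμA
  have hWA : ∀ i ∈ A, (dom (T i)).card ≤ W := fun i hi => hW i (hAA0 hi)
  have hqA : ∀ i ∈ A, pw (T i) ≤ q := by
    intro i hi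
    refine le_trans ?_ hq
    unfold pw
    have := (mem_filter.mp hi).2
    push Not at this
    exact pow_le_pow_of_le_one (by norm_num) (by norm_num) this.le
  have hX0 : 0 ≤ ((D : ℝ) + 1) ^ 3 * q * μ0 ^ R := by positivity
  have hX1 : ((D : ℝ) + 1) ^ 3 * q * μ0 ^ R ≤ δ / 64 := by
    have hR0 : (0 : ℝ) ≤ R := Nat.cast_nonneg R
    nlinarith
  have hnu0 : ∀ X : Finset (Fin s), 0 ≤ nu T X := fun X =>
    sum_nonneg fun i _ => ex_nonneg fun x => lead_nonneg T X i x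
  have hfacle : ∀ X : Finset (Fin s), nu T X ≤ ν0 + 1 →
      nu T X ^ R / (R.factorial : ℝ) ≤ δ / 64 := by
    intro X hX
    refine le_trans ?_ hfac
    have : nu T X ^ R ≤ (ν0 + 1) ^ R := pow_le_pow_left₀ (hnu0 X) hX R
    gcongr
  have hεη : ((R : ℝ) + 1) * ((s : ℝ) ^ R * ε + η1 * μ0 ^ R) ≤ δ / 64 + δ / 64 := by
    rw [mul_add]
    linarith
  by_cases hν : nu T A ≤ ν0 + 1
  · have h1 := bonf_fool T A B hs hR hDA hWA hq0 hqA hμA hμ1
      (m1 := m0 * (D + 1) + R * D) (by omega) hDF hη hε1 hε0 hε3 hφ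
    have h2 : (fun x => nz T B x * nz T A x) = nz T A0 := by
      funext x
      rw [hAB, nz_union]
    rw [h2] at h1
    have h3 := hfacle A hν
    linarith
  · push Not at hν
    obtain ⟨A', hA', h1, h2⟩ := init_exists T A hν0 (by linarith)
    have hA'0 := hA'.trans hAA0
    have hDA' : ∀ i ∈ A', (nb T A' i).card ≤ D := fun i hi =>
      (card_le_card (nb_sub hA'0 i)).trans (hD i (hA'0 hi))
    have hμA' : ∑ i ∈ A', pw (T i) ≤ μ0 :=
      (sum_le_sum_of_subset_of_nonneg hA' fun i _ _ => (pw_pos (T i)).le).trans hμA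
    have h3 := none_unif T A' hR hDA' hq0 (fun i hi => hqA i (hA' hi)) hμA' hμ1
    have h4 := bonf_fool T A' ∅ hs hR hDA' (fun i hi => hWA i (hA' hi)) hq0
      (fun i hi => hqA i (hA' hi)) hμA' hμ1 (m1 := m0 * (D + 1) + R * D)
      (by simp) hDF hη hε1 hε0 hε3 hφ
    have h5 : (fun x => nz T ∅ x * nz T A' x) = nz T A' := by
      funext x
      have : nz T ∅ x = 1 := by simp [nz]
      rw [this, one_mul]
    rw [h5] at h4
    have h6 := hfacle A' h2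
    have h7 : Real.exp (-(nu T A')) ≤ δ / 16 := by
      refine le_trans ?_ hexp
      exact Real.exp_le_exp.mpr (by linarith)
    have h8 := abs_le.mp h4
    have h9 : pe φ (nz T A0) ≤ pe φ (nz T A') := pe_mono hφ fun x => nz_anti hA'0 x
    have h10 : ex (nz T A0) ≤ ex (nz T A') := ex_mono fun x => nz_anti hA'0 x
    refine abs_le_of_both (hpe0 _) ?_ (hex0 _) ?_ <;> linarith

end Pool.Agent.Work.MP_56168e_lc
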