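import Mathlib
import Pool.Agent.Work.MP_56168e_lc.LowP
import Pool.Agent.Work.MP_56168e_lc.Cond
import Pool.Agent.Work.MP_56168e_lc.RlF

set_option autoImplicit false

/-!
Conditioning on the variables of H.  PROOF.  For a : the assignments of H (as terms P with
dom P = H, one for each a; 2^|H| of them; ∑_P ti P x = 1).  nz T A0 (ow P x) = nz T' A1 x with
T' i = rt P (T i), A1 = {i ∈ A0 : T i does not contradict P} (sat_ow_iff); dom (T' i) = dom (T i) \ H, so
the widths are ≤ W and nb T' A1 i ⊆ nbH T H A0 i.  cond (2 ε ≤ (1/2)^|H| from h2, ε' ≤ 1):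
pe φ (ti P * nz T A0) = pe φ (ti P) * pe φ' (nz T' A1), ex (ti P * nz T A0) = pw P * ex (nz T' A1),
|pe φ (ti P) - pw P| ≤ ε, lowP for φ'.  Sum over the 2^|H| terms P: ≤ 2^|H| ε + δ/4.
-/

namespace Pool.Agent.Work.MP_56168e_lc

open Finset

variable {n s : ℕ}

/-- the assignment of the variables of `H` given by `y` -/
private def aP (H : Finset (Fin n)) (y : Cube n) : PA n := fun i => if i ∈ H then some (y i) else none

private lemma dom_aP (H : Finset (Fin n)) (y : Cube n) : dom (aP H y) = H := by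
  ext i
  rw [mem_dom]
  unfold aP
  by_cases h : i ∈ H <;> simp [h]

private lemma sat_aP (H : Finset (Fin n)) (x y : Cube n) :
    Sat (aP H y) x ↔ ∀ i ∈ H, x i = y i := by
  unfold Sat aP
  constructor
  · intro h i hi
    exact h i (y i) (by simp [hi])
  · intro h i b hb
    by_cases hi : i ∈ H
    · simp only [hi, if_true, Option.some.injEq] at hb
      rw [h i hi, hb]
    · simp [hi] at hb

private lemma ti_aP_symm (H : Finset (Fin n)) (x y : Cube n) :
    ti (aP H y) x = ti (aP H x) y := by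
  unfold ti
  have : Sat (aP H y) x ↔ Sat (aP H x) y := by
    rw [sat_aP, sat_aP]
    exact ⟨fun h i hi => (h i hi).symm, fun h i hi => (h i hi).symm⟩
  by_cases h : Sat (aP H y) x
  · rw [if_pos h, if_pos (this.mp h)]
  · rw [if_neg h, if_neg fun h' => h (this.mpr h')]

private lemma ex_comm (F : Cube n → Cube n → ℝ) :
    ex (fun y => ex (fun x => F x y)) = ex (fun x => ex (fun y => F x y)) := by
  unfold ex
  rw [← sum_div, ← sum_div, sum_comm]

private lemma split_pe (φ g : Cube n → ℝ) (H : Finset (Fin n)) :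
    pe φ g = 2 ^ H.card * ex (fun y => pe φ (fun x => ti (aP H y) x * g x)) := by
  unfold pe
  rw [ex_comm (fun x y => φ x * (ti (aP H y) x * g x)), ← ex_smul]
  refine ex_congr fun x => ?_
  have h1 : ex (fun y => φ x * (ti (aP H y) x * g x)) = (φ x * g x) * pw (aP H x) := by
    rw [← ex_ti, ← ex_smul]
    refine ex_congr fun y => ?_
    rw [ti_aP_symm]
    ring
  rw [h1]
  unfold pw
  rw [dom_aP]
  have h2 : (2 : ℝ) ^ H.card * (1 / 2) ^ H.card = 1 := by
    rw [← mul_pow]
    norm_num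
  calc φ x * g x = (φ x * g x) * ((2 : ℝ) ^ H.card * (1 / 2) ^ H.card) := by rw [h2, mul_one]
    _ = _ := by ring

/-- the family restricted by `P` -/
private lemma nz_restrict (T : Fin s → PA n) (A0 : Finset (Fin s)) (P : PA n) :
    ∃ A1 ⊆ A0, ∀ x, nz T A0 (ow P x) = nz (fun i => rt P (T i)) A1 x := by
  classical
  refine ⟨A0.filter (fun i => ¬ Fal (T i) P), filter_subset _ _, fun x => ?_⟩
  unfold nz
  have : (∃ i ∈ A0, Sat (T i) (ow P x)) ↔
      ∃ i ∈ A0.filter (fun i => ¬ Fal (T i) P), Sat (rt P (T i)) x := by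
    constructor
    · rintro ⟨i, hi, h⟩
      rw [sat_ow_iff] at h
      exact ⟨i, mem_filter.mpr ⟨hi, h.1⟩, h.2⟩
    · rintro ⟨i, hi, h⟩
      rw [mem_filter] at hi
      exact ⟨i, hi.1, (sat_ow_iff _ _ _).mpr ⟨hi.2, h⟩⟩
  by_cases h : ∃ i ∈ A0, Sat (T i) (ow P x)
  · rw [if_pos h, if_pos (this.mp h)]
  · rw [if_neg h, if_neg fun h' => h (this.mpr h')]

theorem lowH (T : Fin s → PA n) (A0 : Finset (Fin s)) (H : Finset (Fin n)) {D W : ℕ}
    (hs : 1 ≤ s) (hW : ∀ i ∈ A0, (dom (T i)).card ≤ W)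
    (hD : ∀ i ∈ A0, (nbH T H A0 i).card ≤ D)
    {δ ε ε' : ℝ} (hδ : 0 < δ) (hδ1 : δ ≤ 1) (hε0 : 0 ≤ ε) (hε' : 2 * ε * 2 ^ H.card ≤ ε')
    (hε'1 : ε' ≤ 1) (hP : Par s D W δ ε') {φ : Cube n → ℝ} (hφ : Dens ε φ) :
    |pe φ (nz T A0) - ex (nz T A0)| ≤ δ / 4 + 2 ^ H.card * ε := by
  classical
  have hpw : ∀ y : Cube n, pw (aP H y) = (1 / 2) ^ H.card := by
    intro y
    unfold pw
    rw [dom_aP]
  have h2pos : (0 : ℝ) < 2 ^ H.card := by positivity
  have h12 : (2 : ℝ) ^ H.card * (1 / 2) ^ H.card = 1 := by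
    rw [← mul_pow]
    norm_num
  have hε2 : ∀ y : Cube n, 2 * ε ≤ pw (aP H y) := by
    intro y
    rw [hpw]
    have h1 : (2 * ε) * 2 ^ H.card ≤ 1 := hε'.trans hε'1
    have h3 : (1 / 2 : ℝ) ^ H.card = 1 / 2 ^ H.card := by rw [one_div, inv_pow, one_div]
    rw [h3, le_div_iff₀ h2pos]
    exact h1
  -- each assignment
  have hone : ∀ y : Cube n,
      |pe φ (fun x => ti (aP H y) x * nz T A0 x) - ex (fun x => ti (aP H y) x * nz T A0 x)|
        ≤ ε + (1 / 2) ^ H.card * (δ / 4) := by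
    intro y
    obtain ⟨φ', hφ', hc⟩ := cond hφ hε0 (aP H y) (hε2 y)
    rw [dom_aP] at hφ'
    obtain ⟨A1, hA1, hnz⟩ := nz_restrict T A0 (aP H y)
    have e1 : (fun x => nz T A0 (ow (aP H y) x)) = nz (fun i => rt (aP H y) (T i)) A1 :=
      funext hnz
    rw [hc, ex_ti_mul, e1, hpw]
    set T' : Fin s → PA n := fun i => rt (aP H y) (T i) with hT'
    have hdom : ∀ i, dom (T' i) = dom (T i) \ H := by
      intro i
      rw [hT']
      simp only
      rw [dom_rt, dom_aP]
    have h1 := lowP T' A1 hs (D := D) (W := W)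
      (fun i hi => by
        rw [hdom]
        exact (card_le_card sdiff_subset).trans (hW i (hA1 hi)))
      (fun i hi => by
        refine (card_le_card ?_).trans (hD i (hA1 hi))
        intro j hj
        unfold nb at hj
        unfold nbH
        rw [mem_filter] at *
        refine ⟨hA1 hj.1, hj.2.1, ?_⟩
        have := hj.2.2
        rw [hdom, hdom] at this
        exact this)
      hδ hδ1 (le_trans (by positivity) hε') hP (hφ'.mono hε')
    have h3 := fool hφ hε0 (ti (aP H y))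
    rw [ex_ti, hpw] at h3
    have h4 : ε * nrm (ti (aP H y)) ≤ ε := by
      have := mul_le_mul_of_nonneg_left (nrm_ti (aP H y)) hε0
      linarith
    have h5 := h3.trans h4
    set a := pe φ' (nz T' A1) with ha
    set b := ex (nz T' A1) with hb
    set u := pe φ (ti (aP H y)) with hu
    have ha0 : 0 ≤ a := pe_nonneg hφ' fun x => nz_nonneg _ _ x
    have ha1 : a ≤ 1 := by
      have := pe_mono hφ' (g := nz T' A1) (h := fun _ => 1) fun x => nz_le_one _ _ x
      rwa [pe_const hφ'] at this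
    have e2 : u * a - (1 / 2) ^ H.card * b
        = (u - (1 / 2) ^ H.card) * a + (1 / 2) ^ H.card * (a - b) := by ring
    rw [e2]
    refine (abs_add_le _ _).trans ?_
    rw [abs_mul, abs_mul, abs_of_nonneg ha0,
      abs_of_nonneg (by positivity : (0 : ℝ) ≤ (1 / 2) ^ H.card)]
    have h6 : |u - (1 / 2) ^ H.card| * a ≤ ε * 1 :=
      mul_le_mul h5 ha1 ha0 hε0
    have h7 : (1 / 2 : ℝ) ^ H.card * |a - b| ≤ (1 / 2) ^ H.card * (δ / 4) :=
      mul_le_mul_of_nonneg_left h1 (by positivity)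
    linarith
  have e3 : pe φ (nz T A0) - ex (nz T A0)
      = 2 ^ H.card * ex (fun y => pe φ (fun x => ti (aP H y) x * nz T A0 x)
        - ex (fun x => ti (aP H y) x * nz T A0 x)) := by
    have h1 := split_pe φ (nz T A0) H
    have h2 := split_pe (fun _ => 1) (nz T A0) H
    simp only [pe_one] at h2
    rw [h1, h2, ex_sub]
    ring
  rw [e3, abs_mul, abs_of_pos h2pos]
  have h8 : |ex (fun y => pe φ (fun x => ti (aP H y) x * nz T A0 x)
        - ex (fun x => ti (aP H y) x * nz T A0 x))| ≤ ε + (1 / 2) ^ H.card * (δ / 4) := by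
    rw [abs_le]
    constructor
    · have := ex_mono (g := fun _ : Cube n => -(ε + (1 / 2) ^ H.card * (δ / 4)))
        (h := fun y => pe φ (fun x => ti (aP H y) x * nz T A0 x)
        - ex (fun x => ti (aP H y) x * nz T A0 x)) fun y => (abs_le.mp (hone y)).1
      rwa [ex_const] at this
    · have := ex_mono (h := fun _ : Cube n => (ε + (1 / 2) ^ H.card * (δ / 4)))
        (g := fun y => pe φ (fun x => ti (aP H y) x * nz T A0 x)
        - ex (fun x => ti (aP H y) x * nz T A0 x)) fun y => (abs_le.mp (hone y)).2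
      rwa [ex_const] at this
  calc (2 : ℝ) ^ H.card * _ ≤ 2 ^ H.card * (ε + (1 / 2) ^ H.card * (δ / 4)) :=
        mul_le_mul_of_nonneg_left h8 h2pos.le
    _ = ((2 : ℝ) ^ H.card * (1 / 2) ^ H.card) * (δ / 4) + 2 ^ H.card * ε := by ring
    _ = δ / 4 + 2 ^ H.card * ε := by rw [h12, one_mul]

end Pool.Agent.Work.MP_56168e_lc
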