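import Mathlib
import Pool.Agent.Work.MP_56168e_lc.LowH

set_option autoImplicit false

/-!
Removing the wide terms.  PROOF.  A0 = {i : width ≤ W}; 0 ≤ nz T A0 - nz T univ ≤ ∑_{i : width > W} ti (T i);
ex (ti) = pw ≤ (1/2)^W, pe φ (ti) ≤ (1/2)^W + ε.  lowH for A0.
-/

namespace Pool.Agent.Work.MP_56168e_lc

open Finset

variable {n s : ℕ}

private lemma nz_diff (T : Fin s → PA n) (W : ℕ) (x : Cube n) :
    nz T ((univ : Finset (Fin s)).filter (fun i => (dom (T i)).card ≤ W)) x - nz T univ x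
      ≤ ∑ i ∈ (univ : Finset (Fin s)).filter (fun i => ¬ (dom (T i)).card ≤ W), ti (T i) x := by
  classical
  have h0 : 0 ≤ ∑ i ∈ (univ : Finset (Fin s)).filter (fun i => ¬ (dom (T i)).card ≤ W),
      ti (T i) x := sum_nonneg fun i _ => ti_nonneg (T i) x
  by_cases h1 : ∃ i ∈ (univ : Finset (Fin s)), Sat (T i) x
  · by_cases h2 : ∃ i ∈ (univ : Finset (Fin s)).filter (fun i => (dom (T i)).card ≤ W),
        Sat (T i) x
    · unfold nz
      rw [if_pos h1, if_pos h2]
      linarith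
    · obtain ⟨i, _, hi⟩ := h1
      have h3 : i ∈ (univ : Finset (Fin s)).filter (fun i => ¬ (dom (T i)).card ≤ W) := by
        rw [mem_filter]
        refine ⟨mem_univ i, fun h => h2 ⟨i, ?_, hi⟩⟩
        rw [mem_filter]
        exact ⟨mem_univ i, h⟩
      have h4 := single_le_sum (f := fun i => ti (T i) x) (fun j _ => ti_nonneg (T j) x) h3
      have h5 : ti (T i) x = 1 := by
        unfold ti
        rw [if_pos hi]
      simp only [h5] at h4
      have h6 := nz_le_one T ((univ : Finset (Fin s)).filter (fun i => (dom (T i)).card ≤ W)) x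
      have h7 := nz_nonneg T univ x
      linarith
  · have h2 : ¬ ∃ i ∈ (univ : Finset (Fin s)).filter (fun i => (dom (T i)).card ≤ W),
        Sat (T i) x := by
      rintro ⟨i, _, hi⟩
      exact h1 ⟨i, mem_univ i, hi⟩
    unfold nz
    rw [if_neg h1, if_neg h2]
    linarith

theorem lowW (T : Fin s → PA n) (H : Finset (Fin n)) {D W : ℕ} (hs : 1 ≤ s)
    (hD : ∀ i ∈ (univ : Finset (Fin s)).filter (fun i => (dom (T i)).card ≤ W),
      (nbH T H ((univ : Finset (Fin s)).filter (fun i => (dom (T i)).card ≤ W)) i).card ≤ D)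
    {δ ε ε' : ℝ} (hδ : 0 < δ) (hδ1 : δ ≤ 1) (hε0 : 0 ≤ ε) (hε' : 2 * ε * 2 ^ H.card ≤ ε')
    (hε'1 : ε' ≤ 1) (hP : Par s D W δ ε') {φ : Cube n → ℝ} (hφ : Dens ε φ) :
    |pe φ (nz T univ) - ex (nz T univ)|
      ≤ δ / 4 + 2 ^ H.card * ε + s * ((1 / 2) ^ W + ε) := by
  classical
  set A0 := (univ : Finset (Fin s)).filter (fun i => (dom (T i)).card ≤ W) with hA0
  set A1 := (univ : Finset (Fin s)).filter (fun i => ¬ (dom (T i)).card ≤ W) with hA1
  have h1 := lowH T A0 H hs (fun i hi => (mem_filter.mp hi).2) hD hδ hδ1 hε0 hε' hε'1 hP hφ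
  have hlow : ∀ x, 0 ≤ nz T A0 x - nz T univ x := fun x => by
    have := nz_anti (T := T) (subset_univ A0) x
    linarith
  have hw : ∀ i ∈ A1, pw (T i) ≤ (1 / 2) ^ W := by
    intro i hi
    have := (mem_filter.mp hi).2
    push Not at this
    unfold pw
    exact pow_le_pow_of_le_one (by norm_num) (by norm_num) this.le
  have hc : (A1.card : ℝ) ≤ s := by
    have := card_le_univ A1
    rw [Fintype.card_fin] at this
    exact_mod_cast this
  have hb0 : (0 : ℝ) ≤ (1 / 2) ^ W + ε := by positivity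
  -- bounds under the two measures
  have hpe : pe φ (nz T A0) - pe φ (nz T univ) ≤ s * ((1 / 2) ^ W + ε) := by
    rw [← pe_sub]
    refine (pe_mono hφ (nz_diff T W)).trans ?_
    rw [pe_sum]
    refine (sum_le_sum (g := fun _ => (1 / 2 : ℝ) ^ W + ε) fun i hi => ?_).trans ?_
    · have h2 := abs_le.mp (fool hφ hε0 (ti (T i)))
      have h3 := mul_le_mul_of_nonneg_left (nrm_ti (T i)) hε0
      have h4 := ex_ti (T i)
      have h5 := hw i hi
      have h6 : pe φ (fun x => ti (T i) x) = pe φ (ti (T i)) := rfl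
      linarith [h2.2]
    · rw [sum_const, nsmul_eq_mul]
      exact mul_le_mul_of_nonneg_right hc hb0
  have hex : ex (nz T A0) - ex (nz T univ) ≤ s * ((1 / 2) ^ W + ε) := by
    rw [← ex_sub]
    refine (ex_mono (nz_diff T W)).trans ?_
    rw [ex_sum]
    refine (sum_le_sum (g := fun _ => (1 / 2 : ℝ) ^ W + ε) fun i hi => ?_).trans ?_
    · have h4 := ex_ti (T i)
      have h5 := hw i hi
      have h6 : ex (fun x => ti (T i) x) = ex (ti (T i)) := rfl
      linarith
    · rw [sum_const, nsmul_eq_mul]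
      exact mul_le_mul_of_nonneg_right hc hb0
  have hpe0 : 0 ≤ pe φ (nz T A0) - pe φ (nz T univ) := by
    rw [← pe_sub]
    exact pe_nonneg hφ hlow
  have hex0 : 0 ≤ ex (nz T A0) - ex (nz T univ) := by
    rw [← ex_sub]
    exact ex_nonneg hlow
  have h2 := abs_le.mp h1
  rw [abs_le]
  constructor <;> linarith [h2.1, h2.2]

end Pool.Agent.Work.MP_56168e_lc
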