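import Mathlib
import Pool.Agent.Work.MP_56168e_lc.Amb

set_option autoImplicit false

/-!
Numbers.  a = log(16/δ) ≥ 2.77, b = log(16(D+1)/δ) ≥ a, c = log(16(s+1)/δ) ≥ 3.46, ab ≥ 7.6.
ν0 = a, R = ⌈8(a+1)⌉ ≤ 12a ((a+1)^R/R! ≤ ((a+1)e/R)^R ≤ exp(-R) ≤ δ/64 as R! ≥ (R/e)^R and
R ≥ e^2 (a+1), R ≥ a + log 4), μ0 = 16(D+1)/δ = e^b, Lw = ⌈log2(64(R+1)(D+1)^3 μ0^R/δ)⌉, q = (1/2)^Lw,
2^Lw ≤ e^(20ab); m0 = ⌈16 2^Lw/δ⌉ ≤ e^(21ab); m0(D+1)+RD ≤ e^(23ab); η1 = δ/(64(R+1)μ0^R) ≥ e^(-19ab);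
ε1 = exp(-expo m1 (m1+1) η1) from dett, expo ≤ 1000 (43ab)^2 log(43ab) ≤ 5.6e6 (ab)^2 log(ab);
W = ⌈log2(8 s/δ)⌉ ≤ 2c, R W log 2 ≤ 16 ac.  With ε' = 2 ε 2^h everything holds if
ε ≤ exp(-C (h + ac + (ab)^2 log(ab))) and C is large (10^7 is enough; any C is fine).
-/

namespace Pool.Agent.Work.MP_56168e_lc

open Finset

/-- the exponent of the low dependency theorem -/
noncomputable def expL (s D h : ℕ) (δ : ℝ) : ℝ :=
  h + Real.log (16 / δ) * Real.log (16 * (s + 1) / δ)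
    + (Real.log (16 / δ) * Real.log (16 * (D + 1) / δ)) ^ 2
      * Real.log (Real.log (16 / δ) * Real.log (16 * (D + 1) / δ))

private lemma NumLow_fac {a : ℝ} (ha : 2.77 ≤ a) {R : ℕ} (hR : 8 * (a + 1) ≤ R) :
    (a + 1) ^ R / R.factorial ≤ Real.exp (-(8 * (a + 1))) := by
  have h1 : (8 * (a + 1)) ^ R / (R.factorial : ℝ) ≤ Real.exp (8 * (a + 1)) :=
    Real.pow_div_factorial_le_exp _ (by linarith) R
  have h2 : Real.exp 2 ≤ 8 := by
    have h3 := Real.exp_one_lt_d9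
    have h4 : Real.exp 2 = Real.exp 1 * Real.exp 1 := by rw [← Real.exp_add]; norm_num
    have h5 := Real.exp_pos 1
    nlinarith
  have h3 : Real.exp (2 * R) ≤ 8 ^ R := by
    calc Real.exp (2 * R) = Real.exp 2 ^ R := by rw [← Real.exp_nat_mul, mul_comm]
      _ ≤ 8 ^ R := pow_le_pow_left₀ (Real.exp_pos 2).le h2 R
  have h4 : (a + 1) ^ R / (R.factorial : ℝ) = (8 * (a + 1)) ^ R / (R.factorial : ℝ) / 8 ^ R := by
    rw [mul_pow]
    field_simp
  rw [h4]
  calc (8 * (a + 1)) ^ R / (R.factorial : ℝ) / 8 ^ R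
      ≤ Real.exp (8 * (a + 1)) / Real.exp (2 * R) := by gcongr
    _ = Real.exp (8 * (a + 1) - 2 * R) := by rw [Real.exp_sub]
    _ ≤ Real.exp (-(8 * (a + 1))) := Real.exp_le_exp.2 (by linarith)

/-- the smallest power of two above x -/
private lemma NumLow_two {x y : ℝ} (hxy : x ≤ Real.exp y) (hy : 0 ≤ y) :
    ∃ l : ℕ, x ≤ 2 ^ l ∧ (2 : ℝ) ^ l ≤ Real.exp (y + 1) ∧ (l : ℝ) * Real.log 2 ≤ y + Real.log 2 := by
  have hlog2 : 0.6931 < Real.log 2 := by linarith [Real.log_two_gt_d9]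
  have hlog2' : Real.log 2 < 0.6932 := by linarith [Real.log_two_lt_d9]
  have hp : (0 : ℝ) < Real.log 2 := by linarith
  refine ⟨⌈y / Real.log 2⌉₊, ?_, ?_, ?_⟩
  · refine hxy.trans ?_
    rw [← Real.exp_log (show (0 : ℝ) < 2 ^ ⌈y / Real.log 2⌉₊ by positivity), Real.log_pow]
    apply Real.exp_le_exp.2
    have := Nat.le_ceil (y / Real.log 2)
    rwa [div_le_iff₀ hp] at this
  · rw [← Real.exp_log (show (0 : ℝ) < 2 ^ ⌈y / Real.log 2⌉₊ by positivity), Real.log_pow]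
    apply Real.exp_le_exp.2
    have := Nat.ceil_lt_add_one (show 0 ≤ y / Real.log 2 by positivity)
    have h2 : (⌈y / Real.log 2⌉₊ : ℝ) * Real.log 2 ≤ (y / Real.log 2 + 1) * Real.log 2 :=
      mul_le_mul_of_nonneg_right this.le hp.le
    have h3 : (y / Real.log 2 + 1) * Real.log 2 = y + Real.log 2 := by
      field_simp
    linarith
  · have := Nat.ceil_lt_add_one (show 0 ≤ y / Real.log 2 by positivity)
    have h2 : (⌈y / Real.log 2⌉₊ : ℝ) * Real.log 2 ≤ (y / Real.log 2 + 1) * Real.log 2 :=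
      mul_le_mul_of_nonneg_right this.le hp.le
    have h3 : (y / Real.log 2 + 1) * Real.log 2 = y + Real.log 2 := by
      field_simp
    linarith

/-- the parameters which do not depend on s -/
private lemma NumLow_par {D : ℕ} {δ a b : ℝ} (hδ : 0 < δ) (hδ1 : δ ≤ 1)
    (ha : Real.exp a = 16 / δ) (hb : Real.exp b = 16 * (D + 1) / δ) (ha2 : 2.77 ≤ a)
    (hab : a ≤ b) :
    ∃ (R Lw m0 : ℕ) (μ0 q η1 ε1 : ℝ), 1 ≤ R ∧ (R : ℝ) ≤ 12 * a ∧
      (a + 1) ^ R / R.factorial ≤ δ / 64 ∧ 1 ≤ μ0 ∧ 16 * (D + 1) / δ ≤ μ0 ∧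
      (1 / 2) ^ Lw ≤ q ∧ (R + 1) * ((D + 1) ^ 3 * q * μ0 ^ R) ≤ δ / 64 ∧
      16 * 2 ^ Lw / δ ≤ m0 ∧ (m0 : ℝ) ≤ Real.exp (21 * (a * b)) ∧
      DF (m0 * (D + 1) + R * D) η1 ε1 ∧ 0 ≤ η1 ∧ ε1 ≤ 1 ∧
      (R + 1) * (η1 * μ0 ^ R) ≤ δ / 64 ∧
      Real.exp (-(5547000 * ((a * b) ^ 2 * Real.log (a * b)))) ≤ ε1 := by
  have hP1 : 2.77 * a ≤ a * b := by nlinarith
  have hP2 : 2.77 * b ≤ a * b := by nlinarith
  obtain ⟨P, hP⟩ : ∃ P, P = a * b := ⟨_, rfl⟩
  rw [← hP] at hP1 hP2 ⊢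
  have hP7 : 7.67 ≤ P := by linarith
  set R : ℕ := ⌈8 * (a + 1)⌉₊ with hR
  have hRl : 8 * (a + 1) ≤ R := Nat.le_ceil _
  have hRu : (R : ℝ) ≤ 12 * a := by
    have := Nat.ceil_lt_add_one (show 0 ≤ 8 * (a + 1) by linarith)
    linarith
  have hR1 : 1 ≤ R := by
    have : (1 : ℝ) ≤ R := by linarith
    exact_mod_cast this
  have hRP : (R : ℝ) ≤ 4.4 * P := by linarith
  have hRb : (R : ℝ) * b ≤ 12 * P := by
    calc (R : ℝ) * b ≤ 12 * a * b := mul_le_mul_of_nonneg_right hRu (by linarith)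
      _ = 12 * P := by rw [hP]; ring
  have hR1e : (R : ℝ) + 1 ≤ Real.exp (4.4 * P) :=
    (Real.add_one_le_exp (R : ℝ)).trans (Real.exp_le_exp.2 hRP)
  have hD0 : (0 : ℝ) ≤ D := Nat.cast_nonneg D
  have h16 : (16 : ℝ) ≤ 16 / δ := by
    rw [le_div_iff₀ hδ]; nlinarith
  have hDe : (D : ℝ) + 1 ≤ Real.exp b := by
    rw [hb]
    calc (D : ℝ) + 1 ≤ (16 / δ) * (D + 1) := by nlinarith
      _ = 16 * (D + 1) / δ := by ring
  have hfac : (a + 1) ^ R / R.factorial ≤ δ / 64 := by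
    refine (NumLow_fac ha2 hRl).trans ?_
    have h1 : Real.exp (-(8 * (a + 1))) ≤ Real.exp (-a) * Real.exp (-2) := by
      rw [← Real.exp_add]
      exact Real.exp_le_exp.2 (by linarith)
    have h2 : Real.exp (-a) = δ / 16 := by
      rw [Real.exp_neg, ha]; field_simp
    have h3 : Real.exp (-2) ≤ 1 / 4 := by
      have h4 : (1 + 1 : ℝ) ≤ Real.exp 1 := by linarith [Real.add_one_le_exp (1 : ℝ)]
      have h5 : Real.exp 2 = Real.exp 1 * Real.exp 1 := by rw [← Real.exp_add]; norm_num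
      rw [Real.exp_neg, inv_eq_one_div]
      apply one_div_le_one_div_of_le (by norm_num)
      nlinarith
    rw [h2] at h1
    calc Real.exp (-(8 * (a + 1))) ≤ δ / 16 * Real.exp (-2) := h1
      _ ≤ δ / 16 * (1 / 4) := by gcongr
      _ = δ / 64 := by ring
  set μ0 : ℝ := 16 * (D + 1) / δ with hμ0
  have hμe : Real.exp b = μ0 := hb
  have hμ1 : 1 ≤ μ0 := by
    rw [← hμe]; exact Real.one_le_exp (by linarith)
  have hμR : μ0 ^ R ≤ Real.exp (12 * P) := by
    rw [← hμe, ← Real.exp_nat_mul]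
    exact Real.exp_le_exp.2 hRb
  have hδe : 64 / δ ≤ Real.exp P := by
    have h1 : 64 / δ = 4 * (16 / δ) := by ring
    have h4 : (4 : ℝ) ≤ Real.exp 2 := by
      have h4 : (1 + 1 : ℝ) ≤ Real.exp 1 := by linarith [Real.add_one_le_exp (1 : ℝ)]
      have h5 : Real.exp 2 = Real.exp 1 * Real.exp 1 := by rw [← Real.exp_add]; norm_num
      nlinarith
    rw [h1, ← ha]
    calc 4 * Real.exp a ≤ Real.exp 2 * Real.exp a := by gcongr
      _ = Real.exp (2 + a) := by rw [← Real.exp_add]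
      _ ≤ Real.exp P := Real.exp_le_exp.2 (by linarith)
  -- the width parameter
  have hx0 : (0 : ℝ) < 64 / δ * ((R + 1) * ((D + 1) ^ 3 * μ0 ^ R)) := by positivity
  have hx1 : 64 / δ * ((R + 1) * ((D + 1) ^ 3 * μ0 ^ R)) ≤ Real.exp (18.6 * P) := by
    have hD3 : ((D : ℝ) + 1) ^ 3 ≤ Real.exp (1.2 * P) := by
      calc ((D : ℝ) + 1) ^ 3 ≤ Real.exp b ^ 3 := pow_le_pow_left₀ (by positivity) hDe 3
        _ = Real.exp (3 * b) := by rw [← Real.exp_nat_mul]; norm_num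
        _ ≤ Real.exp (1.2 * P) := Real.exp_le_exp.2 (by linarith)
    calc 64 / δ * ((R + 1) * ((D + 1) ^ 3 * μ0 ^ R))
        ≤ Real.exp P * (Real.exp (4.4 * P) * (Real.exp (1.2 * P) * Real.exp (12 * P))) := by
          gcongr
      _ = Real.exp (18.6 * P) := by
          rw [← Real.exp_add, ← Real.exp_add, ← Real.exp_add]
          congr 1
          ring
  obtain ⟨Lw, hLw1, hLw2, -⟩ := NumLow_two hx1 (by linarith)
  have hLw3 : (2 : ℝ) ^ Lw ≤ Real.exp (19 * P) :=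
    hLw2.trans (Real.exp_le_exp.2 (by linarith))
  set m0 : ℕ := ⌈16 * 2 ^ Lw / δ⌉₊ with hm0
  have hm0l : 16 * 2 ^ Lw / δ ≤ (m0 : ℝ) := Nat.le_ceil _
  have hexp1 : (2 : ℝ) ≤ Real.exp 1 := by linarith [Real.add_one_le_exp (1 : ℝ)]
  have hm0u : (m0 : ℝ) ≤ Real.exp (20 * P) := by
    have h1 : (m0 : ℝ) < 16 * 2 ^ Lw / δ + 1 := Nat.ceil_lt_add_one (by positivity)
    have h2 : 16 * 2 ^ Lw / δ ≤ Real.exp (a + 19 * P) := by
      calc 16 * 2 ^ Lw / δ = (16 / δ) * 2 ^ Lw := by ring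
        _ ≤ (16 / δ) * Real.exp (19 * P) := by gcongr
        _ = Real.exp (a + 19 * P) := by rw [← ha, ← Real.exp_add]
    have h3 : (1 : ℝ) ≤ Real.exp (a + 19 * P) := Real.one_le_exp (by linarith)
    calc (m0 : ℝ) ≤ 2 * Real.exp (a + 19 * P) := by linarith
      _ ≤ Real.exp 1 * Real.exp (a + 19 * P) := by gcongr
      _ = Real.exp (1 + (a + 19 * P)) := by rw [← Real.exp_add]
      _ ≤ Real.exp (20 * P) := Real.exp_le_exp.2 (by linarith)
  set m1 : ℕ := m0 * (D + 1) + R * D with hm1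
  have hm1u : (m1 : ℝ) + 1 ≤ Real.exp (22 * P) := by
    have h1 : (m1 : ℝ) = m0 * (D + 1) + R * D := by rw [hm1]; push_cast; ring
    have h2 : (m0 : ℝ) * (D + 1) ≤ Real.exp (21 * P) := by
      calc (m0 : ℝ) * (D + 1) ≤ Real.exp (20 * P) * Real.exp b := by gcongr
        _ = Real.exp (20 * P + b) := by rw [← Real.exp_add]
        _ ≤ Real.exp (21 * P) := Real.exp_le_exp.2 (by linarith)
    have h3 : (R : ℝ) * D + 1 ≤ Real.exp (21 * P) := by
      calc (R : ℝ) * D + 1 ≤ (R + 1) * (D + 1) := by nlinarith [show (0 : ℝ) ≤ R from by positivity]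
        _ ≤ Real.exp (4.4 * P) * Real.exp b := by gcongr
        _ = Real.exp (4.4 * P + b) := by rw [← Real.exp_add]
        _ ≤ Real.exp (21 * P) := Real.exp_le_exp.2 (by linarith)
    calc (m1 : ℝ) + 1 ≤ 2 * Real.exp (21 * P) := by rw [h1]; linarith
      _ ≤ Real.exp 1 * Real.exp (21 * P) := by gcongr
      _ = Real.exp (1 + 21 * P) := by rw [← Real.exp_add]
      _ ≤ Real.exp (22 * P) := Real.exp_le_exp.2 (by linarith)
  set η1 : ℝ := δ / (64 * ((R + 1) * μ0 ^ R)) with hη1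
  have hη0 : 0 < η1 := by positivity
  have hη1i : 1 / η1 ≤ Real.exp (18 * P) := by
    calc 1 / η1 = 64 / δ * ((R + 1) * μ0 ^ R) := by
          rw [hη1]; field_simp
      _ ≤ Real.exp P * (Real.exp (4.4 * P) * Real.exp (12 * P)) := by gcongr
      _ = Real.exp (17.4 * P) := by
          rw [← Real.exp_add, ← Real.exp_add]
          congr 1
          ring
      _ ≤ Real.exp (18 * P) := Real.exp_le_exp.2 (by linarith)
  have hη11 : η1 ≤ 1 := by
    have h1 : δ ≤ 64 * (((R : ℝ) + 1) * μ0 ^ R) := by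
      have h2 : (1 : ℝ) ≤ μ0 ^ R := one_le_pow₀ hμ1
      have h3 : (0 : ℝ) ≤ R := by positivity
      nlinarith
    exact (div_le_one (by positivity)).2 h1
  refine ⟨R, Lw, m0, μ0, (1 / 2) ^ Lw, η1, Real.exp (-(expo m1 (m1 + 1) η1)), hR1, hRu, hfac, hμ1,
    le_refl _, le_refl _, ?_, hm0l, hm0u.trans (Real.exp_le_exp.2 (by linarith)),
    dett m1 hη0 hη11, hη0.le, ?_, ?_, ?_⟩
  · have h1 : (R + 1) * ((D + 1) ^ 3 * (1 / 2) ^ Lw * μ0 ^ R) =
        (64 / δ * ((R + 1) * ((D + 1) ^ 3 * μ0 ^ R))) * (δ / 64) / 2 ^ Lw := by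
      rw [one_div, inv_pow]
      field_simp
    rw [h1, div_le_iff₀ (by positivity)]
    calc (64 / δ * ((R + 1) * ((D + 1) ^ 3 * μ0 ^ R))) * (δ / 64) ≤ 2 ^ Lw * (δ / 64) := by gcongr
      _ = δ / 64 * 2 ^ Lw := by ring
  · rw [Real.exp_le_one_iff, neg_nonpos]
    have h1 : Real.exp 1 ≤ 8 * ((m1 : ℝ) + 1) / η1 := by
      have h2 : (1 : ℝ) ≤ (m1 : ℝ) + 1 := by linarith [show (0 : ℝ) ≤ m1 from by positivity]
      rw [le_div_iff₀ hη0]
      have := Real.exp_one_lt_d9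
      nlinarith
    have h3 : 1 ≤ Real.log (8 * ((m1 : ℝ) + 1) / η1) := by
      rw [Real.le_log_iff_exp_le (by positivity)]; exact h1
    have h4 : 0 ≤ Real.log (Real.log (8 * ((m1 : ℝ) + 1) / η1)) := Real.log_nonneg h3
    unfold expo
    positivity
  · rw [hη1]
    have : (R + 1) * (δ / (64 * ((R + 1) * μ0 ^ R)) * μ0 ^ R) = δ / 64 := by
      field_simp
    rw [this]
  · apply Real.exp_le_exp.2
    apply neg_le_neg
    obtain ⟨l, hl⟩ : ∃ l, l = Real.log (8 * ((m1 : ℝ) + 1) / η1) := ⟨_, rfl⟩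
    have h1 : Real.exp 1 ≤ 8 * ((m1 : ℝ) + 1) / η1 := by
      have h2 : (1 : ℝ) ≤ (m1 : ℝ) + 1 := by linarith [show (0 : ℝ) ≤ m1 from by positivity]
      rw [le_div_iff₀ hη0]
      have := Real.exp_one_lt_d9
      nlinarith
    have hl1 : 1 ≤ l := by
      rw [hl, Real.le_log_iff_exp_le (by positivity)]; exact h1
    have hlu : l ≤ 43 * P := by
      rw [hl, Real.log_le_iff_le_exp (by positivity)]
      have h8 : (8 : ℝ) ≤ Real.exp 3 := by
        have h5 : Real.exp 3 = Real.exp 1 * Real.exp 1 * Real.exp 1 := by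
          rw [← Real.exp_add, ← Real.exp_add]; norm_num
        rw [h5]
        calc (8 : ℝ) = 2 * 2 * 2 := by norm_num
          _ ≤ Real.exp 1 * Real.exp 1 * Real.exp 1 := by gcongr
      calc 8 * ((m1 : ℝ) + 1) / η1 = 8 * (((m1 : ℝ) + 1) * (1 / η1)) := by ring
        _ ≤ Real.exp 3 * (Real.exp (22 * P) * Real.exp (18 * P)) := by gcongr
        _ = Real.exp (3 + (22 * P + 18 * P)) := by rw [← Real.exp_add, ← Real.exp_add]
        _ ≤ Real.exp (43 * P) := Real.exp_le_exp.2 (by linarith)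
    have hlogP : 0 ≤ Real.log P := Real.log_nonneg (by linarith)
    have h43 : Real.log (43 * P) ≤ 3 * Real.log P := by
      have h1 : Real.log (43 * P) = Real.log 43 + Real.log P :=
        Real.log_mul (by norm_num) (by linarith)
      have h2 : Real.log 43 ≤ 2 * Real.log P := by
        have h3 : Real.log 43 ≤ Real.log (P ^ 2) :=
          Real.log_le_log (by norm_num) (by nlinarith)
        rwa [Real.log_pow, Nat.cast_ofNat] at h3
      linarith
    have hlogl : Real.log l ≤ 3 * Real.log P :=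
      (Real.log_le_log (by linarith) hlu).trans h43
    have hlogl0 : 0 ≤ Real.log l := Real.log_nonneg hl1
    have h9 : expo m1 (m1 + 1) η1 = 1000 * (l * Real.log l * l) := by
      unfold expo
      rw [← hl]
      ring
    rw [h9]
    calc 1000 * (l * Real.log l * l) ≤ 1000 * (43 * P * (3 * Real.log P) * (43 * P)) := by gcongr
      _ = 5547000 * (P ^ 2 * Real.log P) := by ring

theorem num_low : ∃ C : ℝ, 0 < C ∧ ∀ (s D h : ℕ) (δ ε : ℝ), 1 ≤ s → 0 < δ → δ ≤ 1 → 0 ≤ ε →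
    ε ≤ Real.exp (-(C * expL s D h δ)) →
    ∃ W : ℕ, (W : ℝ) ≤ 2 * Real.log (16 * (s + 1) / δ) ∧ Par s D W δ (2 * ε * 2 ^ h) ∧
      2 * ε * 2 ^ h ≤ 1 ∧ 2 ^ h * ε ≤ δ / 32 ∧ (s : ℝ) * ((1 / 2) ^ W + ε) ≤ δ / 8 + δ / 32 := by
  refine ⟨10000000, by norm_num, ?_⟩
  intro s D h δ ε hs hδ hδ1 hε0 hε
  have hlog2 : 0.6931 < Real.log 2 := by linarith [Real.log_two_gt_d9]
  have hlog2' : Real.log 2 < 0.6932 := by linarith [Real.log_two_lt_d9]
  have hs1 : (1 : ℝ) ≤ s := by exact_mod_cast hs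
  have hD0 : (0 : ℝ) ≤ D := Nat.cast_nonneg D
  have hh0 : (0 : ℝ) ≤ h := Nat.cast_nonneg h
  obtain ⟨a, ha⟩ : ∃ a, a = Real.log (16 / δ) := ⟨_, rfl⟩
  obtain ⟨b, hb⟩ : ∃ b, b = Real.log (16 * (D + 1) / δ) := ⟨_, rfl⟩
  obtain ⟨c, hc⟩ : ∃ c, c = Real.log (16 * (s + 1) / δ) := ⟨_, rfl⟩
  have hea : Real.exp a = 16 / δ := by rw [ha, Real.exp_log (by positivity)]
  have heb : Real.exp b = 16 * (D + 1) / δ := by rw [hb, Real.exp_log (by positivity)]
  have hec : Real.exp c = 16 * (s + 1) / δ := by rw [hc, Real.exp_log (by positivity)]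
  have h16 : (16 : ℝ) ≤ 16 / δ := by
    rw [le_div_iff₀ hδ]; nlinarith
  have ha2 : 2.77 ≤ a := by
    have h1 : Real.log 16 = 4 * Real.log 2 := by
      rw [show (16 : ℝ) = 2 ^ 4 by norm_num, Real.log_pow]; norm_num
    have h2 : Real.log 16 ≤ a := by
      rw [ha]; exact Real.log_le_log (by norm_num) h16
    linarith
  have hab : a ≤ b := by
    rw [ha, hb]
    refine Real.log_le_log (by positivity) ?_
    rw [div_le_div_iff_of_pos_right hδ]
    linarith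
  have hac : a ≤ c := by
    rw [ha, hc]
    refine Real.log_le_log (by positivity) ?_
    rw [div_le_div_iff_of_pos_right hδ]
    linarith
  have hE : expL s D h δ = h + a * c + (a * b) ^ 2 * Real.log (a * b) := by
    unfold expL
    rw [← ha, ← hb, ← hc]
  rw [hE] at hε
  obtain ⟨R, Lw, m0, μ0, q, η1, ε1, hR1, hRu, hfac, hμ1, hμ, hq, hq2, hm0, hm0u, hDF, hη0, hε1,
    hη, hε1l⟩ := NumLow_par (D := D) hδ hδ1 hea heb ha2 hab
  obtain ⟨P, hP⟩ : ∃ P, P = a * b := ⟨_, rfl⟩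
  rw [← hP] at hε hε1l hm0u
  have hP7 : 7.67 ≤ P := by rw [hP]; nlinarith
  have hlogP : 1 ≤ Real.log P := by
    rw [Real.le_log_iff_exp_le (by linarith)]
    have := Real.exp_one_lt_d9
    linarith
  obtain ⟨V, hV⟩ : ∃ V, V = P ^ 2 * Real.log P := ⟨_, rfl⟩
  rw [← hV] at hε hε1l
  have hVP : P ≤ V := by
    rw [hV]
    calc P ≤ P ^ 2 * 1 := by nlinarith
      _ ≤ P ^ 2 * Real.log P := by gcongr
  obtain ⟨U, hU⟩ : ∃ U, U = a * c := ⟨_, rfl⟩
  rw [← hU] at hε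
  have hUa : a ≤ U := by rw [hU]; nlinarith
  have hUc : c ≤ U := by rw [hU]; nlinarith
  -- the main bound for ε 2^h
  have h2h : (2 : ℝ) ^ h ≤ Real.exp h := by
    have h1 : (2 : ℝ) ≤ Real.exp 1 := by linarith [Real.add_one_le_exp (1 : ℝ)]
    calc (2 : ℝ) ^ h ≤ Real.exp 1 ^ h := pow_le_pow_left₀ (by norm_num) h1 h
      _ = Real.exp h := by rw [← Real.exp_nat_mul, mul_one]
  have hmain : ε * 2 ^ h ≤ Real.exp (-(9999999 * U + 9999999 * V)) := by
    calc ε * 2 ^ h ≤ Real.exp (-(10000000 * (h + U + V))) * Real.exp h :=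
          mul_le_mul hε h2h (by positivity) (Real.exp_pos _).le
      _ = Real.exp (-(10000000 * (h + U + V)) + h) := by rw [← Real.exp_add]
      _ ≤ Real.exp (-(9999999 * U + 9999999 * V)) := Real.exp_le_exp.2 (by linarith)
  have hεm : ε ≤ ε * 2 ^ h := le_mul_of_one_le_right hε0 (one_le_pow₀ (by norm_num))
  -- general principle
  have key : ∀ (x y : ℝ), 0 ≤ x → x ≤ Real.exp y → y + a + 2 ≤ 9999999 * U + 9999999 * V →
      x * (ε * 2 ^ h) ≤ δ / 64 := by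
    intro x y hx0 hx hy
    have h4 : Real.exp (-(a + 2)) ≤ δ / 64 := by
      have h1 : Real.exp (-(a + 2)) = (16 / δ)⁻¹ * Real.exp (-2) := by
        rw [← hea, ← Real.exp_neg, ← Real.exp_add]
        congr 1
        ring
      have h3 : Real.exp (-2) ≤ 1 / 4 := by
        have h4 : (1 + 1 : ℝ) ≤ Real.exp 1 := by linarith [Real.add_one_le_exp (1 : ℝ)]
        have h5 : Real.exp 2 = Real.exp 1 * Real.exp 1 := by rw [← Real.exp_add]; norm_num
        rw [Real.exp_neg, inv_eq_one_div]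
        apply one_div_le_one_div_of_le (by norm_num)
        nlinarith
      rw [h1]
      calc (16 / δ)⁻¹ * Real.exp (-2) ≤ (16 / δ)⁻¹ * (1 / 4) := by gcongr
        _ = δ / 64 := by field_simp; norm_num
    calc x * (ε * 2 ^ h) ≤ Real.exp y * Real.exp (-(9999999 * U + 9999999 * V)) :=
          mul_le_mul hx hmain (by positivity) (Real.exp_pos _).le
      _ = Real.exp (y + -(9999999 * U + 9999999 * V)) := by rw [← Real.exp_add]
      _ ≤ Real.exp (-(a + 2)) := Real.exp_le_exp.2 (by linarith)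
      _ ≤ δ / 64 := h4
  have he2 : ∀ k : ℕ, (2 : ℝ) ^ k ≤ Real.exp k := by
    intro k
    have h1 : (2 : ℝ) ≤ Real.exp 1 := by linarith [Real.add_one_le_exp (1 : ℝ)]
    calc (2 : ℝ) ^ k ≤ Real.exp 1 ^ k := pow_le_pow_left₀ (by norm_num) h1 k
      _ = Real.exp k := by rw [← Real.exp_nat_mul, mul_one]
  have hsc : (s : ℝ) ≤ Real.exp c := by
    rw [hec]
    calc (s : ℝ) ≤ (16 / δ) * (s + 1) := by nlinarith
      _ = 16 * (s + 1) / δ := by ring
  -- the width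
  have hy0 : 0 ≤ Real.log (8 * s / δ) := by
    apply Real.log_nonneg
    rw [le_div_iff₀ hδ]
    nlinarith
  obtain ⟨W, hW1, -, hW3⟩ := NumLow_two (x := 8 * s / δ) (y := Real.log (8 * s / δ))
    (Real.exp_log (show (0 : ℝ) < 8 * s / δ by positivity)).ge hy0
  have hWc : (W : ℝ) * Real.log 2 ≤ c := by
    have h1 : Real.log (8 * s / δ) + Real.log 2 = Real.log (16 * s / δ) := by
      rw [← Real.log_mul (by positivity) (by norm_num)]
      congr 1
      ring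
    rw [h1] at hW3
    refine hW3.trans ?_
    rw [hc]
    refine Real.log_le_log (by positivity) ?_
    rw [div_le_div_iff_of_pos_right hδ]
    linarith
  have hW2 : (W : ℝ) ≤ 2 * c := by
    have : (0 : ℝ) ≤ W := Nat.cast_nonneg W
    nlinarith
  have hRc : (R : ℝ) * c ≤ 12 * U := by
    rw [hU]
    calc (R : ℝ) * c ≤ 12 * a * c := mul_le_mul_of_nonneg_right hRu (by linarith)
      _ = 12 * (a * c) := by ring
  have hRW : (R : ℝ) * W ≤ 24 * U := by
    calc (R : ℝ) * W ≤ R * (2 * c) := by gcongr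
      _ = 2 * (R * c) := by ring
      _ ≤ 24 * U := by linarith
  refine ⟨W, by rw [← hc]; exact hW2, ?_, ?_, ?_, ?_⟩
  · refine ⟨R, Lw, m0, a, μ0, q, η1, ε1, hR1, by linarith, ?_, hfac, hμ1, hμ, hq, hq2, hm0, hDF,
      hη0, hε1, hη, ?_, ?_, ?_, ?_⟩
    · rw [Real.exp_neg, hea]
      apply le_of_eq
      field_simp
    · -- (R+1) s^R ε'
      have h1 := key (2 * ((R + 1) * (s : ℝ) ^ R)) (1 + (12 * a + 12 * U)) (by positivity) ?_
        (by linarith)
      · calc (R + 1) * ((s : ℝ) ^ R * (2 * ε * 2 ^ h))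
            = 2 * ((R + 1) * (s : ℝ) ^ R) * (ε * 2 ^ h) := by ring
          _ ≤ δ / 64 := h1
      · have h2 : (R : ℝ) + 1 ≤ Real.exp (12 * a) :=
          (Real.add_one_le_exp (R : ℝ)).trans (Real.exp_le_exp.2 hRu)
        have h3 : (s : ℝ) ^ R ≤ Real.exp (12 * U) := by
          calc (s : ℝ) ^ R ≤ Real.exp c ^ R := pow_le_pow_left₀ (by positivity) hsc R
            _ = Real.exp (R * c) := by rw [← Real.exp_nat_mul]
            _ ≤ Real.exp (12 * U) := Real.exp_le_exp.2 hRc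
        have h4 : (2 : ℝ) ≤ Real.exp 1 := by linarith [Real.add_one_le_exp (1 : ℝ)]
        calc 2 * ((R + 1) * (s : ℝ) ^ R)
            ≤ Real.exp 1 * (Real.exp (12 * a) * Real.exp (12 * U)) := by gcongr
          _ = Real.exp (1 + (12 * a + 12 * U)) := by rw [← Real.exp_add, ← Real.exp_add]
    · -- 2 ε' 2^(RW)
      refine le_trans ?_ hε1l
      have h1 : (2 : ℝ) ^ (R * W) ≤ Real.exp (24 * U) := by
        refine (he2 _).trans (Real.exp_le_exp.2 ?_)
        push_cast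
        exact hRW
      have h2 : (4 : ℝ) ≤ Real.exp 2 := by
        have := he2 2
        norm_num at this
        exact this
      calc 2 * (2 * ε * 2 ^ h) * 2 ^ (R * W) = 4 * (2 ^ (R * W)) * (ε * 2 ^ h) := by ring
        _ ≤ Real.exp 2 * Real.exp (24 * U) * Real.exp (-(9999999 * U + 9999999 * V)) := by
          gcongr
        _ = Real.exp (2 + 24 * U + -(9999999 * U + 9999999 * V)) := by
          rw [← Real.exp_add, ← Real.exp_add]
        _ ≤ Real.exp (-(5547000 * V)) := Real.exp_le_exp.2 (by linarith)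
    · have h1 := key (8 * (s : ℝ) ^ 2) (3 + 2 * c) (by positivity) ?_ (by linarith)
      · calc 4 * (2 * ε * 2 ^ h) * (s : ℝ) ^ 2 = 8 * (s : ℝ) ^ 2 * (ε * 2 ^ h) := by ring
          _ ≤ δ / 64 := h1
          _ ≤ δ / 16 := by linarith
      · have h2 : (8 : ℝ) ≤ Real.exp 3 := by
          have := he2 3
          norm_num at this
          exact this
        calc 8 * (s : ℝ) ^ 2 ≤ Real.exp 3 * Real.exp c ^ 2 := by gcongr
          _ = Real.exp (3 + 2 * c) := by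
            rw [← Real.exp_nat_mul, ← Real.exp_add]
            norm_num
    · have h1 := key (8 * (m0 : ℝ) ^ 2) (3 + 2 * (21 * P)) (by positivity) ?_ (by linarith)
      · calc 4 * (2 * ε * 2 ^ h) * (m0 : ℝ) ^ 2 = 8 * (m0 : ℝ) ^ 2 * (ε * 2 ^ h) := by ring
          _ ≤ δ / 64 := h1
          _ ≤ δ / 16 := by linarith
      · have h2 : (8 : ℝ) ≤ Real.exp 3 := by
          have := he2 3
          norm_num at this
          exact this
        calc 8 * (m0 : ℝ) ^ 2 ≤ Real.exp 3 * Real.exp (21 * P) ^ 2 := by gcongr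
          _ = Real.exp (3 + 2 * (21 * P)) := by
            rw [← Real.exp_nat_mul, ← Real.exp_add]
            norm_num
  · have h1 := key 2 1 (by norm_num) (by linarith [Real.add_one_le_exp (1 : ℝ)]) (by linarith)
    calc 2 * ε * 2 ^ h = 2 * (ε * 2 ^ h) := by ring
      _ ≤ δ / 64 := h1
      _ ≤ 1 := by linarith
  · have h1 := key 1 0 (by norm_num) (by simp) (by linarith)
    calc 2 ^ h * ε = 1 * (ε * 2 ^ h) := by ring
      _ ≤ δ / 64 := h1
      _ ≤ δ / 32 := by linarith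
  · have h1 := key s c (by positivity) hsc (by linarith)
    have h2 : (s : ℝ) * ε ≤ δ / 32 := by
      calc (s : ℝ) * ε ≤ s * (ε * 2 ^ h) := by gcongr
        _ ≤ δ / 64 := h1
        _ ≤ δ / 32 := by linarith
    have h3 : (s : ℝ) * (1 / 2) ^ W ≤ δ / 8 := by
      rw [one_div, inv_pow, ← div_eq_mul_inv, div_le_iff₀ (by positivity)]
      rw [div_le_iff₀ hδ] at hW1
      linarith
    calc (s : ℝ) * ((1 / 2) ^ W + ε) = s * (1 / 2) ^ W + s * ε := by ring
      _ ≤ δ / 8 + δ / 32 := by linarith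

end Pool.Agent.Work.MP_56168e_lc
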