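import Mathlib
import Pool.Agent.Work.MP_56168e_lc.LowW
import Pool.Agent.Work.MP_56168e_lc.NumLow

set_option autoImplicit false

/-!
PROOF.  low_main: num_low and lowW (nbH T H A0 i ⊆ nbH T H univ i).
low_gen is the same with the dependency hypothesis only for the terms of width
≤ 2 log(16(s+1)/δ).
-/

namespace Pool.Agent.Work.MP_56168e_lc

open Finset

theorem low_gen : ∃ C : ℝ, 0 < C ∧ ∀ (n s D : ℕ) (T : Fin s → PA n) (H : Finset (Fin n))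
    (δ ε : ℝ) (φ : Cube n → ℝ), 1 ≤ s → 0 < δ → δ ≤ 1 → 0 ≤ ε →
    (∀ W : ℕ, (W : ℝ) ≤ 2 * Real.log (16 * (s + 1) / δ) →
      ∀ i ∈ (univ : Finset (Fin s)).filter (fun i => (dom (T i)).card ≤ W),
      (nbH T H ((univ : Finset (Fin s)).filter (fun i => (dom (T i)).card ≤ W)) i).card ≤ D) →
    ε ≤ Real.exp (-(C * expL s D H.card δ)) → Dens ε φ →
    |pe φ (nz T univ) - ex (nz T univ)| ≤ δ / 2 := by
  obtain ⟨C, hC, h⟩ := num_low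
  refine ⟨C, hC, ?_⟩
  intro n s D T H δ ε φ hs hδ hδ1 hε0 hD hε hφ
  obtain ⟨W, hW, hP, h1, h2, h3⟩ := h s D H.card δ ε hs hδ hδ1 hε0 hε
  have h4 := lowW T H hs (hD W hW) hδ hδ1 hε0 (le_refl (2 * ε * 2 ^ H.card)) h1 hP hφ
  linarith

theorem low_main : ∃ C : ℝ, 0 < C ∧ ∀ (n s D : ℕ) (T : Fin s → PA n) (H : Finset (Fin n))
    (δ ε : ℝ) (φ : Cube n → ℝ), 1 ≤ s → 0 < δ → δ ≤ 1 → 0 ≤ ε →
    (∀ i, (nbH T H univ i).card ≤ D) →
    ε ≤ Real.exp (-(C * expL s D H.card δ)) → Dens ε φ →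
    |pe φ (nz T univ) - ex (nz T univ)| ≤ δ / 2 := by
  obtain ⟨C, hC, h⟩ := low_gen
  refine ⟨C, hC, ?_⟩
  intro n s D T H δ ε φ hs hδ hδ1 hε0 hD hε hφ
  refine h n s D T H δ ε φ hs hδ hδ1 hε0 ?_ hε hφ
  intro W _ i _
  refine le_trans (card_le_card ?_) (hD i)
  intro j hj
  unfold nbH at *
  rw [mem_filter] at *
  exact ⟨mem_univ j, hj.2⟩

end Pool.Agent.Work.MP_56168e_lc
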