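import Mathlib

set_option autoImplicit false

/-!
Asymptotics for the read-k corollary.  δ ∈ (0,1], A ≥ 1 fixed.  With k = exp(A sqrt(log s/log log s)),
h ≤ A log s and D + 1 ≤ 2 (2 log(16(s+1)/δ)) k + 1: log(16(D+1)/δ) ≤ 2A sqrt(log s/log log s) for large s,
so (ab)^2 log(ab) ≤ 4 a^2 A^2 (log s/log log s) log log s = 4 a^2 A^2 log s for large s
(log(ab) ≤ log log s), and expL ≤ (A + 2a + 4a^2A^2) log s.
The statement is for real h and D to keep it simple.
-/

namespace Pool.Agent.Work.MP_56168e_lc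

open Filter in
private lemma NumRead_ev (c A a : ℝ) : ∃ S0 : ℝ, ∀ S ≥ S0, 1 ≤ Real.log S ∧ 1 ≤ S ∧ c ≤ S ∧
    4 * (Real.log S) ^ 3 ≤ S ∧ 4 * A ^ 2 * a ^ 2 ≤ S ∧ c ≤ Real.log S := by
  have h1 : ∀ᶠ S : ℝ in atTop, 1 ≤ Real.log S := Real.tendsto_log_atTop.eventually_ge_atTop 1
  have h2 : ∀ᶠ S : ℝ in atTop, 1 ≤ S := eventually_ge_atTop 1
  have h3 : ∀ᶠ S : ℝ in atTop, c ≤ S := eventually_ge_atTop c
  have h4 : ∀ᶠ S : ℝ in atTop, 4 * (Real.log S) ^ 3 ≤ S := by
    have h5 := (Real.isLittleO_pow_log_id_atTop (n := 3)).bound (show (0 : ℝ) < 1 / 4 by norm_num)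
    filter_upwards [h5, h2] with S hS hS1
    rw [Real.norm_eq_abs, Real.norm_eq_abs] at hS
    have h6 := (le_abs_self _).trans hS
    rw [id, abs_of_nonneg (by linarith)] at h6
    linarith
  have h5 : ∀ᶠ S : ℝ in atTop, 4 * A ^ 2 * a ^ 2 ≤ S := eventually_ge_atTop _
  have h6 : ∀ᶠ S : ℝ in atTop, c ≤ Real.log S := Real.tendsto_log_atTop.eventually_ge_atTop c
  obtain ⟨S0, h⟩ := eventually_atTop.1 (h1.and (h2.and (h3.and (h4.and (h5.and h6)))))
  exact ⟨S0, fun S hS => h S hS⟩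

theorem num_read (δ A : ℝ) (hδ : 0 < δ) (hδ1 : δ ≤ 1) (hA : 1 ≤ A) :
    ∃ K : ℝ, 0 < K ∧ ∃ s0 : ℕ, 1 ≤ s0 ∧ ∀ (s : ℕ) (h D : ℝ), s0 ≤ s → 0 ≤ h → 0 ≤ D →
      h ≤ A * Real.log s →
      D ≤ 2 * Real.log (16 * (s + 1) / δ)
        * Real.exp (A * Real.sqrt (Real.log s / Real.log (Real.log s))) →
      h + Real.log (16 / δ) * Real.log (16 * (s + 1) / δ)
        + (Real.log (16 / δ) * Real.log (16 * (D + 1) / δ)) ^ 2
          * Real.log (Real.log (16 / δ) * Real.log (16 * (D + 1) / δ)) ≤ K * Real.log s := by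
  set a := Real.log (16 / δ) with ha
  have ha0 : 0 < a := Real.log_pos (by rw [lt_div_iff₀ hδ]; linarith)
  set c := Real.log (80 / δ) with hc
  have hc0 : 0 < c := Real.log_pos (by rw [lt_div_iff₀ hδ]; linarith)
  obtain ⟨S0, hS0⟩ := NumRead_ev c A a
  refine ⟨A + 2 * a + 4 * A ^ 2 * a ^ 2, by positivity, max 1 ⌈Real.exp S0⌉₊, le_max_left _ _,
    fun s h D hs hh hD hhA hDA => ?_⟩
  have hs1 : 1 ≤ s := (le_max_left _ _).trans hs
  have hs1' : (1 : ℝ) ≤ s := by exact_mod_cast hs1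
  have hsS : S0 ≤ Real.log s := by
    rw [Real.le_log_iff_exp_le (by linarith)]
    have h1 : ⌈Real.exp S0⌉₊ ≤ s := (le_max_right _ _).trans hs
    exact (Nat.le_ceil _).trans (by exact_mod_cast h1)
  obtain ⟨q1, q2, q3, q4, q5, q6⟩ := hS0 _ hsS
  set S := Real.log s with hS
  set l := Real.log S with hl
  have hS0' : 0 < S := by linarith
  have hl0 : 0 < l := by linarith
  -- the first logarithm
  have b1 : Real.log (16 * (s + 1) / δ) ≤ 2 * S := by
    have h1 : Real.log (16 * (s + 1) / δ) ≤ Real.log (80 / δ * s) := by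
      refine Real.log_le_log (by positivity) ?_
      rw [div_mul_eq_mul_div]
      exact div_le_div_of_nonneg_right (by linarith) hδ.le
    rw [Real.log_mul (by positivity) (by positivity)] at h1
    linarith
  -- the square root
  set r := Real.sqrt (S / l) with hr
  have hr2 : r ^ 2 = S / l := Real.sq_sqrt (by positivity)
  have hr0 : 0 ≤ r := Real.sqrt_nonneg _
  have hrl : 2 * l ≤ r := by
    refine Real.le_sqrt_of_sq_le ?_
    rw [le_div_iff₀ hl0]
    calc (2 * l) ^ 2 * l = 4 * l ^ 3 := by ring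
      _ ≤ S := q4
  have hrpos : 0 < r := by linarith
  -- the second logarithm
  have b2 : Real.log (16 * (D + 1) / δ) ≤ 2 * A * r := by
    have hE : 1 ≤ Real.exp (A * r) := Real.one_le_exp (by positivity)
    have h1 : D ≤ 4 * S * Real.exp (A * r) := by
      refine hDA.trans ?_
      refine mul_le_mul_of_nonneg_right ?_ (Real.exp_pos _).le
      linarith
    have h2 : D + 1 ≤ 5 * S * Real.exp (A * r) := by nlinarith
    have h3 : Real.log (16 * (D + 1) / δ) ≤ Real.log (80 / δ * (S * Real.exp (A * r))) := by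
      refine Real.log_le_log (by positivity) ?_
      rw [div_mul_eq_mul_div]
      exact div_le_div_of_nonneg_right (by nlinarith) hδ.le
    rw [Real.log_mul (by positivity) (by positivity), Real.log_mul (by positivity) (by positivity),
      Real.log_exp] at h3
    have h4 : r ≤ A * r := by nlinarith
    have h5 : Real.log (80 / δ) = c := rfl
    have h6 : Real.log S = l := rfl
    rw [h5, h6] at h3
    linarith
  have b3 : 0 < Real.log (16 * (D + 1) / δ) :=
    Real.log_pos (by rw [lt_div_iff₀ hδ]; nlinarith)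
  set b := Real.log (16 * (D + 1) / δ) with hb
  have hab : a * b ≤ 2 * A * a * r := by nlinarith
  have hab0 : 0 < a * b := by positivity
  have h1 : (a * b) ^ 2 ≤ 4 * A ^ 2 * a ^ 2 * (S / l) := by
    calc (a * b) ^ 2 ≤ (2 * A * a * r) ^ 2 := pow_le_pow_left₀ hab0.le hab 2
      _ = 4 * A ^ 2 * a ^ 2 * r ^ 2 := by ring
      _ = _ := by rw [hr2]
  have h2 : Real.log (a * b) ≤ l := by
    refine Real.log_le_log hab0 ?_
    have h3 : (a * b) ^ 2 ≤ S ^ 2 := by
      refine h1.trans ?_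
      have h4 : S / l ≤ S := div_le_self hS0'.le q1
      calc 4 * A ^ 2 * a ^ 2 * (S / l) ≤ 4 * A ^ 2 * a ^ 2 * S :=
            mul_le_mul_of_nonneg_left h4 (by positivity)
        _ ≤ S * S := mul_le_mul_of_nonneg_right q5 hS0'.le
        _ = S ^ 2 := by ring
    exact (abs_le_of_sq_le_sq' h3 hS0'.le).2
  have h3 : (a * b) ^ 2 * Real.log (a * b) ≤ 4 * A ^ 2 * a ^ 2 * S := by
    calc (a * b) ^ 2 * Real.log (a * b) ≤ (a * b) ^ 2 * l :=
          mul_le_mul_of_nonneg_left h2 (sq_nonneg _)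
      _ ≤ 4 * A ^ 2 * a ^ 2 * (S / l) * l := mul_le_mul_of_nonneg_right h1 hl0.le
      _ = _ := by field_simp
  have h4 : a * Real.log (16 * (s + 1) / δ) ≤ a * (2 * S) := mul_le_mul_of_nonneg_left b1 ha0.le
  have h5 : (A + 2 * a + 4 * A ^ 2 * a ^ 2) * S = A * S + a * (2 * S) + 4 * A ^ 2 * a ^ 2 * S := by
    ring
  rw [h5]
  linarith

end Pool.Agent.Work.MP_56168e_lc
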