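import Mathlib
import Pool.Agent.Work.MP_56168e_lc.LowMain
import Pool.Agent.Work.MP_56168e_lc.NumRead

set_option autoImplicit false

/-!
PROOF.  low_gen with D = ⌊W0 k⌋, W0 = 2 log(16(s+1)/δ), k = exp(A sqrt(log s/log log s)): for a term i of
width ≤ W ≤ W0 the set nbH T H A0 i is contained in the union over v ∈ dom (T i) \ H of
{j : v ∈ dom (T j)}, at most W k elements.  num_read and C = C0 K:
(s : ℝ)^(-C) = exp(-C log s) ≤ exp(-C0 expL).
-/

namespace Pool.Agent.Work.MP_56168e_lc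

open Finset

private lemma nbH_card {n s : ℕ} (T : Fin s → PA n) (H : Finset (Fin n)) (A0 : Finset (Fin s))
    (i : Fin s) (W : ℕ) (hW : (dom (T i)).card ≤ W) {k : ℝ} (hk0 : 0 ≤ k)
    (hk : ∀ v, v ∉ H → (((univ : Finset (Fin s)).filter (fun j => v ∈ dom (T j))).card : ℝ) ≤ k) :
    ((nbH T H A0 i).card : ℝ) ≤ W * k := by
  classical
  have h1 : nbH T H A0 i ⊆ (dom (T i) \ H).biUnion
      (fun v => (univ : Finset (Fin s)).filter (fun j => v ∈ dom (T j))) := by
    intro j hj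
    unfold nbH at hj
    rw [mem_filter] at hj
    obtain ⟨_, _, h2⟩ := hj
    rw [Finset.not_disjoint_iff] at h2
    obtain ⟨v, hv1, hv2⟩ := h2
    rw [mem_biUnion]
    refine ⟨v, hv1, ?_⟩
    rw [mem_filter]
    exact ⟨mem_univ j, (mem_sdiff.mp hv2).1⟩
  have h2 : ((nbH T H A0 i).card : ℝ) ≤ ∑ v ∈ dom (T i) \ H,
      (((univ : Finset (Fin s)).filter (fun j => v ∈ dom (T j))).card : ℝ) := by
    have := (card_le_card h1).trans card_biUnion_le
    exact_mod_cast this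
  refine h2.trans ?_
  have h3 : ∑ v ∈ dom (T i) \ H,
      (((univ : Finset (Fin s)).filter (fun j => v ∈ dom (T j))).card : ℝ)
      ≤ ∑ v ∈ dom (T i) \ H, k := sum_le_sum fun v hv => hk v (mem_sdiff.mp hv).2
  refine h3.trans ?_
  rw [sum_const, nsmul_eq_mul]
  apply mul_le_mul_of_nonneg_right _ hk0
  have h4 : (dom (T i) \ H).card ≤ W := (card_le_card sdiff_subset).trans hW
  exact_mod_cast h4

theorem read_k (δ A : ℝ) (hδ : 0 < δ) (hδ1 : δ ≤ 1) (hA : 1 ≤ A) :
    ∃ C : ℝ, 0 < C ∧ ∃ s0 : ℕ, 1 ≤ s0 ∧ ∀ (n s r : ℕ) (T : Fin r → PA n) (H : Finset (Fin n))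
      (φ : Cube n → ℝ), s0 ≤ s → r ≤ s → (H.card : ℝ) ≤ A * Real.log s →
      (∀ v, v ∉ H → (((univ : Finset (Fin r)).filter (fun j => v ∈ dom (T j))).card : ℝ)
        ≤ Real.exp (A * Real.sqrt (Real.log s / Real.log (Real.log s)))) →
      Dens ((s : ℝ) ^ (-C)) φ → |pe φ (nz T univ) - ex (nz T univ)| ≤ δ / 2 := by
  obtain ⟨C0, hC0, h⟩ := low_gen
  obtain ⟨K, hK, s0, hs0, hnum⟩ := num_read δ A hδ hδ1 hA
  refine ⟨C0 * K, mul_pos hC0 hK, s0, hs0, ?_⟩
  intro n s r T H φ hs hrs hH hk hφ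
  have hs1 : 1 ≤ s := hs0.trans hs
  have hsr : (1 : ℝ) ≤ s := by exact_mod_cast hs1
  rcases Nat.eq_zero_or_pos r with hr0 | hr1
  · have h1 : nz T univ = fun _ => 1 := by
      funext x
      unfold nz
      refine if_neg ?_
      rintro ⟨i, -, -⟩
      exact absurd i.2 (by omega)
    rw [h1, pe_const hφ, ex_const, sub_self, abs_zero]
    linarith
  have hrsr : (r : ℝ) ≤ s := by exact_mod_cast hrs
  have hr0r : (0 : ℝ) ≤ r := Nat.cast_nonneg r
  set k : ℝ := Real.exp (A * Real.sqrt (Real.log s / Real.log (Real.log s))) with hkdef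
  have hk0 : 0 ≤ k := (Real.exp_pos _).le
  set W0 : ℝ := 2 * Real.log (16 * (s + 1) / δ) with hW0
  have hcc : Real.log (16 * (r + 1) / δ) ≤ Real.log (16 * (s + 1) / δ) := by
    refine Real.log_le_log (by positivity) ?_
    refine div_le_div_of_nonneg_right (by linarith) hδ.le
  have hW00 : 0 ≤ W0 := by
    have : (1 : ℝ) ≤ 16 * (s + 1) / δ := by
      rw [le_div_iff₀ hδ]
      linarith
    have := Real.log_nonneg this
    rw [hW0]
    linarith
  have hWk : 0 ≤ W0 * k := mul_nonneg hW00 hk0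
  refine h n r ⌊W0 * k⌋₊ T H δ ((s : ℝ) ^ (-(C0 * K))) φ hr1 hδ hδ1
    (Real.rpow_nonneg (by linarith) _) ?_ ?_ hφ
  · intro W hW i hi
    apply Nat.le_floor
    have hi2 := (mem_filter.mp hi).2
    refine (nbH_card T H _ i W hi2 hk0 hk).trans ?_
    refine mul_le_mul_of_nonneg_right ?_ hk0
    rw [hW0]
    linarith
  · have h1 := hnum s H.card (⌊W0 * k⌋₊ : ℝ) hs (by positivity) (by positivity) hH
      (Nat.floor_le hWk)
    rw [Real.rpow_def_of_pos (by linarith)]
    apply Real.exp_le_exp.mpr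
    have ha0 : 0 ≤ Real.log (16 / δ) := by
      apply Real.log_nonneg
      rw [le_div_iff₀ hδ]
      linarith
    have h2 : expL r ⌊W0 * k⌋₊ H.card δ ≤ K * Real.log s := by
      refine le_trans ?_ h1
      unfold expL
      have := mul_le_mul_of_nonneg_left hcc ha0
      linarith
    have h3 := mul_le_mul_of_nonneg_left h2 hC0.le
    nlinarith

end Pool.Agent.Work.MP_56168e_lc
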